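import Pool.Agent.H.MP_bcbcf8_co.BG.Fom

/-!
# Almost bipartite parts behind a small edge cut
-/

set_option autoImplicit false

namespace Pool.Agent.H.MP_bcbcf8_co

variable {V E : Type} {ends : E → Sym2 V} {S A : Set V}

theorem all_main [Finite V] [Finite E] (hloop : ∀ g, ¬ (ends g).IsDiag)
    (hcub : ∀ v, {g | v ∈ ends g}.ncard = 3) (hcol : ∃ c : E → Fin 3, IsCol ends c)
    (hS : 2 < S.ncard)
    (hX : {g | ∀ w ∈ ends g, w ∈ S ∩ A}.ncard ≤ 1)
    (hY : {g | ∀ w ∈ ends g, w ∈ S \ A}.ncard ≤ 1)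
    (hX' : (Bd ends S).ncard + {g | ∀ w ∈ ends g, w ∈ S ∩ A}.ncard ≤ 4)
    (hY' : (Bd ends S).ncard + {g | ∀ w ∈ ends g, w ∈ S \ A}.ncard ≤ 4) :
    ∃ e, (∀ w ∈ ends e, w ∈ S) ∧ Removable ends e := by
  rcases Nat.lt_or_ge 3 (Bd ends S).ncard with h | h
  · have h1 : {g | ∀ w ∈ ends g, w ∈ S ∩ A} = ∅ := by
      rw [← Set.ncard_eq_zero (Set.toFinite _)]
      omega
    have h2 : {g | ∀ w ∈ ends g, w ∈ S \ A} = ∅ := by
      rw [← Set.ncard_eq_zero (Set.toFinite _)]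
      omega
    refine fou_main (A := A) hloop hcub hcol (by omega) hS ?_
    intro g hg
    obtain ⟨x, y, hxy⟩ := bg_repr ends g
    have hx : x ∈ ends g := by rw [hxy]; exact Sym2.mem_mk_left _ _
    have hy : y ∈ ends g := by rw [hxy]; exact Sym2.mem_mk_right _ _
    have hmem : ∀ w, w ∈ ends g → w = x ∨ w = y := fun w hw => by rwa [hxy, Sym2.mem_iff] at hw
    have g1 : ¬ ∀ w ∈ ends g, w ∈ S ∩ A := fun h' => Set.eq_empty_iff_forall_notMem.1 h1 g h'
    have g2 : ¬ ∀ w ∈ ends g, w ∈ S \ A := fun h' => Set.eq_empty_iff_forall_notMem.1 h2 g h'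
    by_cases hxA : x ∈ A
    · refine ⟨x, hxA, y, fun hyA => g1 ?_, hxy⟩
      intro w hw
      rcases hmem w hw with rfl | rfl
      · exact ⟨hg w hw, hxA⟩
      · exact ⟨hg w hw, hyA⟩
    · by_cases hyA : y ∈ A
      · exact ⟨y, hyA, x, hxA, hxy.trans Sym2.eq_swap⟩
      · exact absurd (fun w hw => by
          rcases hmem w hw with rfl | rfl
          · exact ⟨hg w hw, hxA⟩
          · exact ⟨hg w hw, hyA⟩) g2
  · exact loc_main hloop hcub hcol h hS hX hY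

end Pool.Agent.H.MP_bcbcf8_co
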