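import Pool.Agent.H.MP_bcbcf8_co.BG.Def

/-!
# An edge in no 2-edge cut

PROOF. If no edge is in a 2-edge cut, any edge will do. Otherwise take `S` with `|Bd S| = 2` and `|S|` minimal. No set
has a boundary of one edge (`3 |S ∩ A| - 3 |S \ A|` is the number of the boundary edges with the end in `A` inside, minus
the number of the others). `3 |S| = 2 e(S) + 2`, so some edge `g` has both ends in `S`. Let `g ∈ Bd T`, `|Bd T| = 2`.
`g ∈ Bd (S ∩ T)` and `g ∈ Bd (S \ T)`, so both have at least two elements. `|Bd (S ∩ T)| + |Bd (S ∪ T)| ≤ 4`,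
`|Bd (S \ T)| + |Bd (T \ S)| ≤ 4`. By minimality `|Bd (S ∩ T)|, |Bd (S \ T)| > 2`, so `|Bd (S ∪ T)|, |Bd (T \ S)| ≤ 1`, so
they are empty, and `Bd S ⊆ Bd (S ∪ T) ∪ Bd (T \ S)` is empty, a contradiction.
-/

set_option autoImplicit false

namespace Pool.Agent.H.MP_bcbcf8_co

open Finset

variable {V E : Type} {ends : E → Sym2 V}

theorem exists_not_inCut [Finite V] [Nonempty V] [Finite E] {A : Set V} (hb : Bip ends A)
    (hcub : ∀ v, {g | v ∈ ends g}.ncard = 3) : ∃ e, ¬ InCut ends e := by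
  classical
  have := Fintype.ofFinite V
  have := Fintype.ofFinite E
  choose a haA b hbA hab using hb
  have hB : ∀ (S : Set V) g, g ∈ Bd ends S ↔ ¬ (a g ∈ S ↔ b g ∈ S) := by
    intro S g
    constructor
    · rintro ⟨p, hp, q, hq, h⟩
      rw [hab g, Sym2.eq_iff] at h
      rcases h with ⟨h1, h3⟩ | ⟨h1, h3⟩ <;> rw [h1, h3] <;> tauto
    · intro h
      by_cases h1 : a g ∈ S
      · exact ⟨a g, h1, b g, by tauto, hab g⟩
      · exact ⟨b g, by tauto, a g, h1, by rw [hab g, Sym2.eq_swap]⟩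
  have hBc : ∀ S : Set V, (Bd ends S).ncard = #{g | ¬ (a g ∈ S ↔ b g ∈ S)} := by
    intro S
    rw [← Set.ncard_coe_finset]
    congr 1
    ext g
    simp [hB]
  have hcub' : ∀ w, #{g | w ∈ ends g} = 3 := by
    intro w
    rw [← hcub w, ← Set.ncard_coe_finset]
    congr 1
    ext g
    simp
  have hdA : ∀ w ∈ A, #{g | a g = w} = 3 := by
    intro w hw
    rw [← hcub' w]
    congr 1
    ext g
    rw [mem_filter, mem_filter, hab g, Sym2.mem_iff]
    constructor
    · rintro ⟨h1, h2⟩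
      exact ⟨h1, .inl h2.symm⟩
    · rintro ⟨h1, h2 | h2⟩
      · exact ⟨h1, h2.symm⟩
      · exact absurd (h2 ▸ hw) (hbA g)
  have hdB : ∀ w, w ∉ A → #{g | b g = w} = 3 := by
    intro w hw
    rw [← hcub' w]
    congr 1
    ext g
    rw [mem_filter, mem_filter, hab g, Sym2.mem_iff]
    constructor
    · rintro ⟨h1, h2⟩
      exact ⟨h1, .inr h2.symm⟩
    · rintro ⟨h1, h2 | h2⟩
      · exact absurd (haA g) (h2 ▸ hw)
      · exact ⟨h1, h2.symm⟩
  -- degree sums
  have hsA : ∀ S : Set V, #{g | a g ∈ S} = 3 * #{w | w ∈ S ∧ w ∈ A} := by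
    intro S
    rw [card_eq_sum_card_fiberwise (f := a) (s := {g | a g ∈ S}) (t := {w | w ∈ S ∧ w ∈ A})]
    · rw [Finset.sum_congr rfl (g := fun _ => 3), Finset.sum_const, smul_eq_mul, mul_comm]
      intro w hw
      rw [mem_filter] at hw
      rw [← hdA w hw.2.2, filter_filter]
      congr 1
      ext g
      simp only [mem_filter]
      constructor
      · rintro ⟨h1, h2, h3⟩
        exact ⟨h1, h3⟩
      · rintro ⟨h1, h2⟩
        exact ⟨h1, h2 ▸ hw.2.1, h2⟩
    · intro g hg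
      have h1 := (mem_filter.1 (mem_coe.1 hg)).2
      exact mem_coe.2 (mem_filter.2 ⟨mem_univ _, h1, haA g⟩)
  have hsB : ∀ S : Set V, #{g | b g ∈ S} = 3 * #{w | w ∈ S ∧ w ∉ A} := by
    intro S
    rw [card_eq_sum_card_fiberwise (f := b) (s := {g | b g ∈ S}) (t := {w | w ∈ S ∧ w ∉ A})]
    · rw [Finset.sum_congr rfl (g := fun _ => 3), Finset.sum_const, smul_eq_mul, mul_comm]
      intro w hw
      rw [mem_filter] at hw
      rw [← hdB w hw.2.2, filter_filter]
      congr 1
      ext g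
      simp only [mem_filter]
      constructor
      · rintro ⟨h1, h2, h3⟩
        exact ⟨h1, h3⟩
      · rintro ⟨h1, h2⟩
        exact ⟨h1, h2 ▸ hw.2.1, h2⟩
    · intro g hg
      have h1 := (mem_filter.1 (mem_coe.1 hg)).2
      exact mem_coe.2 (mem_filter.2 ⟨mem_univ _, h1, hbA g⟩)
  have cnt : ∀ S : Set V, ∃ i p q : ℕ, i = #{g | a g ∈ S ∧ b g ∈ S} ∧
      (Bd ends S).ncard = p + q ∧ i + p = 3 * #{w | w ∈ S ∧ w ∈ A} ∧
      i + q = 3 * #{w | w ∈ S ∧ w ∉ A} := by
    intro S
    refine ⟨_, #{g | a g ∈ S ∧ b g ∉ S}, #{g | b g ∈ S ∧ a g ∉ S}, rfl, ?_, ?_, ?_⟩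
    · rw [hBc, ← card_union_of_disjoint]
      · congr 1
        ext g
        simp only [mem_filter, mem_union, mem_univ, true_and]
        tauto
      · rw [disjoint_filter]
        tauto
    · rw [← hsA, ← card_filter_add_card_filter_not (s := {g | a g ∈ S}) (p := fun g => b g ∈ S),
        filter_filter, filter_filter]
    · rw [← hsB, ← card_filter_add_card_filter_not (s := {g | b g ∈ S}) (p := fun g => a g ∈ S),
        filter_filter, filter_filter]
      congr 2
      ext g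
      simp only [mem_filter]
      tauto
  have one : ∀ S : Set V, (Bd ends S).ncard ≠ 1 := by
    intro S
    obtain ⟨i, p, q, -, h1, h2, h3⟩ := cnt S
    omega
  have sub1 : ∀ S T : Set V, (Bd ends (S ∩ T)).ncard + (Bd ends (S ∪ T)).ncard ≤
      (Bd ends S).ncard + (Bd ends T).ncard := by
    intro S T
    simp only [hBc, card_filter]
    rw [← sum_add_distrib, ← sum_add_distrib]
    refine sum_le_sum fun g _ => ?_
    by_cases h1 : a g ∈ S <;> by_cases h2 : b g ∈ S <;> by_cases h3 : a g ∈ T <;>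
      by_cases h4 : b g ∈ T <;> simp [h1, h2, h3, h4]
  have sub2 : ∀ S T : Set V, (Bd ends (S \ T)).ncard + (Bd ends (T \ S)).ncard ≤
      (Bd ends S).ncard + (Bd ends T).ncard := by
    intro S T
    simp only [hBc, card_filter]
    rw [← sum_add_distrib, ← sum_add_distrib]
    refine sum_le_sum fun g _ => ?_
    by_cases h1 : a g ∈ S <;> by_cases h2 : b g ∈ S <;> by_cases h3 : a g ∈ T <;>
      by_cases h4 : b g ∈ T <;> simp [h1, h2, h3, h4]
  have sub3 : ∀ S T : Set V, (Bd ends S).ncard ≤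
      (Bd ends (S ∪ T)).ncard + (Bd ends (T \ S)).ncard := by
    intro S T
    simp only [hBc, card_filter]
    rw [← sum_add_distrib]
    refine sum_le_sum fun g _ => ?_
    by_cases h1 : a g ∈ S <;> by_cases h2 : b g ∈ S <;> by_cases h3 : a g ∈ T <;>
      by_cases h4 : b g ∈ T <;> simp [h1, h2, h3, h4]
  by_cases hex : ∃ S : Set V, (Bd ends S).ncard = 2
  · obtain ⟨S, hS, hmin⟩ := exists_minimalFor_of_wellFoundedLT (fun S : Set V => (Bd ends S).ncard = 2)
      (fun S : Set V => S.ncard) hex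
    obtain ⟨i, p, q, hi, h1, h2, h3⟩ := cnt S
    have hi0 : 0 < i := by omega
    rw [hi, card_pos] at hi0
    obtain ⟨g, hg⟩ := hi0
    rw [mem_filter] at hg
    obtain ⟨-, hga, hgb⟩ := hg
    refine ⟨g, ?_⟩
    rintro ⟨T, hgT, hT⟩
    rw [hB] at hgT
    have lt : ∀ S', S' ⊆ S → (a g ∉ S' ∨ b g ∉ S') → (Bd ends S').ncard ≠ 2 := by
      intro S' hsub hor h5
      have h6 := hmin h5 (Set.ncard_le_ncard hsub (Set.toFinite _))
      have h7 := Set.eq_of_subset_of_ncard_le hsub h6 (Set.toFinite _)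
      rw [h7] at hor
      tauto
    have g1 : g ∈ Bd ends (S ∩ T) := by
      rw [hB]
      simp only [Set.mem_inter_iff]
      tauto
    have g2 : g ∈ Bd ends (S \ T) := by
      rw [hB]
      simp only [Set.mem_sdiff]
      tauto
    have c1 : 0 < (Bd ends (S ∩ T)).ncard := (Set.ncard_pos (Set.toFinite _)).2 ⟨g, g1⟩
    have c2 : 0 < (Bd ends (S \ T)).ncard := (Set.ncard_pos (Set.toFinite _)).2 ⟨g, g2⟩
    have l1 := lt (S ∩ T) Set.inter_subset_left (by simp only [Set.mem_inter_iff]; tauto)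
    have l2 := lt (S \ T) Set.sdiff_subset (by simp only [Set.mem_sdiff]; tauto)
    have o1 := one (S ∩ T)
    have o2 := one (S \ T)
    have o3 := one (S ∪ T)
    have o4 := one (T \ S)
    have s1 := sub1 S T
    have s2 := sub2 S T
    have s3 := sub3 S T
    omega
  · obtain ⟨v⟩ := ‹Nonempty V›
    have h1 : 0 < #{g | v ∈ ends g} := by rw [hcub' v]; norm_num
    obtain ⟨g, -⟩ := card_pos.1 h1
    refine ⟨g, ?_⟩
    rintro ⟨S, -, hS⟩
    exact hex ⟨S, hS⟩

end Pool.Agent.H.MP_bcbcf8_co
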