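import Pool.Agent.H.MP_bcbcf8_co.BG.Core

/-!
# Bipartite cubic graphs: the colouring
-/

set_option autoImplicit false

namespace Pool.Agent.H.MP_bcbcf8_co.BG

open Finset Function

variable {X Y E : Type} [Fintype X] [Fintype Y] [Fintype E] [DecidableEq X] [DecidableEq Y]
  [DecidableEq E]

theorem two_left {Z : Type} [DecidableEq Z] {k : E → Z} {z : Z} {M : Finset E}
    (h : (univ.filter fun g => k g = z).card = 3) (h1 : ∃! g, g ∈ M ∧ k g = z) :
    (univ.filter fun g => g ∉ M ∧ k g = z).card = 2 := by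
  obtain ⟨m, ⟨hm, hmz⟩, hu⟩ := h1
  have h2 : (univ.filter fun g => g ∉ M ∧ k g = z) = (univ.filter fun g => k g = z).erase m := by
    ext g
    rw [mem_filter, mem_erase, mem_filter]
    constructor
    · rintro ⟨-, h3, h4⟩
      exact ⟨fun h5 => h3 (h5 ▸ hm), mem_univ _, h4⟩
    · rintro ⟨h3, -, h4⟩
      exact ⟨mem_univ _, fun h5 => h3 (hu g ⟨h5, h4⟩), h4⟩
  have h3 : m ∈ univ.filter fun g => k g = z := mem_filter.2 ⟨mem_univ _, hmz⟩
  rw [h2, card_erase_of_mem h3, h]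

/-- the second colour class -/
theorem exM2 {l : E → X} {r : E → Y} (hl : ∀ x, (univ.filter fun g => l g = x).card = 3)
    (hr : ∀ y, (univ.filter fun g => r g = y).card = 3) {e : E} {M : Finset E}
    (hM1 : ∀ g, g ≠ e → (l g = l e ∨ r g = r e) → g ∈ M)
    (hMx : ∀ x, x ≠ l e → ∃! g, g ∈ M ∧ l g = x) (hMy : ∀ y, y ≠ r e → ∃! g, g ∈ M ∧ r g = y) :
    ∃ M2 : Finset E, (∀ g ∈ M2, g ∉ M) ∧
      (∀ x, x ≠ l e → ∃! g, g ∈ M2 ∧ l g = x) ∧ (∀ y, y ≠ r e → ∃! g, g ∈ M2 ∧ r g = y) := by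
  classical
  let t : {x : X // x ≠ l e} → Finset Y := fun x =>
    (univ.filter fun g => g ∉ M ∧ l g = x.1).image r
  have hall : ∀ s : Finset {x : X // x ≠ l e}, s.card ≤ (s.biUnion t).card := by
    intro s
    obtain ⟨P, hP⟩ : ∃ P : Finset X, P = s.image Subtype.val := ⟨_, rfl⟩
    have hPc : P.card = s.card := by
      rw [hP, card_image_of_injective _ Subtype.val_injective]
    have hPs : ∀ x ∈ P, ∃ x' ∈ s, x'.1 = x := by
      intro x hx
      rw [hP, mem_image] at hx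
      exact hx
    have c1 : (univ.filter fun g => g ∉ M ∧ l g ∈ P).card = 2 * P.card := by
      refine card_fib fun x hx => two_left (hl x) (hMx x ?_)
      obtain ⟨x', -, rfl⟩ := hPs x hx
      exact x'.2
    have hN : ∀ g, g ∉ M → l g ∈ P → r g ∈ s.biUnion t := by
      intro g hg h1
      obtain ⟨x', hx', hx⟩ := hPs _ h1
      exact mem_biUnion.2 ⟨x', hx', mem_image.2 ⟨g, mem_filter.2 ⟨mem_univ _, hg, hx.symm⟩, rfl⟩⟩
    have c2 : (univ.filter fun g => g ∉ M ∧ r g ∈ s.biUnion t).card = 2 * (s.biUnion t).card := by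
      refine card_fib fun y hy => two_left (hr y) (hMy y ?_)
      obtain ⟨x', hx', hy'⟩ := mem_biUnion.1 hy
      obtain ⟨g, hg, hgy⟩ := mem_image.1 hy'
      obtain ⟨-, hg1, hg2⟩ := mem_filter.1 hg
      intro h
      refine hg1 (hM1 g ?_ (Or.inr (hgy.trans h)))
      rintro rfl
      exact x'.2 hg2.symm
    have c3 : (univ.filter fun g => g ∉ M ∧ l g ∈ P).card ≤
        (univ.filter fun g => g ∉ M ∧ r g ∈ s.biUnion t).card := by
      refine card_le_card fun g hg => ?_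
      obtain ⟨-, h1, h2⟩ := mem_filter.1 hg
      exact mem_filter.2 ⟨mem_univ _, h1, hN g h1 h2⟩
    omega
  obtain ⟨f, hf, hft⟩ := (Finset.all_card_le_biUnion_card_iff_exists_injective t).1 hall
  have h1 : ∀ x, ∃ g, g ∉ M ∧ l g = x.1 ∧ r g = f x := by
    intro x
    obtain ⟨g, hg, h2⟩ := mem_image.1 (hft x)
    obtain ⟨-, h3, h4⟩ := mem_filter.1 hg
    exact ⟨g, h3, h4, h2⟩
  choose φ hφM hφl hφr using h1
  have hne : ∀ x, r (φ x) ≠ r e := by
    intro x h
    refine hφM x (hM1 _ ?_ (Or.inr h))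
    intro h2
    exact x.2 (by rw [← hφl x, h2])
  have hcard : Fintype.card X = Fintype.card Y := by
    have e1 := card_fib' (k := l) (P := univ) hl
    have e2 := card_fib' (k := r) (P := univ) hr
    simp only [mem_univ, filter_true] at e1 e2
    rw [e1] at e2
    have e3 := Nat.eq_of_mul_eq_mul_left (by norm_num) e2
    rwa [card_univ, card_univ] at e3
  have hbij : Bijective (fun x : {x : X // x ≠ l e} =>
      (⟨r (φ x), hne x⟩ : {y : Y // y ≠ r e})) := by
    refine (Fintype.bijective_iff_injective_and_card _).2 ⟨fun x x' h => hf ?_, ?_⟩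
    · rw [← hφr, ← hφr]
      exact congrArg Subtype.val h
    · rw [Fintype.card_subtype_compl, Fintype.card_subtype_compl, hcard, Fintype.card_subtype_eq,
        Fintype.card_subtype_eq]
  refine ⟨univ.image φ, ?_, ?_, ?_⟩
  · intro g hg
    obtain ⟨x, -, rfl⟩ := mem_image.1 hg
    exact hφM x
  · intro x hx
    refine ⟨φ ⟨x, hx⟩, ⟨mem_image_of_mem _ (mem_univ _), hφl _⟩, ?_⟩
    rintro g ⟨hg, hgx⟩
    obtain ⟨x', -, rfl⟩ := mem_image.1 hg
    have h5 : x' = ⟨x, hx⟩ := Subtype.ext (by rw [← hφl x', hgx])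
    rw [h5]
  · intro y hy
    obtain ⟨x, hx⟩ := hbij.2 ⟨y, hy⟩
    have hx' : r (φ x) = y := congrArg Subtype.val hx
    refine ⟨φ x, ⟨mem_image_of_mem _ (mem_univ _), hx'⟩, ?_⟩
    rintro g ⟨hg, hgy⟩
    obtain ⟨x', -, rfl⟩ := mem_image.1 hg
    have h5 : x' = x := hf (by rw [← hφr, ← hφr, hgy, hx'])
    rw [h5]

/-- the colouring is proper at a vertex -/
theorem col_ok {Z : Type} [DecidableEq Z] {k : E → Z} {z : Z} {M M2 : Finset E}
    (h : (univ.filter fun g => k g = z).card = 3) (hd : ∀ g ∈ M2, g ∉ M)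
    (h1 : ∃! g, g ∈ M ∧ k g = z) (h2 : ∃! g, g ∈ M2 ∧ k g = z) {f g : E} (hf : k f = z)
    (hg : k g = z) (hfg : f ≠ g) :
    (if f ∈ M then (0 : Fin 3) else if f ∈ M2 then 1 else 2) ≠
      (if g ∈ M then (0 : Fin 3) else if g ∈ M2 then 1 else 2) := by
  obtain ⟨m, ⟨hm, hmz⟩, hu⟩ := h1
  obtain ⟨m2, ⟨hm2, hmz2⟩, hu2⟩ := h2
  by_cases a1 : f ∈ M
  · by_cases b1 : g ∈ M
    · exact absurd ((hu f ⟨a1, hf⟩).trans (hu g ⟨b1, hg⟩).symm) hfg
    · by_cases b2 : g ∈ M2 <;> simp [a1, b1, b2]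
  · by_cases a2 : f ∈ M2
    · by_cases b1 : g ∈ M
      · simp [a1, a2, b1]
      · by_cases b2 : g ∈ M2
        · exact absurd ((hu2 f ⟨a2, hf⟩).trans (hu2 g ⟨b2, hg⟩).symm) hfg
        · simp [a1, a2, b1, b2]
    · by_cases b1 : g ∈ M
      · simp [a1, a2, b1]
      · by_cases b2 : g ∈ M2
        · simp [a1, a2, b1, b2]
        · exfalso
          have h3 : ({f, g, m, m2} : Finset E) ⊆ univ.filter fun g => k g = z := by
            intro x hx
            simp only [mem_insert, mem_singleton] at hx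
            rcases hx with rfl | rfl | rfl | rfl
            · exact mem_filter.2 ⟨mem_univ _, hf⟩
            · exact mem_filter.2 ⟨mem_univ _, hg⟩
            · exact mem_filter.2 ⟨mem_univ _, hmz⟩
            · exact mem_filter.2 ⟨mem_univ _, hmz2⟩
          have h4 := card_le_card h3
          have n1 : m ≠ m2 := fun h5 => hd m2 hm2 (h5 ▸ hm)
          have n2 : g ≠ m := fun h5 => b1 (h5 ▸ hm)
          have n3 : g ≠ m2 := fun h5 => b2 (h5 ▸ hm2)
          have n4 : f ≠ m := fun h5 => a1 (h5 ▸ hm)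
          have n5 : f ≠ m2 := fun h5 => a2 (h5 ▸ hm2)
          rw [h, card_insert_of_notMem (by simp [hfg, n4, n5]),
            card_insert_of_notMem (by simp [n2, n3]), card_insert_of_notMem (by simp [n1]),
            card_singleton] at h4
          omega

theorem core {l : E → X} {r : E → Y} (hl : ∀ x, (univ.filter fun g => l g = x).card = 3)
    (hr : ∀ y, (univ.filter fun g => r g = y).card = 3) {e : E} (hc : NC l r e) :
    ∃ c : E → Fin 3, (∀ f g, l f = l g → l g ≠ l e → f ≠ g → c f ≠ c g) ∧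
      (∀ f g, r f = r g → r g ≠ r e → f ≠ g → c f ≠ c g) ∧
      (∀ f g, f ≠ e → g ≠ e → (l f = l e ∨ r f = r e) → (l g = l e ∨ r g = r e) → c f = c g) := by
  obtain ⟨M, heM, hM1, hMx, hMy⟩ := exM hl hr hc
  obtain ⟨M2, hd, h2x, h2y⟩ := exM2 hl hr hM1 hMx hMy
  refine ⟨fun g => if g ∈ M then (0 : Fin 3) else if g ∈ M2 then 1 else 2, ?_, ?_, ?_⟩
  · intro f g hfg hg hne
    exact col_ok (hl (l g)) hd (hMx _ hg) (h2x _ hg) hfg rfl hne
  · intro f g hfg hg hne
    exact col_ok (hr (r g)) hd (hMy _ hg) (h2y _ hg) hfg rfl hne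
  · intro f g hf hg h1 h2
    have h3 : f ∈ M := hM1 f hf h1
    have h4 : g ∈ M := hM1 g hg h2
    simp [h3, h4]

end Pool.Agent.H.MP_bcbcf8_co.BG
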