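import Pool.Agent.H.MP_bcbcf8_co.BG.Def
import Pool.Agent.H.MP_bcbcf8_co.BG.Col

/-!
# An edge in no 2-edge cut is removable
-/

set_option autoImplicit false

namespace Pool.Agent.H.MP_bcbcf8_co

variable {V E : Type} {ends : E → Sym2 V}

theorem removable_of_not_inCut [Finite V] [Finite E] {A : Set V} (hb : Bip ends A)
    (hcub : ∀ v, {g | v ∈ ends g}.ncard = 3) {e : E} (h : ¬ InCut ends e) : Removable ends e := by
  classical
  have := Fintype.ofFinite V
  have := Fintype.ofFinite E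
  choose u hu v hv huv using hb
  let l : E → {x // x ∈ A} := fun g => ⟨u g, hu g⟩
  let r : E → {x // x ∉ A} := fun g => ⟨v g, hv g⟩
  have hml : ∀ (x : V) (hx : x ∈ A) (g : E), x ∈ ends g ↔ l g = ⟨x, hx⟩ := by
    intro x hx g
    rw [huv g, Sym2.mem_iff]
    constructor
    · rintro (h1 | h1)
      · exact Subtype.ext h1.symm
      · exact absurd (h1 ▸ hx) (hv g)
    · intro h1
      exact Or.inl (congrArg Subtype.val h1).symm
  have hmr : ∀ (x : V) (hx : x ∉ A) (g : E), x ∈ ends g ↔ r g = ⟨x, hx⟩ := by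
    intro x hx g
    rw [huv g, Sym2.mem_iff]
    constructor
    · rintro (h1 | h1)
      · exact absurd (h1 ▸ hu g) hx
      · exact Subtype.ext h1.symm
    · intro h1
      exact Or.inr (congrArg Subtype.val h1).symm
  have hl : ∀ x, (Finset.univ.filter fun g => l g = x).card = 3 := by
    rintro ⟨x, hx⟩
    rw [← hcub x, Set.ncard_eq_toFinset_card']
    congr 1
    ext g
    rw [Finset.mem_filter, Set.mem_toFinset]
    exact ⟨fun h1 => (hml x hx g).2 h1.2, fun h1 => ⟨Finset.mem_univ _, (hml x hx g).1 h1⟩⟩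
  have hr : ∀ y, (Finset.univ.filter fun g => r g = y).card = 3 := by
    rintro ⟨x, hx⟩
    rw [← hcub x, Set.ncard_eq_toFinset_card']
    congr 1
    ext g
    rw [Finset.mem_filter, Set.mem_toFinset]
    exact ⟨fun h1 => (hmr x hx g).2 h1.2, fun h1 => ⟨Finset.mem_univ _, (hmr x hx g).1 h1⟩⟩
  have hc : BG.NC l r e := by
    intro P Q he hcard
    refine h ⟨{x | (∃ hx : x ∈ A, (⟨x, hx⟩ : {x // x ∈ A}) ∈ P) ∨
      ∃ hx : x ∉ A, (⟨x, hx⟩ : {x // x ∉ A}) ∈ Q}, ?_⟩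
    have key : Bd ends {x | (∃ hx : x ∈ A, (⟨x, hx⟩ : {x // x ∈ A}) ∈ P) ∨
        ∃ hx : x ∉ A, (⟨x, hx⟩ : {x // x ∉ A}) ∈ Q} = (BG.bd l r P Q : Set E) := by
      have mu : ∀ g, u g ∈ {x | (∃ hx : x ∈ A, (⟨x, hx⟩ : {x // x ∈ A}) ∈ P) ∨
          ∃ hx : x ∉ A, (⟨x, hx⟩ : {x // x ∉ A}) ∈ Q} ↔ l g ∈ P := by
        intro g
        constructor
        · rintro (⟨_, h1⟩ | ⟨h1, _⟩)
          · exact h1
          · exact absurd (hu g) h1
        · intro h1
          exact Or.inl ⟨hu g, h1⟩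
      have mv : ∀ g, v g ∈ {x | (∃ hx : x ∈ A, (⟨x, hx⟩ : {x // x ∈ A}) ∈ P) ∨
          ∃ hx : x ∉ A, (⟨x, hx⟩ : {x // x ∉ A}) ∈ Q} ↔ r g ∈ Q := by
        intro g
        constructor
        · rintro (⟨h1, _⟩ | ⟨_, h1⟩)
          · exact absurd h1 (hv g)
          · exact h1
        · intro h1
          exact Or.inr ⟨hv g, h1⟩
      ext g
      rw [Finset.mem_coe, BG.bd, Finset.mem_filter, ← mu, ← mv]
      constructor
      · rintro ⟨x, hx, y, hy, hxy⟩
        refine ⟨Finset.mem_univ _, fun h1 => ?_⟩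
        rw [huv g, Sym2.eq_iff] at hxy
        rcases hxy with ⟨h2, h3⟩ | ⟨h2, h3⟩
        · rw [h2, h3] at h1
          exact hy (h1.1 hx)
        · rw [h2, h3] at h1
          exact hy (h1.2 hx)
      · rintro ⟨-, h1⟩
        by_cases h2 : u g ∈ {x | (∃ hx : x ∈ A, (⟨x, hx⟩ : {x // x ∈ A}) ∈ P) ∨
          ∃ hx : x ∉ A, (⟨x, hx⟩ : {x // x ∉ A}) ∈ Q}
        · exact ⟨u g, h2, v g, fun h3 => h1 ⟨fun _ => h3, fun _ => h2⟩, huv g⟩
        · refine ⟨v g, ?_, u g, h2, ?_⟩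
          · by_contra h3
            exact h1 ⟨fun h4 => absurd h4 h2, fun h4 => absurd h4 h3⟩
          · rw [huv g, Sym2.eq_swap]
    rw [key, Set.ncard_coe_finset]
    exact ⟨he, hcard⟩
  obtain ⟨c, hcl, hcr, hce⟩ := BG.core hl hr hc
  refine ⟨c, ?_, ?_⟩
  · intro x f g hx hf hg hfg
    by_cases hxA : x ∈ A
    · rw [hml x hxA] at hx hf hg
      exact hcl f g (hf.trans hg.symm) (fun h1 => hx (h1.symm.trans hg)) hfg
    · rw [hmr x hxA] at hx hf hg
      exact hcr f g (hf.trans hg.symm) (fun h1 => hx (h1.symm.trans hg)) hfg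
  · intro x f g hx hf hg hfe hge
    by_cases hxA : x ∈ A
    · rw [hml x hxA] at hx hf hg
      exact hce f g hfe hge (Or.inl (hf.trans hx.symm)) (Or.inl (hg.trans hx.symm))
    · rw [hmr x hxA] at hx hf hg
      exact hce f g hfe hge (Or.inr (hf.trans hx.symm)) (Or.inr (hg.trans hx.symm))

end Pool.Agent.H.MP_bcbcf8_co
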