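import Pool.Agent.H.MP_bcbcf8_co.BG.Conv
import Pool.Agent.H.MP_bcbcf8_co.BG.Exi
import Pool.Agent.H.MP_bcbcf8_co.BG.Ker

/-!
# Removable edges of bipartite cubic graphs
-/

set_option autoImplicit false

namespace Pool.Agent.H.MP_bcbcf8_co

variable {V E : Type} {ends : E → Sym2 V}

theorem bip_main [Finite V] [Nonempty V] [Finite E] {A : Set V} (hb : Bip ends A)
    (hcub : ∀ v, {g | v ∈ ends g}.ncard = 3) :
    (∀ e, Removable ends e ↔ ¬ InCut ends e) ∧ ∃ e, Removable ends e := by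
  have h1 : ∀ e, Removable ends e ↔ ¬ InCut ends e := by
    intro e
    refine ⟨not_inCut_of_removable ?_ hcub, removable_of_not_inCut hb hcub⟩
    intro g hg
    obtain ⟨u, hu, v, hv, h⟩ := hb g
    rw [h, Sym2.mk_isDiag_iff] at hg
    exact hv (hg ▸ hu)
  obtain ⟨e, he⟩ := exists_not_inCut hb hcub
  exact ⟨h1, e, (h1 e).2 he⟩

end Pool.Agent.H.MP_bcbcf8_co
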