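import Pool.Agent.H.MP_bcbcf8_co.BG.Leaf
import Pool.Agent.H.MP_bcbcf8_co.BG.Main

/-!
# Cubic graphs which are bipartite after the deletion of at most two edges
-/

set_option autoImplicit false

namespace Pool.Agent.H.MP_bcbcf8_co

open Finset

section alm

variable {V E : Type} {ends : E → Sym2 V}

/-- the two other edges at an end of the bad edge `g₁` -/
theorem alm_adj [Finite E] {A : Set V} (hcub : ∀ v, {g | v ∈ ends g}.ncard = 3) {g₁ g₂ : E}
    {a a' b b' : V} (ha : a ∈ A) (hb : b ∉ A) (hb' : b' ∉ A) (h1 : ends g₁ = s(a, a'))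
    (h2 : ends g₂ = s(b, b'))
    (hgood : ∀ g, g ≠ g₁ → g ≠ g₂ → ∃ u ∈ A, ∃ v ∉ A, ends g = s(u, v)) :
    ∃ e k c c', e ≠ k ∧ c ∉ A ∧ c' ∉ A ∧ ends e = s(a, c) ∧ ends k = s(a, c') := by
  classical
  have := Fintype.ofFinite E
  have h3 : #(({g | a ∈ ends g} : Finset E).erase g₁) = 2 := by
    rw [card_erase_of_mem (by simp [h1]), bg_card hcub]
  obtain ⟨e, k, hek, h4⟩ := card_eq_two.1 h3
  have h5 : ∀ g ∈ ({g | a ∈ ends g} : Finset E).erase g₁, ∃ c ∉ A, ends g = s(a, c) := by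
    intro g hg
    rw [mem_erase, mem_filter] at hg
    obtain ⟨h6, -, h7⟩ := hg
    have h8 : g ≠ g₂ := by
      rintro rfl
      rw [h2, Sym2.mem_iff] at h7
      rcases h7 with rfl | rfl
      · exact hb ha
      · exact hb' ha
    obtain ⟨u, hu, v, hv, h⟩ := hgood g h6 h8
    rw [h, Sym2.mem_iff] at h7
    rcases h7 with rfl | rfl
    · exact ⟨v, hv, h⟩
    · exact absurd ha hv
  obtain ⟨c, hc, hec⟩ := h5 e (by rw [h4]; simp)
  obtain ⟨c', hc', hkc⟩ := h5 k (by rw [h4]; simp)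
  exact ⟨e, k, c, c', hek, hc, hc', hec, hkc⟩

/-- a minimal 2-edge-cut set with a bad edge inside -/
theorem alm_inside [Finite V] [Finite E] {A : Set V} (hcub : ∀ v, {g | v ∈ ends g}.ncard = 3)
    (hone : ∀ S, (Bd ends S).ncard ≠ 1) {g₁ g₂ : E}
    {a a' b b' : V} (ha : a ∈ A) (ha' : a' ∈ A) (hb : b ∉ A) (hb' : b' ∉ A)
    (h1 : ends g₁ = s(a, a')) (h2 : ends g₂ = s(b, b')) (haa : a ≠ a') (hbb : b ≠ b')
    (hgood : ∀ g, g ≠ g₁ → g ≠ g₂ → ∃ u ∈ A, ∃ v ∉ A, ends g = s(u, v)) {S : Set V}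
    (hS : (Bd ends S).ncard = 2) (haS : a ∈ S) (haS' : a' ∈ S)
    (hmin : ∀ R, R ⊆ S → (Bd ends R).ncard = 2 → R = S) :
    ∃ e, (∀ w ∈ ends e, w ∈ S) ∧ Removable ends e := by
  classical
  have := Fintype.ofFinite E
  obtain ⟨e, k, c, c', hek, hc, hc', he, hk⟩ := alm_adj hcub ha hb hb' h1 h2 hgood
  obtain ⟨p, q, d, d', hpq, hd, hd', hp, hq⟩ := alm_adj hcub ha' hb hb'
    (h1.trans Sym2.eq_swap) h2 hgood
  have hin : ∀ {g : E} {x y : V}, ends g = s(x, y) → x ∈ S → y ∈ S → ∀ w ∈ ends g, w ∈ S := by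
    intro g x y h hx hy w hw
    rw [h, Sym2.mem_iff] at hw
    rcases hw with rfl | rfl
    · exact hx
    · exact hy
  by_cases hcS : c ∈ S
  · exact ⟨e, hin he haS hcS, nb_removable hcub ha ha' hb hb' hc hc' h1 h2 he hk hek haa hbb hgood hone
      (bg_uncross hone hS hmin (hin he haS hcS))⟩
  by_cases hcS' : c' ∈ S
  · exact ⟨k, hin hk haS hcS', nb_removable hcub ha ha' hb hb' hc' hc h1 h2 hk he hek.symm haa hbb hgood hone
      (bg_uncross hone hS hmin (hin hk haS hcS'))⟩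
  by_cases hdS : d ∈ S
  · exact ⟨p, hin hp haS' hdS, nb_removable hcub ha' ha hb hb' hd hd' (h1.trans Sym2.eq_swap) h2 hp hq hpq haa.symm
      hbb hgood hone (bg_uncross hone hS hmin (hin hp haS' hdS))⟩
  exfalso
  have hep : e ≠ p := by
    rintro rfl
    rw [he, Sym2.eq_iff] at hp
    rcases hp with ⟨h3, -⟩ | ⟨h3, -⟩
    · exact haa h3
    · exact hd (h3 ▸ ha)
  have hkp : k ≠ p := by
    rintro rfl
    rw [hk, Sym2.eq_iff] at hp
    rcases hp with ⟨h3, -⟩ | ⟨h3, -⟩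
    · exact haa h3
    · exact hd (h3 ▸ ha)
  have h3 : ((({e, k, p} : Finset E) : Set E)) ⊆ Bd ends S := by
    intro g hg
    rw [mem_coe, mem_insert, mem_insert, mem_singleton] at hg
    rcases hg with rfl | rfl | rfl
    · exact (nb_bd he S).2 (by tauto)
    · exact (nb_bd hk S).2 (by tauto)
    · exact (nb_bd hp S).2 (by tauto)
  have h4 := Set.ncard_le_ncard h3 (Set.toFinite _)
  rw [Set.ncard_coe_finset, card_insert_of_notMem (by simp [hek, hep]), card_pair hkp, hS] at h4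
  omega

/-- the four edges next to a bad edge are not all at `z` -/
theorem alm_avoid [Finite E] (hcub : ∀ v, {g | v ∈ ends g}.ncard = 3) {e k p q : E}
    (h : e ≠ k ∧ e ≠ p ∧ e ≠ q ∧ k ≠ p ∧ k ≠ q ∧ p ≠ q) (z : V) :
    z ∉ ends e ∨ z ∉ ends k ∨ z ∉ ends p ∨ z ∉ ends q := by
  classical
  have := Fintype.ofFinite E
  by_contra hcon
  simp only [not_or, not_not] at hcon
  obtain ⟨h1, h2, h3, h4, h5, h6⟩ := h
  have h7 : ({e, k, p, q} : Finset E) ⊆ ({g | z ∈ ends g} : Finset E) := by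
    intro g hg
    rw [mem_insert, mem_insert, mem_insert, mem_singleton] at hg
    rw [mem_filter]
    refine ⟨mem_univ _, ?_⟩
    rcases hg with rfl | rfl | rfl | rfl
    · exact hcon.1
    · exact hcon.2.1
    · exact hcon.2.2.1
    · exact hcon.2.2.2
  have h8 := card_le_card h7
  rw [bg_card hcub, card_insert_of_notMem (by simp [h1, h2, h3]),
    card_insert_of_notMem (by simp [h4, h5]), card_pair h6] at h8
  omega

/-- a minimal 2-edge-cut set which does not contain `z` -/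
theorem alm_minimal [Finite V] [Finite E] (z : V) (P : Set V → Prop)
    (hP : ∀ R S, R ⊆ S → P S → P R) (hex : ∃ S, (Bd ends S).ncard = 2 ∧ z ∉ S ∧ P S) :
    ∃ S, (Bd ends S).ncard = 2 ∧ z ∉ S ∧ P S ∧
      ∀ R, R ⊆ S → (Bd ends R).ncard = 2 → R = S := by
  obtain ⟨S, ⟨hS, hz, hPS⟩, hm⟩ := exists_minimalFor_of_wellFoundedLT
    (fun S : Set V => (Bd ends S).ncard = 2 ∧ z ∉ S ∧ P S) (fun S : Set V => S.ncard) hex
  refine ⟨S, hS, hz, hPS, ?_⟩
  intro R hR hR2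
  have h3 := hm ⟨hR2, fun h => hz (hR h), hP R S hR hPS⟩ (Set.ncard_le_ncard hR (Set.toFinite _))
  exact Set.eq_of_subset_of_ncard_le hR h3 (Set.toFinite _)

/-- the case of two bad edges -/
theorem alm_two [Finite V] [Finite E] {A : Set V} (hloop : ∀ g, ¬ (ends g).IsDiag)
    (hcub : ∀ v, {g | v ∈ ends g}.ncard = 3) {c₀ : E → Fin 3} (hc₀ : IsCol ends c₀) {g₁ g₂ : E}
    {a a' b b' : V} (ha : a ∈ A) (ha' : a' ∈ A) (hb : b ∉ A) (hb' : b' ∉ A)
    (h1 : ends g₁ = s(a, a')) (h2 : ends g₂ = s(b, b')) (haa : a ≠ a') (hbb : b ≠ b')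
    (hgood : ∀ g, g ≠ g₁ → g ≠ g₂ → ∃ u ∈ A, ∃ v ∉ A, ends g = s(u, v)) (z : V) :
    ∃ e, z ∉ ends e ∧ Removable ends e := by
  classical
  have hone := bg_no_one hloop hcub hc₀
  have h1' := h1.trans Sym2.eq_swap
  have h2' := h2.trans Sym2.eq_swap
  by_cases hex : ∃ S, (Bd ends S).ncard = 2 ∧ z ∉ S
  swap
  · have hcut : ∀ g, ¬ InCut ends g := by
      rintro g ⟨S, -, hS⟩
      by_cases hz : z ∈ S
      · exact hex ⟨Sᶜ, by rw [nb_bd_compl, hS], fun h => h hz⟩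
      · exact hex ⟨S, hS, hz⟩
    obtain ⟨e, k, c, c', hek, hc, hc', he, hk⟩ := alm_adj hcub ha hb hb' h1 h2 hgood
    obtain ⟨p, q, d, d', hpq, hd, hd', hp, hq⟩ := alm_adj hcub ha' hb hb' h1' h2 hgood
    have hne : ∀ {g g' : E} {x y : V}, ends g = s(a, x) → ends g' = s(a', y) → y ∉ A →
        g ≠ g' := by
      rintro g g' x y hg hg' hy rfl
      rw [hg, Sym2.eq_iff] at hg'
      rcases hg' with ⟨h3, -⟩ | ⟨h3, -⟩
      · exact haa h3
      · exact hy (h3 ▸ ha)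
    rcases alm_avoid hcub ⟨hek, hne he hp hd, hne he hq hd', hne hk hp hd, hne hk hq hd', hpq⟩ z
      with hz | hz | hz | hz
    · exact ⟨e, hz, nb_removable hcub ha ha' hb hb' hc hc' h1 h2 he hk hek haa hbb hgood hone
        (hcut e)⟩
    · exact ⟨k, hz, nb_removable hcub ha ha' hb hb' hc' hc h1 h2 hk he hek.symm haa hbb hgood hone
        (hcut k)⟩
    · exact ⟨p, hz, nb_removable hcub ha' ha hb hb' hd hd' h1' h2 hp hq hpq haa.symm hbb hgood hone
        (hcut p)⟩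
    · exact ⟨q, hz, nb_removable hcub ha' ha hb hb' hd' hd h1' h2 hq hp hpq.symm haa.symm hbb hgood
        hone (hcut q)⟩
  have fin : ∀ S : Set V, z ∉ S → (∃ e, (∀ w ∈ ends e, w ∈ S) ∧ Removable ends e) →
      ∃ e, z ∉ ends e ∧ Removable ends e := by
    rintro S hz ⟨e, he, hr⟩
    exact ⟨e, fun h => hz (he z h), hr⟩
  by_cases hex' : ∃ S, (Bd ends S).ncard = 2 ∧ z ∉ S ∧ ¬ (a ∈ S ∧ a' ∈ S) ∧ ¬ (b ∈ S ∧ b' ∈ S)
  · obtain ⟨S, hS, hz, ⟨hSa, hSb⟩, hmin⟩ := alm_minimal z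
      (fun S => ¬ (a ∈ S ∧ a' ∈ S) ∧ ¬ (b ∈ S ∧ b' ∈ S))
      (fun R S hR h => ⟨fun h' => h.1 ⟨hR h'.1, hR h'.2⟩, fun h' => h.2 ⟨hR h'.1, hR h'.2⟩⟩) hex'
    apply fin S hz
    by_cases q1 : a' ∈ S <;> by_cases q2 : b ∈ S
    · exact leaf_removable hloop hcub hc₀ ha' ha hb' hb h1' h2' haa.symm hbb.symm hgood hS
        (fun h => hSa ⟨h, q1⟩) (fun h => hSb ⟨q2, h⟩) hmin
    · exact leaf_removable hloop hcub hc₀ ha' ha hb hb' h1' h2 haa.symm hbb hgood hS
        (fun h => hSa ⟨h, q1⟩) q2 hmin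
    · exact leaf_removable hloop hcub hc₀ ha ha' hb' hb h1 h2' haa hbb.symm hgood hS
        q1 (fun h => hSb ⟨q2, h⟩) hmin
    · exact leaf_removable hloop hcub hc₀ ha ha' hb hb' h1 h2 haa hbb hgood hS q1 q2 hmin
  · obtain ⟨S, hS, hz, -, hmin⟩ := alm_minimal z (fun _ => True) (fun _ _ _ _ => trivial)
      (by obtain ⟨S, hS, hz⟩ := hex; exact ⟨S, hS, hz, trivial⟩)
    apply fin S hz
    by_cases q1 : a ∈ S ∧ a' ∈ S
    · exact alm_inside hcub hone ha ha' hb hb' h1 h2 haa hbb hgood hS q1.1 q1.2 hmin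
    · by_cases q2 : b ∈ S ∧ b' ∈ S
      · refine alm_inside (A := Aᶜ) hcub hone (g₁ := g₂) (g₂ := g₁) (a := b) (a' := b') (b := a)
          (b' := a') hb hb' (fun h => h ha) (fun h => h ha') h2 h1 hbb haa ?_ hS q2.1 q2.2 hmin
        intro g h3 h4
        obtain ⟨u, hu, v, hv, h⟩ := hgood g h4 h3
        exact ⟨v, hv, u, fun h => h hu, h.trans Sym2.eq_swap⟩
      · exact absurd ⟨S, hS, hz, q1, q2⟩ hex'

/-- the case of no bad edge -/
theorem alm_zero [Finite V] [Finite E] {A : Set V} (hb : Bip ends A)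
    (hcub : ∀ v, {g | v ∈ ends g}.ncard = 3) (hV : 2 < Nat.card V) (z : V) :
    ∃ e, z ∉ ends e ∧ Removable ends e := by
  classical
  have := Fintype.ofFinite V
  have := Fintype.ofFinite E
  have hloop : ∀ g, ¬ (ends g).IsDiag := by
    intro g hg
    obtain ⟨u, hu, v, hv, h⟩ := hb g
    rw [h, Sym2.mk_isDiag_iff] at hg
    exact hv (hg ▸ hu)
  by_cases hex : ∃ S, (Bd ends S).ncard = 2 ∧ z ∉ S
  · obtain ⟨S, hS, hz, -, hmin⟩ := alm_minimal z (fun _ => True) (fun _ _ _ _ => trivial)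
      (by obtain ⟨S, hS, hz⟩ := hex; exact ⟨S, hS, hz, trivial⟩)
    obtain ⟨e, he⟩ := bg_inner hloop hcub hS
    exact ⟨e, fun h => hz (he z h), removable_of_not_inCut hb hcub
      (bg_uncross (bg_bip_one hb hcub) hS hmin he)⟩
  · have h1 := bg_count hloop (fun _ => True) (Set.univ : Set V)
    simp only [true_and, Set.mem_univ, implies_true, filter_true] at h1
    rw [sum_congr rfl fun w _ => bg_card hcub w, sum_const, smul_eq_mul, card_univ] at h1
    have h2 : #{g | g ∈ Bd ends (Set.univ : Set V)} = 0 := by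
      rw [card_eq_zero, filter_eq_empty_iff]
      rintro g - ⟨x, -, y, hy, -⟩
      exact hy (Set.mem_univ _)
    rw [Nat.card_eq_fintype_card] at hV
    have h3 : ∃ e, e ∉ ({g | z ∈ ends g} : Finset E) := by
      by_contra hcon
      push Not at hcon
      have h4 := card_le_card (fun e _ => hcon e : (univ : Finset E) ⊆ _)
      rw [bg_card hcub] at h4
      omega
    obtain ⟨e, he⟩ := h3
    refine ⟨e, by simpa using he, removable_of_not_inCut hb hcub ?_⟩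
    rintro ⟨S, -, hS⟩
    by_cases hz : z ∈ S
    · exact hex ⟨Sᶜ, by rw [nb_bd_compl, hS], fun h => h hz⟩
    · exact hex ⟨S, hS, hz⟩

/-- a 3-edge-coloured cubic graph with at most one edge inside each class has a removable edge which is not at `z` -/
theorem alm_main [Finite V] [Finite E] {A : Set V}
    (hloop : ∀ g, ¬ (ends g).IsDiag) (hcub : ∀ v, {g | v ∈ ends g}.ncard = 3)
    (hcol : ∃ c : E → Fin 3, IsCol ends c) (hX : {g | ∀ w ∈ ends g, w ∈ A}.ncard ≤ 1)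
    (hY : {g | ∀ w ∈ ends g, w ∈ Aᶜ}.ncard ≤ 1) (hV : 2 < Nat.card V) (z : V) :
    ∃ e, z ∉ ends e ∧ Removable ends e := by
  classical
  have := Fintype.ofFinite V
  have := Fintype.ofFinite E
  obtain ⟨c₀, hc₀⟩ := hcol
  have hgood : ∀ g, ¬ (∀ w ∈ ends g, w ∈ A) → ¬ (∀ w ∈ ends g, w ∈ Aᶜ) →
      ∃ u ∈ A, ∃ v ∉ A, ends g = s(u, v) := by
    intro g h1 h2
    obtain ⟨x, y, h⟩ := bg_repr ends g
    have h3 : ∀ w, w ∈ ends g ↔ w = x ∨ w = y := fun w => by rw [h, Sym2.mem_iff]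
    simp only [h3, forall_eq_or_imp, forall_eq, Set.mem_compl_iff] at h1 h2
    by_cases h4 : x ∈ A
    · exact ⟨x, h4, y, fun h5 => h1 ⟨h4, h5⟩, h⟩
    · exact ⟨y, by tauto, x, h4, h.trans Sym2.eq_swap⟩
  have k1 := bg_count hloop (fun _ => True) A
  have k2 := bg_count hloop (fun _ => True) Aᶜ
  simp only [true_and, nb_bd_compl] at k1 k2
  rw [sum_congr rfl fun w _ => bg_card hcub w, sum_const, smul_eq_mul] at k1 k2
  have hX' : #{g | ∀ w ∈ ends g, w ∈ A} ≤ 1 := by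
    rw [← Set.ncard_coe_finset]
    convert hX using 2
    ext g
    simp
  have hY' : #{g | ∀ w ∈ ends g, w ∈ Aᶜ} ≤ 1 := by
    rw [← Set.ncard_coe_finset]
    convert hY using 2
    ext g
    simp
  by_cases h0 : #{g | ∀ w ∈ ends g, w ∈ A} = 0
  · have h0' : #{g | ∀ w ∈ ends g, w ∈ Aᶜ} = 0 := by omega
    rw [card_eq_zero, filter_eq_empty_iff] at h0 h0'
    have hb : Bip ends A := fun g => hgood g (h0 (mem_univ g)) (h0' (mem_univ g))
    exact alm_zero hb hcub hV z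
  · have h1 : #{g | ∀ w ∈ ends g, w ∈ A} = 1 := by omega
    have h1' : #{g | ∀ w ∈ ends g, w ∈ Aᶜ} = 1 := by omega
    obtain ⟨g₁, hg₁⟩ := card_eq_one.1 h1
    obtain ⟨g₂, hg₂⟩ := card_eq_one.1 h1'
    have m1 : ∀ w ∈ ends g₁, w ∈ A := by
      have h2 : g₁ ∈ ({g | ∀ w ∈ ends g, w ∈ A} : Finset E) := by rw [hg₁]; simp
      exact (mem_filter.1 h2).2
    have m2 : ∀ w ∈ ends g₂, w ∈ Aᶜ := by
      have h2 : g₂ ∈ ({g | ∀ w ∈ ends g, w ∈ Aᶜ} : Finset E) := by rw [hg₂]; simp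
      exact (mem_filter.1 h2).2
    obtain ⟨a, a', haa'⟩ := bg_repr ends g₁
    obtain ⟨b, b', hbb'⟩ := bg_repr ends g₂
    have hne : ∀ {g : E} {x y : V}, ends g = s(x, y) → x ≠ y := by
      rintro g x y h rfl
      apply hloop g
      rw [h]
      exact Sym2.mk_isDiag_iff.2 rfl
    refine alm_two hloop hcub hc₀ (m1 a ?_) (m1 a' ?_) (m2 b ?_) (m2 b' ?_) haa' hbb'
      (hne haa') (hne hbb') ?_ z
    · rw [haa']; exact Sym2.mem_mk_left _ _
    · rw [haa']; exact Sym2.mem_mk_right _ _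
    · rw [hbb']; exact Sym2.mem_mk_left _ _
    · rw [hbb']; exact Sym2.mem_mk_right _ _
    · intro g h2 h3
      refine hgood g ?_ ?_
      · intro h4
        have h5 : g ∈ ({g | ∀ w ∈ ends g, w ∈ A} : Finset E) := mem_filter.2 ⟨mem_univ _, h4⟩
        rw [hg₁, mem_singleton] at h5
        exact h2 h5
      · intro h4
        have h5 : g ∈ ({g | ∀ w ∈ ends g, w ∈ Aᶜ} : Finset E) := mem_filter.2 ⟨mem_univ _, h4⟩
        rw [hg₂, mem_singleton] at h5
        exact h3 h5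

end alm

end Pool.Agent.H.MP_bcbcf8_co
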