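import Pool.Agent.H.MP_bcbcf8_co.BG.Kem

/-!
# Closing the side `S` of a 4-edge cut by two new vertices and five new edges
-/

set_option autoImplicit false

namespace Pool.Agent.H.MP_bcbcf8_co

open Finset

section clo

variable {V E : Type}

open Classical in
/-- the vertices of the closed graph -/
noncomputable def cm (S : Set V) (v : V) : {v // v ∈ S} ⊕ Bool :=
  if h : v ∈ S then .inl ⟨v, h⟩ else .inr false

/-- the closed graph: the edges inside `S` and five new edges -/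
noncomputable def clo (ends : E → Sym2 V) (S : Set V) (k : Fin 5 → Sym2 ({v // v ∈ S} ⊕ Bool)) :
    {g : E // ∀ w ∈ ends g, w ∈ S} ⊕ Fin 5 → Sym2 ({v // v ∈ S} ⊕ Bool) :=
  Sum.elim (fun g => (ends g.1).map (cm S)) k

/-- `f` enumerates the boundary edges, `x` their ends in `S` -/
structure Four (ends : E → Sym2 V) (S : Set V) (f : Fin 4 → E) (x : Fin 4 → V) : Prop where
  finj : Function.Injective f
  hB : ∀ g, g ∈ Bd ends S ↔ ∃ l, f l = g
  xS : ∀ l, x l ∈ S
  xf : ∀ l, x l ∈ ends (f l)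
  xinj : Function.Injective x

/-- `S` has no small subsets with a small boundary -/
structure Mini (ends : E → Sym2 V) (S : Set V) : Prop where
  m2 : ∀ R ⊆ S, 2 ≤ R.ncard → 4 ≤ (Bd ends R).ncard
  m3 : ∀ R ⊆ S, 3 ≤ R.ncard → R ≠ S → 5 ≤ (Bd ends R).ncard
  m6 : 6 ≤ S.ncard

variable {ends : E → Sym2 V} {S : Set V} {k : Fin 5 → Sym2 ({v // v ∈ S} ⊕ Bool)}
  {f : Fin 4 → E} {x : Fin 4 → V}

theorem clo_inl {g : {g : E // ∀ w ∈ ends g, w ∈ S}} {v : {v // v ∈ S}} :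
    Sum.inl v ∈ clo ends S k (.inl g) ↔ v.1 ∈ ends g.1 := by
  rw [clo, Sum.elim_inl, Sym2.mem_map]
  constructor
  · rintro ⟨a, ha, h⟩
    rw [cm, dif_pos (g.2 a ha), Sum.inl.injEq] at h
    rw [← h]
    exact ha
  · intro h
    refine ⟨v.1, h, ?_⟩
    rw [cm, dif_pos v.2]

theorem clo_inr {g : {g : E // ∀ w ∈ ends g, w ∈ S}} {b : Bool} :
    Sum.inr b ∉ clo ends S k (.inl g) := by
  rw [clo, Sum.elim_inl, Sym2.mem_map]
  rintro ⟨a, ha, h⟩
  rw [cm, dif_pos (g.2 a ha)] at h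
  simp at h

theorem clo_mk {g : {g : E // ∀ w ∈ ends g, w ∈ S}} {p q : {v // v ∈ S}}
    (h : ends g.1 = s(p.1, q.1)) : clo ends S k (.inl g) = s(.inl p, .inl q) := by
  rw [clo, Sum.elim_inl, h, Sym2.map_mk, cm, cm, dif_pos p.2, dif_pos q.2]

theorem clo_k {j : Fin 5} : clo ends S k (.inr j) = k j := rfl

theorem four_end (hF : Four ends S f x) {l : Fin 4} {w : V} (hw : w ∈ S) (hwf : w ∈ ends (f l)) :
    w = x l := by
  obtain ⟨p, hp, q, hq, h⟩ := (hF.hB (f l)).2 ⟨l, rfl⟩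
  have h1 := hF.xf l
  have h2 := hF.xS l
  rw [h, Sym2.mem_iff] at h1 hwf
  rcases h1 with h1 | h1
  · rcases hwf with h3 | h3
    · rw [h1, h3]
    · exact absurd (h3 ▸ hw) hq
  · exact absurd (h1 ▸ h2) hq

theorem edge_split (hF : Four ends S f x) {g : E} {w : V} (hw : w ∈ S) (hwg : w ∈ ends g) :
    (∀ v ∈ ends g, v ∈ S) ∨ ∃ l, f l = g := by
  by_cases h : ∀ v ∈ ends g, v ∈ S
  · exact .inl h
  · right
    rw [← hF.hB]
    push Not at h
    obtain ⟨v, hv, hvS⟩ := h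
    obtain ⟨p, q, hpq⟩ := bg_repr ends g
    rw [nb_bd hpq]
    rw [hpq, Sym2.mem_iff] at hv hwg
    rcases hv with rfl | rfl <;> rcases hwg with rfl | rfl <;> tauto

theorem f_not_inner (hF : Four ends S f x) (l : Fin 4) : ¬ ∀ w ∈ ends (f l), w ∈ S := by
  intro h
  obtain ⟨p, hp, q, hq, h'⟩ := (hF.hB (f l)).2 ⟨l, rfl⟩
  exact hq (h q (by rw [h']; exact Sym2.mem_mk_right _ _))

/-- the closed graph is cubic -/
theorem clo_cubic [Finite V] [Finite E] (hcub : ∀ v, {g | v ∈ ends g}.ncard = 3)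
    (hF : Four ends S f x) (κ : Fin 4 → Fin 5)
    (hκ : ∀ (v : {v // v ∈ S}) (j : Fin 5), Sum.inl v ∈ k j ↔ ∃ l, x l = v.1 ∧ κ l = j)
    (hk : ∀ b, {j | Sum.inr b ∈ k j}.ncard = 3) :
    ∀ v, {g | v ∈ clo ends S k g}.ncard = 3 := by
  classical
  rintro (v | b)
  · have h1 : {g | Sum.inl v ∈ clo ends S k g} =
        Sum.inl '' {g : {g : E // ∀ w ∈ ends g, w ∈ S} | v.1 ∈ ends g.1} ∪
        Sum.inr '' {j : Fin 5 | Sum.inl v ∈ k j} := by
      ext g
      rcases g with g | j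
      · simp [clo_inl]
      · simp [clo_k]
    have h2 : {g | v.1 ∈ ends g} =
        Subtype.val '' {g : {g : E // ∀ w ∈ ends g, w ∈ S} | v.1 ∈ ends g.1} ∪
        f '' {l | x l = v.1} := by
      ext g
      simp only [Set.mem_ofPred_eq, Set.mem_union, Set.mem_image]
      constructor
      · intro hg
        rcases edge_split hF v.2 hg with h3 | ⟨l, rfl⟩
        · exact .inl ⟨⟨g, h3⟩, hg, rfl⟩
        · exact .inr ⟨l, (four_end hF v.2 hg).symm, rfl⟩
      · rintro (⟨g', hg', rfl⟩ | ⟨l, hl, rfl⟩)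
        · exact hg'
        · rw [← hl]; exact hF.xf l
    have n1 : {g | Sum.inl v ∈ clo ends S k g}.ncard =
        {g : {g : E // ∀ w ∈ ends g, w ∈ S} | v.1 ∈ ends g.1}.ncard +
          {j : Fin 5 | Sum.inl v ∈ k j}.ncard := by
      rw [h1, Set.ncard_union_eq, Set.ncard_image_of_injective _ Sum.inl_injective,
        Set.ncard_image_of_injective _ Sum.inr_injective]
      rw [Set.disjoint_left]
      rintro g ⟨g', -, rfl⟩ ⟨l, -, hl⟩
      simp at hl
    have n2 : {g | v.1 ∈ ends g}.ncard =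
        {g : {g : E // ∀ w ∈ ends g, w ∈ S} | v.1 ∈ ends g.1}.ncard +
          {l | x l = v.1}.ncard := by
      rw [h2, Set.ncard_union_eq, Set.ncard_image_of_injective _ Subtype.val_injective,
        Set.ncard_image_of_injective _ hF.finj]
      rw [Set.disjoint_left]
      rintro g ⟨g', -, rfl⟩ ⟨l, -, hl⟩
      exact f_not_inner hF l (hl ▸ g'.2)
    have n3 : {j : Fin 5 | Sum.inl v ∈ k j}.ncard = {l | x l = v.1}.ncard := by
      have h3 : {j : Fin 5 | Sum.inl v ∈ k j} = κ '' {l | x l = v.1} := by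
        ext j
        rw [Set.mem_ofPred_eq, hκ]
        rfl
      rw [h3]
      apply Set.ncard_image_of_injOn
      intro l hl l' hl' _
      exact hF.xinj (hl.trans hl'.symm)
    rw [n1, n3, ← n2, hcub]
  · have h1 : {g | Sum.inr b ∈ clo ends S k g} = Sum.inr '' {j | Sum.inr b ∈ k j} := by
      ext g
      rcases g with g | j
      · simp [clo_inr]
      · simp [clo_k]
    rw [h1, Set.ncard_image_of_injective _ Sum.inr_injective, hk b]

/-- boundaries in the closed graph -/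
theorem clo_bd [Finite V] [Finite E] (hloop : ∀ g, ¬ (ends g).IsDiag)
    (hcub : ∀ v, {g | v ∈ ends g}.ncard = 3) (hF : Four ends S f x)
    (T' : Set ({v // v ∈ S} ⊕ Bool)) [∀ l, Decidable (Sum.inl ⟨x l, hF.xS l⟩ ∈ T')]
    [∀ j : Fin 5, Decidable (Sum.inr j ∈ Bd (clo ends S k) T')] :
    ∃ (i p q : ℕ) (T : Set V), T ⊆ S ∧ T.ncard = p ∧ (S \ T).ncard = q ∧ p + q = S.ncard ∧
      (Bd (clo ends S k) T').ncard = i + ∑ j : Fin 5, (if Sum.inr j ∈ Bd (clo ends S k) T' then 1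
        else 0) ∧
      (Bd ends T).ncard = i + ∑ l : Fin 4, (if Sum.inl ⟨x l, hF.xS l⟩ ∈ T' then 1 else 0) ∧
      (Bd ends (S \ T)).ncard =
        i + ∑ l : Fin 4, (if Sum.inl ⟨x l, hF.xS l⟩ ∈ T' then 0 else 1) ∧
      ∑ l : Fin 4, (if Sum.inl ⟨x l, hF.xS l⟩ ∈ T' then 1 else 0) ≤ p ∧
      ∑ l : Fin 4, (if Sum.inl ⟨x l, hF.xS l⟩ ∈ T' then 0 else 1) ≤ q ∧
      (p = 0 → i = 0) ∧ (q = 0 → i = 0) ∧ (p = 1 → (Bd ends T).ncard = 3) ∧
      (q = 1 → (Bd ends (S \ T)).ncard = 3) := by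
  classical
  have := Fintype.ofFinite V
  have := Fintype.ofFinite E
  obtain ⟨T, hT⟩ : ∃ T : Set V, T = {v | ∃ h : v ∈ S, Sum.inl ⟨v, h⟩ ∈ T'} := ⟨_, rfl⟩
  have hTS : T ⊆ S := by
    rw [hT]
    rintro v ⟨h, -⟩
    exact h
  have hTm : ∀ v (h : v ∈ S), v ∈ T ↔ Sum.inl ⟨v, h⟩ ∈ T' := by
    intro v h
    rw [hT]
    exact ⟨fun ⟨h', h1⟩ => h1, fun h1 => ⟨h, h1⟩⟩
  -- single vertices
  have hsing : ∀ R : Set V, R.ncard = 1 → (Bd ends R).ncard = 3 := by
    intro R hR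
    obtain ⟨v, rfl⟩ := Set.ncard_eq_one.1 hR
    rw [← hcub v]
    congr 1
    ext g
    obtain ⟨p, q, hpq⟩ := bg_repr ends g
    have hne : p ≠ q := by
      rintro rfl
      apply hloop g
      rw [hpq]
      exact Sym2.mk_isDiag_iff.2 rfl
    rw [nb_bd hpq, Set.mem_ofPred_eq, hpq, Sym2.mem_iff, Set.mem_singleton_iff,
      Set.mem_singleton_iff]
    by_cases h5 : p = v
    · subst h5
      have := hne.symm
      tauto
    · by_cases h6 : q = v
      · subst h6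
        tauto
      · have h7 : ¬ v = p := fun h => h5 h.symm
        have h8 : ¬ v = q := fun h => h6 h.symm
        tauto
  -- the inner boundary edges
  obtain ⟨cnt, hcnt⟩ : ∃ cnt : Set V → ℕ, ∀ R, cnt R = #{l | x l ∈ R} := ⟨_, fun _ => rfl⟩
  have hbd : ∀ R : Set V, R ⊆ S → (Bd ends R).ncard =
      {g : {g : E // ∀ w ∈ ends g, w ∈ S} | g.1 ∈ Bd ends R}.ncard + cnt R := by
    intro R hR
    rw [hcnt]
    have h1 : Bd ends R = Subtype.val '' {g : {g : E // ∀ w ∈ ends g, w ∈ S} | g.1 ∈ Bd ends R} ∪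
        f '' (({l | x l ∈ R} : Finset (Fin 4)) : Set (Fin 4)) := by
      ext g
      simp only [Set.mem_union, Set.mem_image, Set.mem_ofPred_eq, mem_coe, mem_filter, mem_univ,
        true_and]
      constructor
      · intro hg
        obtain ⟨p, hp, q, hq, h⟩ := id hg
        have hpg : p ∈ ends g := by rw [h]; exact Sym2.mem_mk_left _ _
        rcases edge_split hF (hR hp) hpg with h3 | ⟨l, rfl⟩
        · exact .inl ⟨⟨g, h3⟩, hg, rfl⟩
        · exact .inr ⟨l, by rw [← four_end hF (hR hp) hpg]; exact hp, rfl⟩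
      · rintro (⟨g', hg', rfl⟩ | ⟨l, hl, rfl⟩)
        · exact hg'
        · obtain ⟨p, hp, q, hq, h⟩ := (hF.hB (f l)).2 ⟨l, rfl⟩
          refine ⟨x l, hl, q, fun h' => hq (hR h'), ?_⟩
          have h2 : p = x l := four_end hF hp (by rw [h]; exact Sym2.mem_mk_left _ _)
          rw [← h2, h]
    conv_lhs => rw [h1]
    rw [Set.ncard_union_eq, Set.ncard_image_of_injective _ Subtype.val_injective,
      Set.ncard_image_of_injective _ hF.finj, Set.ncard_coe_finset]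
    rw [Set.disjoint_left]
    rintro g ⟨g', -, rfl⟩ ⟨l, -, hl⟩
    exact f_not_inner hF l (hl ▸ g'.2)
  have hcompl : {g : {g : E // ∀ w ∈ ends g, w ∈ S} | g.1 ∈ Bd ends (S \ T)} =
      {g : {g : E // ∀ w ∈ ends g, w ∈ S} | g.1 ∈ Bd ends T} := by
    ext g
    obtain ⟨p, q, hpq⟩ := bg_repr ends g.1
    have hp : p ∈ S := g.2 p (by rw [hpq]; exact Sym2.mem_mk_left _ _)
    have hq : q ∈ S := g.2 q (by rw [hpq]; exact Sym2.mem_mk_right _ _)
    rw [Set.mem_ofPred_eq, Set.mem_ofPred_eq, nb_bd hpq, nb_bd hpq, Set.mem_sdiff, Set.mem_sdiff]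
    tauto
  have c1 : ∑ l : Fin 4, (if Sum.inl ⟨x l, hF.xS l⟩ ∈ T' then 1 else 0) = cnt T := by
    rw [hcnt, ← card_filter]
    congr 1
    ext l
    simp only [mem_filter, mem_univ, true_and, hTm (x l) (hF.xS l)]
  have c2 : ∑ l : Fin 4, (if Sum.inl ⟨x l, hF.xS l⟩ ∈ T' then 0 else 1) = cnt (S \ T) := by
    rw [hcnt, card_filter]
    refine sum_congr rfl fun l _ => ?_
    have h1 := hTm (x l) (hF.xS l)
    have h2 := hF.xS l
    by_cases h3 : Sum.inl ⟨x l, hF.xS l⟩ ∈ T'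
    · rw [if_pos h3, if_neg fun h => h.2 (h1.2 h3)]
    · rw [if_neg h3, if_pos ⟨h2, fun h => h3 (h1.1 h)⟩]
  have c3 : ∀ R : Set V, cnt R ≤ R.ncard := by
    intro R
    rw [hcnt, ← Set.ncard_coe_finset, ← Set.ncard_image_of_injective _ hF.xinj]
    apply Set.ncard_le_ncard _ (Set.toFinite _)
    rintro v ⟨l, hl, rfl⟩
    simpa using hl
  have e1 := hbd T hTS
  have e2 := hbd (S \ T) Set.sdiff_subset
  rw [hcompl] at e2
  have hempty : ∀ R : Set V, R.ncard = 0 → (Bd ends R).ncard = 0 := by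
    intro R hR
    rw [Set.ncard_eq_zero (Set.toFinite _)] at hR ⊢
    rw [hR, Set.eq_empty_iff_forall_notMem]
    rintro g ⟨p, hp, -⟩
    exact hp
  refine ⟨{g : {g : E // ∀ w ∈ ends g, w ∈ S} | g.1 ∈ Bd ends T}.ncard, T.ncard, (S \ T).ncard, T,
    hTS, rfl, rfl, ?_, ?_, ?_, ?_, ?_, ?_, ?_, ?_, hsing T, hsing (S \ T)⟩
  · rw [add_comm]
    exact Set.ncard_sdiff_add_ncard_of_subset hTS (Set.toFinite _)
  · have h1 : Bd (clo ends S k) T' =
        Sum.inl '' {g : {g : E // ∀ w ∈ ends g, w ∈ S} | g.1 ∈ Bd ends T} ∪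
        Sum.inr '' (({j | Sum.inr j ∈ Bd (clo ends S k) T'} : Finset (Fin 5)) :
          Set (Fin 5)) := by
      ext g
      rcases g with g | j
      · simp only [Set.mem_union, Set.mem_image, Set.mem_ofPred_eq, mem_coe, mem_filter, mem_univ,
          true_and, Sum.inl.injEq, exists_eq_right, reduceCtorEq, and_false, exists_false, or_false]
        obtain ⟨p, q, hpq⟩ := bg_repr ends g.1
        have hp : p ∈ S := g.2 p (by rw [hpq]; exact Sym2.mem_mk_left _ _)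
        have hq : q ∈ S := g.2 q (by rw [hpq]; exact Sym2.mem_mk_right _ _)
        rw [nb_bd hpq, nb_bd (clo_mk (k := k) (p := ⟨p, hp⟩) (q := ⟨q, hq⟩) hpq), hTm p hp,
          hTm q hq]
      · simp
    rw [← card_filter]
    conv_lhs => rw [h1]
    rw [Set.ncard_union_eq, Set.ncard_image_of_injective _ Sum.inl_injective,
      Set.ncard_image_of_injective _ Sum.inr_injective, Set.ncard_coe_finset]
    rw [Set.disjoint_left]
    rintro g ⟨g', -, rfl⟩ ⟨l, -, hl⟩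
    simp at hl
  · rw [e1, c1]
  · rw [e2, c2]
  · rw [c1]
    exact c3 T
  · rw [c2]
    exact c3 (S \ T)
  · intro h
    have h1 := hempty T h
    omega
  · intro h
    have h1 := hempty (S \ T) h
    omega

end clo

end Pool.Agent.H.MP_bcbcf8_co
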