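import Pool.Agent.H.MP_bcbcf8_co.BG.Clo

/-!
# The six closings of a side of a 4-edge cut
-/

set_option autoImplicit false

namespace Pool.Agent.H.MP_bcbcf8_co

open Finset

section clp

variable {V E : Type} {ends : E → Sym2 V} {S : Set V} {f : Fin 4 → E} {x : Fin 4 → V}

/-- the closing which joins the boundary edges 0, 1 and the boundary edges 2, 3 -/
def kP (hF : Four ends S f x) : Fin 5 → Sym2 ({v // v ∈ S} ⊕ Bool) :=
  ![s(.inl ⟨x 0, hF.xS 0⟩, .inl ⟨x 1, hF.xS 1⟩), s(.inl ⟨x 2, hF.xS 2⟩, .inl ⟨x 3, hF.xS 3⟩),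
    s(.inr false, .inr true), s(.inr false, .inr true), s(.inr false, .inr true)]

/-- the closing where 0, 1 meet in one new vertex and 2, 3 in the other -/
def kH (hF : Four ends S f x) : Fin 5 → Sym2 ({v // v ∈ S} ⊕ Bool) :=
  ![s(.inl ⟨x 0, hF.xS 0⟩, .inr false), s(.inl ⟨x 1, hF.xS 1⟩, .inr false),
    s(.inl ⟨x 2, hF.xS 2⟩, .inr true), s(.inl ⟨x 3, hF.xS 3⟩, .inr true),
    s(.inr false, .inr true)]

def κP : Fin 4 → Fin 5 := ![0, 0, 1, 1]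

def κH : Fin 4 → Fin 5 := ![0, 1, 2, 3]

theorem kP_inl (hF : Four ends S f x) (v : {v // v ∈ S}) (j : Fin 5) :
    Sum.inl v ∈ kP hF j ↔ ∃ l, x l = v.1 ∧ κP l = j := by
  have h : ∀ l, (v = ⟨x l, hF.xS l⟩ ↔ x l = v.1) := fun l => by
    rw [Subtype.ext_iff]
    exact eq_comm
  fin_cases j <;>
    simp [kP, κP, Fin.exists_fin_succ, h]

theorem kH_inl (hF : Four ends S f x) (v : {v // v ∈ S}) (j : Fin 5) :
    Sum.inl v ∈ kH hF j ↔ ∃ l, x l = v.1 ∧ κH l = j := by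
  have h : ∀ l, (v = ⟨x l, hF.xS l⟩ ↔ x l = v.1) := fun l => by
    rw [Subtype.ext_iff]
    exact eq_comm
  fin_cases j <;>
    simp [kH, κH, Fin.exists_fin_succ, h]

theorem kP_inr (hF : Four ends S f x) (b : Bool) : {j | Sum.inr b ∈ kP hF j}.ncard = 3 := by
  have h : {j | Sum.inr b ∈ kP hF j} = (({2, 3, 4} : Finset (Fin 5)) : Set (Fin 5)) := by
    ext j
    fin_cases j <;> cases b <;> simp [kP]
  rw [h, Set.ncard_coe_finset]
  rfl

theorem kH_inr (hF : Four ends S f x) (b : Bool) : {j | Sum.inr b ∈ kH hF j}.ncard = 3 := by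
  cases b
  · have h : {j | Sum.inr false ∈ kH hF j} = (({0, 1, 4} : Finset (Fin 5)) : Set (Fin 5)) := by
      ext j
      fin_cases j <;> simp [kH]
    rw [h, Set.ncard_coe_finset]
    rfl
  · have h : {j | Sum.inr true ∈ kH hF j} = (({2, 3, 4} : Finset (Fin 5)) : Set (Fin 5)) := by
      ext j
      fin_cases j <;> simp [kH]
    rw [h, Set.ncard_coe_finset]
    rfl

theorem sdiff_ne {T : Set V} (hT : T ⊆ S) (h : 1 ≤ T.ncard) : S \ T ≠ S := by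
  intro h1
  obtain ⟨v, hv⟩ : T.Nonempty := Set.nonempty_of_ncard_ne_zero (by omega)
  have h2 : v ∈ S \ T := by
    rw [h1]
    exact hT hv
  exact h2.2 hv

/-- the closings have no cut with one or two edges -/
theorem kP_small [Finite V] [Finite E] (hloop : ∀ g, ¬ (ends g).IsDiag)
    (hcub : ∀ v, {g | v ∈ ends g}.ncard = 3) (hF : Four ends S f x) (hM : Mini ends S)
    (T' : Set ({v // v ∈ S} ⊕ Bool)) :
    (Bd (clo ends S (kP hF)) T').ncard ≠ 1 ∧ (Bd (clo ends S (kP hF)) T').ncard ≠ 2 := by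
  classical
  obtain ⟨i, p, q, T, hTS, hp, hq, hpq, h1, h2, h3, h4, h5, h6, h7, h8, h9⟩ :=
    clo_bd (k := kP hF) hloop hcub hF T'
  have a1 := hM.m2 T hTS
  have a2 := hM.m2 (S \ T) Set.sdiff_subset
  have a3 := hM.m3 T hTS
  have a4 := hM.m3 (S \ T) Set.sdiff_subset
  have a5 := hM.m6
  have a3' : 3 ≤ p → 1 ≤ q → 5 ≤ (Bd ends T).ncard := by
    intro h h'
    apply a3 (by omega)
    rintro rfl
    rw [Set.sdiff_self, Set.ncard_empty] at hq
    omega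
  have a4' : 3 ≤ q → 1 ≤ p → 5 ≤ (Bd ends (S \ T)).ncard := fun h h' =>
    a4 (by omega) (sdiff_ne hTS (by omega))
  rw [hp] at a1
  rw [hq] at a2
  have k0 : clo ends S (kP hF) (.inr 0) =
    s(.inl ⟨x 0, hF.xS 0⟩, .inl ⟨x 1, hF.xS 1⟩) := rfl
  have k1 : clo ends S (kP hF) (.inr 1) =
    s(.inl ⟨x 2, hF.xS 2⟩, .inl ⟨x 3, hF.xS 3⟩) := rfl
  have k2 : clo ends S (kP hF) (.inr 2) = s(.inr false, .inr true) := rfl
  have k3 : clo ends S (kP hF) (.inr 3) = s(.inr false, .inr true) := rfl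
  have k4 : clo ends S (kP hF) (.inr 4) = s(.inr false, .inr true) := rfl
  rw [Fin.sum_univ_five] at h1
  simp only [nb_bd k0, nb_bd k1, nb_bd k2, nb_bd k3, nb_bd k4] at h1
  rw [Fin.sum_univ_four] at h2 h3 h4 h5
  clear a3 a4 k0 k1 k2 k3 k4
  by_cases b0 : Sum.inl ⟨x 0, hF.xS 0⟩ ∈ T' <;> by_cases b1 : Sum.inl ⟨x 1, hF.xS 1⟩ ∈ T' <;>
    by_cases b2 : Sum.inl ⟨x 2, hF.xS 2⟩ ∈ T' <;> by_cases b3 : Sum.inl ⟨x 3, hF.xS 3⟩ ∈ T' <;>
    by_cases b4 : Sum.inr false ∈ T' <;> by_cases b5 : Sum.inr true ∈ T' <;>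
    simp only [b0, b1, b2, b3, b4, b5, iff_true, iff_false, not_true_eq_false, not_false_eq_true, if_true,
      if_false, iff_self, true_iff, false_iff] at h1 h2 h3 h4 h5 <;> omega

theorem kH_small [Finite V] [Finite E] (hloop : ∀ g, ¬ (ends g).IsDiag)
    (hcub : ∀ v, {g | v ∈ ends g}.ncard = 3) (hF : Four ends S f x) (hM : Mini ends S)
    (T' : Set ({v // v ∈ S} ⊕ Bool)) :
    (Bd (clo ends S (kH hF)) T').ncard ≠ 1 ∧ (Bd (clo ends S (kH hF)) T').ncard ≠ 2 := by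
  classical
  obtain ⟨i, p, q, T, hTS, hp, hq, hpq, h1, h2, h3, h4, h5, h6, h7, h8, h9⟩ :=
    clo_bd (k := kH hF) hloop hcub hF T'
  have a1 := hM.m2 T hTS
  have a2 := hM.m2 (S \ T) Set.sdiff_subset
  have a3 := hM.m3 T hTS
  have a4 := hM.m3 (S \ T) Set.sdiff_subset
  have a5 := hM.m6
  have a3' : 3 ≤ p → 1 ≤ q → 5 ≤ (Bd ends T).ncard := by
    intro h h'
    apply a3 (by omega)
    rintro rfl
    rw [Set.sdiff_self, Set.ncard_empty] at hq
    omega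
  have a4' : 3 ≤ q → 1 ≤ p → 5 ≤ (Bd ends (S \ T)).ncard := fun h h' =>
    a4 (by omega) (sdiff_ne hTS (by omega))
  rw [hp] at a1
  rw [hq] at a2
  have k0 : clo ends S (kH hF) (.inr 0) = s(.inl ⟨x 0, hF.xS 0⟩, .inr false) := rfl
  have k1 : clo ends S (kH hF) (.inr 1) = s(.inl ⟨x 1, hF.xS 1⟩, .inr false) := rfl
  have k2 : clo ends S (kH hF) (.inr 2) = s(.inl ⟨x 2, hF.xS 2⟩, .inr true) := rfl
  have k3 : clo ends S (kH hF) (.inr 3) = s(.inl ⟨x 3, hF.xS 3⟩, .inr true) := rfl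
  have k4 : clo ends S (kH hF) (.inr 4) = s(.inr false, .inr true) := rfl
  rw [Fin.sum_univ_five] at h1
  simp only [nb_bd k0, nb_bd k1, nb_bd k2, nb_bd k3, nb_bd k4] at h1
  rw [Fin.sum_univ_four] at h2 h3 h4 h5
  clear a3 a4 k0 k1 k2 k3 k4
  by_cases b0 : Sum.inl ⟨x 0, hF.xS 0⟩ ∈ T' <;> by_cases b1 : Sum.inl ⟨x 1, hF.xS 1⟩ ∈ T' <;>
    by_cases b2 : Sum.inl ⟨x 2, hF.xS 2⟩ ∈ T' <;> by_cases b3 : Sum.inl ⟨x 3, hF.xS 3⟩ ∈ T' <;>
    by_cases b4 : Sum.inr false ∈ T' <;> by_cases b5 : Sum.inr true ∈ T' <;>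
    simp only [b0, b1, b2, b3, b4, b5, iff_true, iff_false, not_true_eq_false, not_false_eq_true, if_true,
      if_false, iff_self, true_iff, false_iff] at h1 h2 h3 h4 h5 <;> omega

end clp

end Pool.Agent.H.MP_bcbcf8_co
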