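import Pool.Agent.H.MP_bcbcf8_co.BG.Def

/-!
# A removable edge is in no 2-edge cut

PROOF. `c` a colouring as in `Removable`, `S` with `Bd S = {e, f}`, `f ≠ e`, `a` the end of `e` in `S`. For a colour `j`
let `x j` be the number of the edges `≠ e` of colour `j` with both ends in `S`. At a vertex of `S` other than `a` there is
exactly one edge of each colour, at `a` two edges `≠ e` of the same colour `k`. Counting ends in `S`:
`2 x j + [c f = j] = |S| - 1` for `j ≠ k`, `2 x k + [c f = k] = |S| + 1`. So `[c f = j]` has the same parity for all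
three `j`, but it is `1` for one of them only. (Not only for bipartite graphs.)
-/

set_option autoImplicit false

namespace Pool.Agent.H.MP_bcbcf8_co

open Finset

variable {V E : Type} {ends : E → Sym2 V}

theorem not_inCut_of_removable [Finite V] [Finite E] (hloop : ∀ g, ¬ (ends g).IsDiag)
    (hcub : ∀ v, {g | v ∈ ends g}.ncard = 3) {e : E} (h : Removable ends e) : ¬ InCut ends e := by
  classical
  have := Fintype.ofFinite V
  have := Fintype.ofFinite E
  rintro ⟨S, he, h2⟩
  obtain ⟨c, hc1, hc2⟩ := h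
  obtain ⟨f, hfe, hBd⟩ : ∃ f, f ≠ e ∧ Bd ends S = {e, f} := by
    obtain ⟨p, q, hpq, hB⟩ := Set.ncard_eq_two.1 h2
    rw [hB] at he
    rcases he with he | he
    · exact ⟨q, he ▸ hpq.symm, he ▸ hB⟩
    · rw [Set.mem_singleton_iff] at he
      exact ⟨p, he ▸ hpq, by rw [hB, he, Set.pair_comm]⟩
  obtain ⟨x, hx, y, hy, hxy⟩ := he
  have hcub' : ∀ w, #{g | w ∈ ends g} = 3 := by
    intro w
    rw [← hcub w, ← Set.ncard_coe_finset]
    congr 1
    ext g
    simp
  have hex : ∀ g, ∃ u v, ends g = s(u, v) := fun g =>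
    Sym2.ind (f := fun z => ∃ u v, z = s(u, v)) (fun x y => ⟨x, y, rfl⟩) (ends g)
  choose u v huv using hex
  have hne : ∀ g, u g ≠ v g := by
    intro g h
    apply hloop g
    rw [huv g, h]
    exact Sym2.mk_isDiag_iff.2 rfl
  have hB : ∀ g, g ∈ Bd ends S ↔ ¬ (u g ∈ S ↔ v g ∈ S) := by
    intro g
    constructor
    · rintro ⟨p, hp, q, hq, h⟩
      rw [huv g, Sym2.eq_iff] at h
      rcases h with ⟨h1, h3⟩ | ⟨h1, h3⟩ <;> rw [h1, h3] <;> tauto
    · intro h
      by_cases h1 : u g ∈ S
      · exact ⟨u g, h1, v g, by tauto, huv g⟩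
      · exact ⟨v g, by tauto, u g, h1, by rw [huv g, Sym2.eq_swap]⟩
  -- counting the ends in `S` of the edges of colour `j`
  have hends : ∀ g, #{w | w ∈ S ∧ w ∈ ends g} =
      2 * (if u g ∈ S ∧ v g ∈ S then 1 else 0) + (if g ∈ Bd ends S then 1 else 0) := by
    intro g
    have h1 : ∀ w, w ∈ ends g ↔ w = u g ∨ w = v g := fun w => by rw [huv g, Sym2.mem_iff]
    by_cases h3 : u g ∈ S <;> by_cases h4 : v g ∈ S
    · have h5 : ({w | w ∈ S ∧ w ∈ ends g} : Finset V) = {u g, v g} := by
        ext w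
        rw [mem_filter, mem_insert, mem_singleton, h1]
        constructor
        · exact fun h => h.2.2
        · rintro (rfl | rfl)
          · exact ⟨mem_univ _, h3, .inl rfl⟩
          · exact ⟨mem_univ _, h4, .inr rfl⟩
      rw [h5, card_pair (hne g), if_pos ⟨h3, h4⟩, if_neg]
      rw [hB]
      tauto
    · have h5 : ({w | w ∈ S ∧ w ∈ ends g} : Finset V) = {u g} := by
        ext w
        rw [mem_filter, mem_singleton, h1]
        constructor
        · rintro ⟨-, h6, h7 | h7⟩
          · exact h7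
          · exact absurd (h7 ▸ h6) h4
        · rintro rfl
          exact ⟨mem_univ _, h3, .inl rfl⟩
      rw [h5, card_singleton, if_neg (fun h => h4 h.2), if_pos]
      rw [hB]
      tauto
    · have h5 : ({w | w ∈ S ∧ w ∈ ends g} : Finset V) = {v g} := by
        ext w
        rw [mem_filter, mem_singleton, h1]
        constructor
        · rintro ⟨-, h6, h7 | h7⟩
          · exact absurd (h7 ▸ h6) h3
          · exact h7
        · rintro rfl
          exact ⟨mem_univ _, h4, .inr rfl⟩
      rw [h5, card_singleton, if_neg (fun h => h3 h.1), if_pos]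
      rw [hB]
      tauto
    · have h5 : ({w | w ∈ S ∧ w ∈ ends g} : Finset V) = ∅ := by
        rw [filter_eq_empty_iff]
        rintro w - ⟨h6, h7⟩
        rcases (h1 w).1 h7 with h8 | h8
        · exact h3 (h8 ▸ h6)
        · exact h4 (h8 ▸ h6)
      rw [h5, card_empty, if_neg (fun h => h3 h.1), if_neg]
      rw [hB]
      tauto
  have key : ∀ j, ∑ w with w ∈ S, #{g | (g ≠ e ∧ c g = j) ∧ w ∈ ends g} =
      2 * #{g | (g ≠ e ∧ c g = j) ∧ u g ∈ S ∧ v g ∈ S} + (if c f = j then 1 else 0) := by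
    intro j
    have h1 : ∑ w with w ∈ S, #{g | (g ≠ e ∧ c g = j) ∧ w ∈ ends g} =
        ∑ g with g ≠ e ∧ c g = j, #{w | w ∈ S ∧ w ∈ ends g} := by
      have h3 := sum_card_bipartiteAbove_eq_sum_card_bipartiteBelow (s := {w | w ∈ S})
        (t := {g | g ≠ e ∧ c g = j}) (fun w g => w ∈ ends g)
      simp only [bipartiteAbove, bipartiteBelow, filter_filter] at h3
      exact h3
    rw [h1, sum_congr rfl fun g _ => hends g, sum_add_distrib, ← mul_sum, ← card_filter,
      ← card_filter, filter_filter, filter_filter]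
    congr 1
    split_ifs with h3
    · rw [card_eq_one]
      refine ⟨f, ?_⟩
      ext g
      rw [mem_filter, mem_singleton, hBd]
      constructor
      · rintro ⟨-, ⟨h4, -⟩, h5 | h5⟩
        · exact absurd h5 h4
        · exact h5
      · rintro rfl
        exact ⟨mem_univ _, ⟨hfe, h3⟩, .inr rfl⟩
    · rw [card_eq_zero, filter_eq_empty_iff]
      rintro g - ⟨⟨h4, h5⟩, h6⟩
      rw [hBd] at h6
      rcases h6 with h6 | h6
      · exact h4 h6
      · exact h3 (h6 ▸ h5)
  -- the vertices other than `x`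
  have hw : ∀ j w, w ∈ S → w ≠ x → #{g | (g ≠ e ∧ c g = j) ∧ w ∈ ends g} = 1 := by
    intro j w hwS hwx
    have h1 : w ∉ ends e := by
      rw [hxy, Sym2.mem_iff]
      rintro (h3 | h3)
      · exact hwx h3
      · exact hy (h3 ▸ hwS)
    have hinj : Set.InjOn c (({g | w ∈ ends g} : Finset E) : Set E) := by
      intro g hg g' hg' h3
      by_contra h4
      exact hc1 w g g' h1 (by simpa using hg) (by simpa using hg') h4 h3
    have h5 : ({g | w ∈ ends g} : Finset E).image c = univ := by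
      rw [← card_eq_iff_eq_univ, card_image_of_injOn hinj, hcub' w, Fintype.card_fin]
    obtain ⟨g, hg, hgj⟩ := mem_image.1 (h5 ▸ mem_univ j)
    rw [card_eq_one]
    refine ⟨g, ?_⟩
    ext g'
    rw [mem_filter, mem_singleton]
    constructor
    · rintro ⟨-, ⟨-, h6⟩, h7⟩
      exact hinj (by simpa using h7) hg (h6.trans hgj.symm)
    · rintro rfl
      refine ⟨mem_univ _, ⟨?_, hgj⟩, (mem_filter.1 hg).2⟩
      rintro rfl
      exact h1 (mem_filter.1 hg).2
  have hxe : x ∈ ends e := by rw [hxy]; exact Sym2.mem_mk_left _ _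
  have hx' : ∀ j, #{g | (g ≠ e ∧ c g = j) ∧ x ∈ ends g} = 0 ∨
      #{g | (g ≠ e ∧ c g = j) ∧ x ∈ ends g} = 2 := by
    intro j
    by_cases h1 : ∃ g, g ≠ e ∧ c g = j ∧ x ∈ ends g
    · right
      obtain ⟨g, hge, hgj, hxg⟩ := h1
      have h3 : ({g | (g ≠ e ∧ c g = j) ∧ x ∈ ends g} : Finset E) =
          ({g | x ∈ ends g} : Finset E).erase e := by
        ext g'
        rw [mem_filter, mem_erase, mem_filter]
        constructor
        · rintro ⟨h4, ⟨h5, -⟩, h6⟩
          exact ⟨h5, h4, h6⟩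
        · rintro ⟨h4, h5, h6⟩
          exact ⟨h5, ⟨h4, (hc2 x g' g hxe h6 hxg h4 hge).trans hgj⟩, h6⟩
      rw [h3, card_erase_of_mem (by simpa using hxe), hcub']
    · left
      rw [card_eq_zero, filter_eq_empty_iff]
      rintro g - ⟨⟨h3, h4⟩, h5⟩
      exact h1 ⟨g, h3, h4, h5⟩
  have tot : ∀ j, ∑ w with w ∈ S, #{g | (g ≠ e ∧ c g = j) ∧ w ∈ ends g} + 1 =
      #{w | w ∈ S} + #{g | (g ≠ e ∧ c g = j) ∧ x ∈ ends g} := by
    intro j
    have hxS : x ∈ ({w | w ∈ S} : Finset V) := by simpa using hx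
    rw [← add_sum_erase _ _ hxS, sum_congr rfl (g := fun _ => 1), sum_const, smul_eq_mul, mul_one,
      card_erase_of_mem hxS]
    · have := card_pos.2 ⟨x, hxS⟩
      omega
    · intro w hw1
      rw [mem_erase, mem_filter] at hw1
      exact hw j w hw1.2.2 hw1.1
  obtain ⟨j, hj⟩ : ∃ j, j ≠ c f := exists_ne _
  have k1 := key (c f)
  have k2 := key j
  have t1 := tot (c f)
  have t2 := tot j
  rw [if_pos rfl] at k1
  rw [if_neg hj.symm] at k2
  rcases hx' (c f) with h3 | h3 <;> rcases hx' j with h4 | h4 <;> omega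

end Pool.Agent.H.MP_bcbcf8_co
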