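import Mathlib

/-!
# Bipartite cubic graphs: the combinatorial core

The edges are the elements of `E`, the edge `g` joins `l g` in the first class to `r g` in the second class.
-/

set_option autoImplicit false

namespace Pool.Agent.H.MP_bcbcf8_co.BG

open Finset Function

variable {X Y E : Type} [Fintype X] [Fintype Y] [Fintype E] [DecidableEq X] [DecidableEq Y]
  [DecidableEq E]

/-- the boundary of the set of vertices `P ∪ Q` -/
def bd (l : E → X) (r : E → Y) (P : Finset X) (Q : Finset Y) : Finset E :=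
  univ.filter fun g => ¬ (l g ∈ P ↔ r g ∈ Q)

/-- `e` is in no 2-edge cut -/
def NC (l : E → X) (r : E → Y) (e : E) : Prop :=
  ∀ (P : Finset X) (Q : Finset Y), e ∈ bd l r P Q → (bd l r P Q).card ≠ 2

theorem NC.symm {l : E → X} {r : E → Y} {e : E} (h : NC l r e) : NC r l e := by
  intro Q P he
  have h1 : bd r l Q P = bd l r P Q := by
    ext g
    simp only [bd, mem_filter, mem_univ, true_and]
    tauto
  rw [h1] at he ⊢
  exact h P Q he

theorem card_fib {Z : Type} [DecidableEq Z] {k : E → Z} {n : ℕ}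
    {p : E → Prop} [DecidablePred p] {P : Finset Z}
    (h : ∀ z ∈ P, (univ.filter fun g => p g ∧ k g = z).card = n) :
    (univ.filter fun g => p g ∧ k g ∈ P).card = n * P.card := by
  rw [card_eq_sum_card_fiberwise (f := k) (t := P) (fun g hg => (mem_filter.1 hg).2.2)]
  rw [sum_congr rfl (g := fun _ => n), sum_const, smul_eq_mul, mul_comm]
  intro z hz
  rw [← h z hz]
  congr 1
  ext g
  simp only [mem_filter, mem_univ, true_and]
  constructor
  · rintro ⟨⟨h1, -⟩, h2⟩
    exact ⟨h1, h2⟩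
  · rintro ⟨h1, h2⟩
    exact ⟨⟨h1, h2 ▸ hz⟩, h2⟩

theorem card_fib' {Z : Type} [DecidableEq Z] {k : E → Z} {n : ℕ} {P : Finset Z}
    (h : ∀ z, (univ.filter fun g => k g = z).card = n) :
    (univ.filter fun g => k g ∈ P).card = n * P.card := by
  have h1 := card_fib (k := k) (n := n) (p := fun _ => True) (P := P) (fun z _ => by
    simpa using h z)
  simpa using h1

theorem bd_card {l : E → X} {r : E → Y} (hl : ∀ x, (univ.filter fun g => l g = x).card = 3)
    (hr : ∀ y, (univ.filter fun g => r g = y).card = 3) (P : Finset X) (Q : Finset Y) :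
    (bd l r P Q).card + 2 * (univ.filter fun g => l g ∈ P ∧ r g ∈ Q).card =
      3 * P.card + 3 * Q.card := by
  rw [← card_fib' hl, ← card_fib' hr]
  simp only [bd, card_filter, mul_sum, ← sum_add_distrib]
  refine sum_congr rfl fun g _ => ?_
  by_cases h1 : l g ∈ P <;> by_cases h2 : r g ∈ Q <;> simp [h1, h2]

/-- two parallel edges at `r e`, not at `l e`, would give a 2-edge cut -/
theorem simple {l : E → X} {r : E → Y} (hl : ∀ x, (univ.filter fun g => l g = x).card = 3)
    (hr : ∀ y, (univ.filter fun g => r g = y).card = 3) {e : E} (hc : NC l r e) {g g' : E}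
    (h1 : r g = r e) (h2 : r g' = r e) (h3 : l g' = l g) (h4 : l g ≠ l e) : g = g' := by
  by_contra hne
  have hb := bd_card hl hr {l g} {r e}
  have he : e ∈ bd l r {l g} {r e} := by
    simp only [bd, mem_filter, mem_univ, true_and, mem_singleton]
    intro h
    exact h4 (h.2 trivial).symm
  have h5 := hc _ _ he
  have h6 : 1 ≤ (bd l r {l g} {r e}).card := card_pos.2 ⟨e, he⟩
  have h7 : 2 ≤ (univ.filter fun f => l f ∈ ({l g} : Finset X) ∧ r f ∈ ({r e} : Finset Y)).card := by
    rw [← card_pair hne]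
    refine card_le_card ?_
    intro f hf
    rw [mem_insert, mem_singleton] at hf
    simp only [mem_filter, mem_univ, true_and, mem_singleton]
    rcases hf with rfl | rfl
    · exact ⟨rfl, h1⟩
    · exact ⟨h3, h2⟩
  rw [card_singleton, card_singleton] at hb
  omega

/-- Hall's condition -/
theorem hallA {l : E → X} {r : E → Y} (hl : ∀ x, (univ.filter fun g => l g = x).card = 3)
    (hr : ∀ y, (univ.filter fun g => r g = y).card = 3) {e : E} (hc : NC l r e) :
    ∃ φ : {x : X // ∀ g, r g = r e → l g ≠ x} → E, (∀ x, l (φ x) = x) ∧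
      (∀ x, ∀ g, l g = l e → r g ≠ r (φ x)) ∧ Injective (fun x => r (φ x)) := by
  classical
  let t : {x : X // ∀ g, r g = r e → l g ≠ x} → Finset Y := fun x =>
    ((univ.filter fun g => l g = x.1).image r).filter fun y => ∀ g, l g = l e → r g ≠ y
  have hall : ∀ s : Finset {x : X // ∀ g, r g = r e → l g ≠ x}, s.card ≤ (s.biUnion t).card := by
    intro s
    by_contra hlt
    obtain ⟨P, hP⟩ : ∃ P : Finset X, P = s.image Subtype.val := ⟨_, rfl⟩
    have hPc : P.card = s.card := by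
      rw [hP, card_image_of_injective _ Subtype.val_injective]
    have hPs : ∀ x ∈ P, ∃ x' ∈ s, x'.1 = x := by
      intro x hx
      rw [hP, mem_image] at hx
      exact hx
    obtain ⟨N, hN⟩ : ∃ N : Finset Y, N = (univ.filter fun g => l g ∈ P).image r := ⟨_, rfl⟩
    have hNm : ∀ g, l g ∈ P → r g ∈ N := by
      intro g hg
      rw [hN]
      exact mem_image_of_mem r (mem_filter.2 ⟨mem_univ _, hg⟩)
    have hNe : ∀ y ∈ N, ∃ g, l g ∈ P ∧ r g = y := by
      intro y hy
      rw [hN, mem_image] at hy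
      obtain ⟨g, hg, h⟩ := hy
      exact ⟨g, (mem_filter.1 hg).2, h⟩
    have hre : r e ∉ N := by
      intro h
      obtain ⟨g, hg, h1⟩ := hNe _ h
      obtain ⟨x', -, hx⟩ := hPs _ hg
      exact x'.2 g h1 hx.symm
    have hle : l e ∉ P := by
      intro h
      obtain ⟨x', -, hx⟩ := hPs _ h
      exact x'.2 e rfl hx.symm
    -- the edges from `l e` to `N`
    obtain ⟨T, hT⟩ : ∃ T : Finset E, T = univ.filter fun g => l g = l e ∧ r g ∈ N := ⟨_, rfl⟩
    have hTm : ∀ g, g ∈ T ↔ l g = l e ∧ r g ∈ N := by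
      intro g
      rw [hT, mem_filter]
      simp
    have c1 : T.card ≤ 2 := by
      have h1 : T ⊆ (univ.filter fun g => l g = l e).erase e := by
        intro g hg
        rw [hTm] at hg
        refine mem_erase.2 ⟨?_, mem_filter.2 ⟨mem_univ _, hg.1⟩⟩
        rintro rfl
        exact hre hg.2
      have h2 := card_le_card h1
      have h3 : e ∈ univ.filter fun g => l g = l e := mem_filter.2 ⟨mem_univ _, rfl⟩
      rw [card_erase_of_mem h3, hl] at h2
      exact h2
    obtain ⟨U, hU⟩ : ∃ U : Finset E, U = univ.filter fun g => l g ∈ P := ⟨_, rfl⟩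
    have hUc : U.card = 3 * P.card := by
      rw [hU]
      exact card_fib' hl
    have hUm : ∀ g, g ∈ U ↔ l g ∈ P := by
      intro g
      rw [hU, mem_filter]
      simp
    have hd : Disjoint U T := by
      rw [disjoint_left]
      intro g h1 h2
      rw [hUm] at h1
      rw [hTm] at h2
      exact hle (h2.1 ▸ h1)
    have c2 : 3 * P.card + T.card ≤ 3 * N.card := by
      rw [← hUc, ← card_union_of_disjoint hd, ← card_fib' hr]
      refine card_le_card ?_
      intro g hg
      rw [mem_union, hUm, hTm] at hg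
      refine mem_filter.2 ⟨mem_univ _, ?_⟩
      rcases hg with h | h
      · exact hNm g h
      · exact h.2
    have c3 : N.card ≤ (s.biUnion t).card + T.card := by
      have h1 : N ⊆ (s.biUnion t) ∪ T.image r := by
        intro y hy
        obtain ⟨g, hg, h1⟩ := hNe y hy
        by_cases h2 : ∀ g, l g = l e → r g ≠ y
        · obtain ⟨x', hx', hx⟩ := hPs _ hg
          refine mem_union_left _ (mem_biUnion.2 ⟨x', hx', mem_filter.2 ⟨?_, h2⟩⟩)
          exact mem_image.2 ⟨g, mem_filter.2 ⟨mem_univ _, hx.symm⟩, h1⟩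
        · push Not at h2
          obtain ⟨g', h3, h4⟩ := h2
          refine mem_union_right _ (mem_image.2 ⟨g', (hTm g').2 ⟨h3, ?_⟩, h4⟩)
          rw [h4]
          exact hy
      exact (card_le_card h1).trans ((card_union_le _ _).trans
        (Nat.add_le_add_left card_image_le _))
    have c4 := bd_card hl hr (insert (l e) P) N
    have c5 : (univ.filter fun g => l g ∈ insert (l e) P ∧ r g ∈ N).card = 3 * P.card + T.card := by
      rw [← hUc, ← card_union_of_disjoint hd]
      congr 1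
      ext g
      rw [mem_union, hUm, hTm, mem_filter, mem_insert]
      constructor
      · rintro ⟨-, h1 | h1, h2⟩
        · exact Or.inr ⟨h1, h2⟩
        · exact Or.inl h1
      · rintro (h1 | h1)
        · exact ⟨mem_univ _, Or.inr h1, hNm g h1⟩
        · exact ⟨mem_univ _, Or.inl h1.1, h1.2⟩
    rw [c5, card_insert_of_notMem hle] at c4
    refine hc (insert (l e) P) N ?_ ?_
    · simp only [bd, mem_filter, mem_univ, true_and]
      intro h
      exact hre (h.1 (mem_insert_self _ _))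
    · have c6 : T.card = 0 ∨ T.card = 1 ∨ T.card = 2 := by omega
      rcases c6 with c6 | c6 | c6 <;> omega
  obtain ⟨f, hf, hft⟩ := (Finset.all_card_le_biUnion_card_iff_exists_injective t).1 hall
  have h1 : ∀ x, ∃ g, l g = x.1 ∧ r g = f x := by
    intro x
    obtain ⟨h1, -⟩ := mem_filter.1 (hft x)
    obtain ⟨g, hg, h2⟩ := mem_image.1 h1
    exact ⟨g, (mem_filter.1 hg).2, h2⟩
  choose φ hφ hφr using h1
  refine ⟨φ, hφ, fun x g hg => ?_, fun x x' h => hf ?_⟩
  · rw [hφr]
    exact (mem_filter.1 (hft x)).2 g hg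
  · rw [← hφr, ← hφr]
    exact h

/-- the first colour class -/
theorem exM {l : E → X} {r : E → Y} (hl : ∀ x, (univ.filter fun g => l g = x).card = 3)
    (hr : ∀ y, (univ.filter fun g => r g = y).card = 3) {e : E} (hc : NC l r e) :
    ∃ M : Finset E, e ∉ M ∧ (∀ g, g ≠ e → (l g = l e ∨ r g = r e) → g ∈ M) ∧
      (∀ x, x ≠ l e → ∃! g, g ∈ M ∧ l g = x) ∧ (∀ y, y ≠ r e → ∃! g, g ∈ M ∧ r g = y) := by
  classical
  obtain ⟨φ, hφ1, hφ2, hφ3⟩ := hallA hl hr hc
  obtain ⟨ψ, hψ1, hψ2, hψ3⟩ := hallA hr hl hc.symm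
  have c1 : Fintype.card {x : X // ∀ g, r g = r e → l g ≠ x} ≤
      Fintype.card {y : Y // ∀ g, l g = l e → r g ≠ y} :=
    Fintype.card_le_of_injective (fun x => ⟨r (φ x), hφ2 x⟩) fun x x' h =>
      hφ3 (congrArg Subtype.val h)
  have c2 : Fintype.card {y : Y // ∀ g, l g = l e → r g ≠ y} ≤
      Fintype.card {x : X // ∀ g, r g = r e → l g ≠ x} :=
    Fintype.card_le_of_injective (fun y => ⟨l (ψ y), hψ2 y⟩) fun y y' h =>
      hψ3 (congrArg Subtype.val h)
  have hbij : Bijective (fun x : {x : X // ∀ g, r g = r e → l g ≠ x} =>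
      (⟨r (φ x), hφ2 x⟩ : {y : Y // ∀ g, l g = l e → r g ≠ y})) :=
    (Fintype.bijective_iff_injective_and_card _).2
      ⟨fun x x' h => hφ3 (congrArg Subtype.val h), le_antisymm c1 c2⟩
  obtain ⟨M, hM⟩ : ∃ M : Finset E, ∀ g, g ∈ M ↔
      (g ≠ e ∧ (l g = l e ∨ r g = r e)) ∨ ∃ x, φ x = g :=
    ⟨univ.filter fun g => (g ≠ e ∧ (l g = l e ∨ r g = r e)) ∨ ∃ x, φ x = g, fun g => by simp⟩
  have hφl : ∀ x, l (φ x) ≠ l e := by
    intro x h
    exact x.2 e rfl (by rw [← h, hφ1])
  have hφr : ∀ x, r (φ x) ≠ r e := fun x h => hφ2 x e rfl h.symm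
  refine ⟨M, ?_, ?_, ?_, ?_⟩
  · intro h
    rcases (hM e).1 h with h1 | ⟨x, hx⟩
    · exact h1.1 rfl
    · exact hφl x (by rw [hx])
  · intro g h1 h2
    exact (hM g).2 (Or.inl ⟨h1, h2⟩)
  · intro x hx
    by_cases h1 : ∀ g, r g = r e → l g ≠ x
    · refine ⟨φ ⟨x, h1⟩, ⟨(hM _).2 (Or.inr ⟨_, rfl⟩), hφ1 _⟩, ?_⟩
      rintro g ⟨h2, h3⟩
      rcases (hM g).1 h2 with ⟨-, h4 | h4⟩ | ⟨x', rfl⟩
      · exact absurd (h3.symm.trans h4) hx
      · exact absurd h3 (h1 g h4)
      · have h5 : x' = ⟨x, h1⟩ := Subtype.ext (by rw [← hφ1 x', h3])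
        rw [h5]
    · push Not at h1
      obtain ⟨g, h2, h3⟩ := h1
      have h4 : g ≠ e := fun h => hx (by rw [← h3, h])
      refine ⟨g, ⟨(hM g).2 (Or.inl ⟨h4, Or.inr h2⟩), h3⟩, ?_⟩
      rintro g' ⟨h5, h6⟩
      rcases (hM g').1 h5 with ⟨-, h7 | h7⟩ | ⟨x', rfl⟩
      · exact absurd (h6.symm.trans h7) hx
      · exact (simple hl hr hc h2 h7 (h6.trans h3.symm) (h3 ▸ hx)).symm
      · refine absurd ?_ (x'.2 g h2)
        rw [h3, ← h6, hφ1]
  · intro y hy
    by_cases h1 : ∀ g, l g = l e → r g ≠ y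
    · obtain ⟨x, hx⟩ := hbij.2 ⟨y, h1⟩
      have hx' : r (φ x) = y := congrArg Subtype.val hx
      refine ⟨φ x, ⟨(hM _).2 (Or.inr ⟨_, rfl⟩), hx'⟩, ?_⟩
      rintro g ⟨h2, h3⟩
      rcases (hM g).1 h2 with ⟨-, h4 | h4⟩ | ⟨x', rfl⟩
      · exact absurd h3 (h1 g h4)
      · exact absurd (h3.symm.trans h4) hy
      · have h5 : x' = x := hφ3 (h3.trans hx'.symm)
        rw [h5]
    · push Not at h1
      obtain ⟨g, h2, h3⟩ := h1
      have h4 : g ≠ e := fun h => hy (by rw [← h3, h])
      refine ⟨g, ⟨(hM g).2 (Or.inl ⟨h4, Or.inl h2⟩), h3⟩, ?_⟩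
      rintro g' ⟨h5, h6⟩
      rcases (hM g').1 h5 with ⟨-, h7 | h7⟩ | ⟨x', rfl⟩
      · exact (simple hr hl hc.symm h2 h7 (h6.trans h3.symm) (h3 ▸ hy)).symm
      · exact absurd (h6.symm.trans h7) hy
      · exact absurd (h3.trans h6.symm) (hφ2 x' g h2)

end Pool.Agent.H.MP_bcbcf8_co.BG
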