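import Mathlib
import Pool.Agent.H.MP_bcbcf8_co.Defs

/-!
# Bipartite graphs: the boundary of a set of vertices, 2-edge cuts
-/

set_option autoImplicit false

namespace Pool.Agent.H.MP_bcbcf8_co

variable {V E : Type} (ends : E → Sym2 V)

/-- the boundary of the set `S` of vertices: the edges with one end in `S` and one end outside `S` -/
def Bd (S : Set V) : Set E := {g | ∃ u ∈ S, ∃ v ∉ S, ends g = s(u, v)}

/-- `e` is in a 2-edge cut: the boundary of some set of vertices consists of exactly two edges, and `e` is
one of them -/
def InCut (e : E) : Prop := ∃ S : Set V, e ∈ Bd ends S ∧ (Bd ends S).ncard = 2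

/-- the set `A` and its complement are the two classes of a bipartition -/
def Bip (A : Set V) : Prop := ∀ g, ∃ u ∈ A, ∃ v ∉ A, ends g = s(u, v)

end Pool.Agent.H.MP_bcbcf8_co
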