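import Mathlib

/-!
# Two involutions: an orbit with a fixed point has exactly two fixed points
-/

set_option autoImplicit false

namespace Pool.Agent.H.MP_bcbcf8_co

theorem dih {D : Type} [Finite D] (σ τ : D → D) (hσ : ∀ d, σ (σ d) = d) (hτ : ∀ d, τ (τ d) = d)
    (hσf : ∀ d, σ d ≠ d) (d₀ : D) (h₀ : τ d₀ = d₀) :
    ∃ K : Set D, d₀ ∈ K ∧ (∀ d ∈ K, σ d ∈ K) ∧ (∀ d ∈ K, τ d ∈ K) ∧
      ∃ d₁ ∈ K, d₁ ≠ d₀ ∧ τ d₁ = d₁ ∧ ∀ d ∈ K, τ d = d → d = d₀ ∨ d = d₁ := by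
  classical
  let σe : Equiv.Perm D := ⟨σ, σ, hσ, hσ⟩
  let τe : Equiv.Perm D := ⟨τ, τ, hτ, hτ⟩
  obtain ⟨ρ, hρ⟩ : ∃ ρ : Equiv.Perm D, ρ = σe * τe := ⟨_, rfl⟩
  have hσi : σe⁻¹ = σe := rfl
  have hτi : τe⁻¹ = τe := rfl
  have hconj : τe * ρ * τe⁻¹ = ρ⁻¹ := by
    rw [hρ, mul_inv_rev, hσi, hτi]
    ext d
    change τ (σ (τ (τ d))) = τ (σ d)
    rw [hτ]
  have tk : ∀ k : ℤ, τ ((ρ ^ k) d₀) = (ρ ^ (-k)) d₀ := by
    intro k
    have h1 : τe * ρ ^ k * τe⁻¹ = ρ ^ (-k) := by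
      rw [← conj_zpow, hconj, inv_zpow, zpow_neg]
    rw [← h1, hτi]
    change τ ((ρ ^ k) d₀) = τ ((ρ ^ k) (τ d₀))
    rw [h₀]
  have sk : ∀ k : ℤ, σ ((ρ ^ k) d₀) = (ρ ^ (1 - k)) d₀ := by
    intro k
    have h1 : σ ((ρ ^ k) d₀) = ρ (τ ((ρ ^ k) d₀)) := by
      rw [hρ]
      change _ = σ (τ (τ _))
      rw [hτ]
    rw [h1, tk, sub_eq_add_neg, zpow_add, zpow_one]
    rfl
  have hex : ∃ n : ℕ, 0 < n ∧ (ρ ^ n) d₀ = d₀ :=
    ⟨orderOf ρ, orderOf_pos ρ, by rw [pow_orderOf_eq_one]; rfl⟩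
  obtain ⟨hn0, hn⟩ := Nat.find_spec hex
  have hmin : ∀ m : ℕ, 0 < m → m < Nat.find hex → (ρ ^ m) d₀ ≠ d₀ := by
    intro m h1 h2 h3
    exact Nat.find_min hex h2 ⟨h1, h3⟩
  generalize Nat.find hex = n at hn0 hn hmin
  have hnz : ∀ q : ℤ, (ρ ^ ((n : ℤ) * q)) d₀ = d₀ := by
    intro q
    rw [zpow_mul, zpow_natCast]
    exact Equiv.Perm.zpow_apply_eq_self_of_apply_eq_self hn q
  have hshift : ∀ k q : ℤ, (ρ ^ (k + (n : ℤ) * q)) d₀ = (ρ ^ k) d₀ := by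
    intro k q
    rw [zpow_add, Equiv.Perm.mul_apply, hnz]
  obtain ⟨m, hm⟩ : ∃ m, n = m + m := by
    rcases Nat.even_or_odd n with h | ⟨m, hm⟩
    · exact h
    · exfalso
      apply hσf ((ρ ^ ((m : ℤ) + 1)) d₀)
      rw [sk, ← hshift (1 - ((m : ℤ) + 1)) 1]
      congr 2
      rw [hm]
      push_cast
      ring
  refine ⟨{d | ∃ k : ℤ, d = (ρ ^ k) d₀}, ⟨0, by simp⟩, ?_, ?_, (ρ ^ (m : ℤ)) d₀, ⟨m, rfl⟩, ?_, ?_, ?_⟩
  · rintro d ⟨k, rfl⟩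
    exact ⟨1 - k, sk k⟩
  · rintro d ⟨k, rfl⟩
    exact ⟨-k, tk k⟩
  · rw [zpow_natCast]
    exact hmin m (by omega) (by omega)
  · rw [tk, ← hshift (-(m : ℤ)) 1]
    congr 2
    rw [hm]
    push_cast
    ring
  · rintro d ⟨k, rfl⟩ h
    rw [tk] at h
    obtain ⟨r, hr⟩ : ∃ r : ℕ, (r : ℤ) = k % n := ⟨(k % n).toNat, by
      rw [Int.toNat_of_nonneg (Int.emod_nonneg _ (by omega))]⟩
    have hrn : r < n := by
      have := Int.emod_lt_of_pos k (show (0 : ℤ) < n by omega)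
      omega
    have hk : k = r + n * (k / n) := by
      rw [hr]
      exact (Int.emod_add_mul_ediv k n).symm
    have hkr : (ρ ^ k) d₀ = (ρ ^ (r : ℤ)) d₀ := by
      conv_lhs => rw [hk]
      exact hshift _ _
    have h2 : (ρ ^ (2 * (r : ℤ))) d₀ = d₀ := by
      have h3 : (ρ ^ (2 * k)) d₀ = d₀ := by
        rw [two_mul, zpow_add, Equiv.Perm.mul_apply, ← h, ← Equiv.Perm.mul_apply, ← zpow_add,
          add_neg_cancel, zpow_zero, Equiv.Perm.one_apply]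
      have h4 : 2 * k = 2 * (r : ℤ) + n * (2 * (k / n)) := by
        conv_lhs => rw [hk]
        ring
      rw [h4, hshift] at h3
      exact h3
    rw [hkr]
    rcases Nat.lt_trichotomy (2 * r) n with h5 | h5 | h5
    · left
      rcases Nat.eq_zero_or_pos r with h6 | h6
      · rw [h6]
        simp
      · exfalso
        apply hmin (2 * r) (by omega) h5
        rw [← zpow_natCast]
        push_cast
        exact h2
    · right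
      congr 2
      omega
    · exfalso
      apply hmin (2 * r - n) (by omega) (by omega)
      rw [← zpow_natCast, ← hshift _ 1, show ((2 * r - n : ℕ) : ℤ) + n * 1 = 2 * (r : ℤ) by omega]
      exact h2

end Pool.Agent.H.MP_bcbcf8_co
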