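import Pool.Agent.H.MP_bcbcf8_co.BG.Loc
import Pool.Agent.H.MP_bcbcf8_co.BG.Conv

/-!
# Almost bipartite parts behind an edge cut with at most three edges: the general case
-/

set_option autoImplicit false

namespace Pool.Agent.H.MP_bcbcf8_co

open Finset

section fin

variable {V E : Type} {ends : E → Sym2 V} {S : Set V}

theorem loc_main [Finite V] [Finite E] {A : Set V} (hloop : ∀ g, ¬ (ends g).IsDiag)
    (hcub : ∀ v, {g | v ∈ ends g}.ncard = 3) (hcol : ∃ c : E → Fin 3, IsCol ends c)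
    (hBd : (Bd ends S).ncard ≤ 3) (hS : 2 < S.ncard)
    (hX : {g | ∀ w ∈ ends g, w ∈ S ∩ A}.ncard ≤ 1)
    (hY : {g | ∀ w ∈ ends g, w ∈ S \ A}.ncard ≤ 1) :
    ∃ e, (∀ w ∈ ends e, w ∈ S) ∧ Removable ends e := by
  classical
  have := Fintype.ofFinite V
  have := Fintype.ofFinite E
  obtain ⟨c₀, hc₀⟩ := hcol
  have hone := bg_no_one hloop hcub hc₀
  obtain h | h | h : (Bd ends S).ncard = 3 ∨ (Bd ends S).ncard = 2 ∨ (Bd ends S).ncard = 0 := by
    have := hone S
    omega
  · exact loc_three hloop hcub ⟨c₀, hc₀⟩ h (by omega) hX hY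
  · -- a boundary of two edges: add a vertex
    obtain ⟨f, f', hff, hB⟩ := Set.ncard_eq_two.1 h
    have hf : f ∈ Bd ends S := by rw [hB]; exact .inl rfl
    have hfcut : InCut ends f := ⟨S, hf, h⟩
    obtain ⟨x, hx, x', hx', hxx⟩ := hf
    obtain ⟨S', hS'⟩ : ∃ S', S' = insert x' S := ⟨_, rfl⟩
    have hS'c : S'.ncard = S.ncard + 1 := by
      rw [hS', Set.ncard_insert_of_notMem hx' (Set.toFinite _)]
    have cS : ∀ T : Set V, T.ncard = #{w | w ∈ T} := by
      intro T
      rw [← Set.ncard_coe_finset]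
      congr 1
      ext g
      simp
    have cB : ∀ T : Set V, (Bd ends T).ncard = #{g | g ∈ Bd ends T} := by
      intro T
      rw [← Set.ncard_coe_finset]
      congr 1
      ext g
      simp
    have k1 := bg_count hloop (fun _ => True) S
    have k2 := bg_count hloop (fun _ => True) S'
    simp only [true_and] at k1 k2
    rw [sum_congr rfl fun w _ => bg_card hcub w, sum_const, smul_eq_mul, ← cS, ← cB] at k1 k2
    have hsub : insert f ({g | ∀ w ∈ ends g, w ∈ S} : Finset E) ⊆
        ({g | ∀ w ∈ ends g, w ∈ S'} : Finset E) := by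
      intro g hg
      rw [mem_insert, mem_filter] at hg
      rw [mem_filter]
      refine ⟨mem_univ _, ?_⟩
      rcases hg with rfl | ⟨-, hg⟩
      · intro w hw
        rw [hxx, Sym2.mem_iff] at hw
        rw [hS']
        rcases hw with rfl | rfl
        · exact .inr hx
        · exact .inl rfl
      · intro w hw
        rw [hS']
        exact .inr (hg w hw)
    have hfS : f ∉ ({g | ∀ w ∈ ends g, w ∈ S} : Finset E) := by
      rw [mem_filter]
      rintro ⟨-, h1⟩
      exact hx' (h1 x' (by rw [hxx]; exact Sym2.mem_mk_right _ _))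
    have hle := card_le_card hsub
    rw [card_insert_of_notMem hfS] at hle
    have h3 : (Bd ends S').ncard = 3 := by
      have := hone S'
      omega
    have heq : insert f ({g | ∀ w ∈ ends g, w ∈ S} : Finset E) =
        ({g | ∀ w ∈ ends g, w ∈ S'} : Finset E) := by
      apply eq_of_subset_of_card_le hsub
      rw [card_insert_of_notMem hfS]
      omega
    have hinner : ∀ g, (∀ w ∈ ends g, w ∈ S') → g = f ∨ ∀ w ∈ ends g, w ∈ S := by
      intro g hg
      have h4 : g ∈ insert f ({g | ∀ w ∈ ends g, w ∈ S} : Finset E) := by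
        rw [heq, mem_filter]
        exact ⟨mem_univ _, hg⟩
      rw [mem_insert, mem_filter] at h4
      rcases h4 with h4 | h4
      · exact .inl h4
      · exact .inr h4.2
    obtain ⟨A', hA1, hA2⟩ : ∃ A' : Set V, (x' ∈ A' ↔ x ∉ A) ∧ ∀ w ∈ S, (w ∈ A' ↔ w ∈ A) := by
      refine ⟨{w | (w ≠ x' ∧ w ∈ A) ∨ (w = x' ∧ x ∉ A)}, ?_, ?_⟩
      · rw [Set.mem_ofPred_eq]
        tauto
      · intro w hw
        have hwx : w ≠ x' := fun h => hx' (h ▸ hw)
        rw [Set.mem_ofPred_eq]
        tauto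
    have hxf : x ∈ ends f := by rw [hxx]; exact Sym2.mem_mk_left _ _
    have hxf' : x' ∈ ends f := by rw [hxx]; exact Sym2.mem_mk_right _ _
    have hX' : {g | ∀ w ∈ ends g, w ∈ S' ∩ A'}.ncard ≤ 1 := by
      refine le_trans (Set.ncard_le_ncard ?_ (Set.toFinite _)) hX
      intro g hg
      rcases hinner g (fun w hw => (hg w hw).1) with rfl | h4
      · exact absurd ((hA2 x hx).1 (hg x hxf).2) (hA1.1 (hg x' hxf').2)
      · exact fun w hw => ⟨h4 w hw, (hA2 w (h4 w hw)).1 (hg w hw).2⟩
    have hY' : {g | ∀ w ∈ ends g, w ∈ S' \ A'}.ncard ≤ 1 := by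
      refine le_trans (Set.ncard_le_ncard ?_ (Set.toFinite _)) hY
      intro g hg
      rcases hinner g (fun w hw => (hg w hw).1) with rfl | h4
      · exact absurd (hA1.2 fun h5 => (hg x hxf).2 ((hA2 x hx).2 h5)) (hg x' hxf').2
      · exact fun w hw => ⟨h4 w hw, fun h5 => (hg w hw).2 ((hA2 w (h4 w hw)).2 h5)⟩
    obtain ⟨e, he, hr⟩ := loc_three hloop hcub ⟨c₀, hc₀⟩ h3 (by omega) hX' hY'
    refine ⟨e, ?_, hr⟩
    rcases hinner e he with rfl | h4
    · exact absurd hfcut (not_inCut_of_removable hloop hcub hr)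
    · exact h4
  · -- an empty boundary: remove a vertex
    have hB : Bd ends S = ∅ := (Set.ncard_eq_zero (Set.toFinite _)).1 h
    obtain ⟨v, hv⟩ : S.Nonempty := Set.nonempty_of_ncard_ne_zero (by omega)
    have h1 : (S \ {v}).ncard = S.ncard - 1 := Set.ncard_sdiff_singleton_of_mem hv
    have h3 : (Bd ends (S \ {v})).ncard = 3 := by
      rw [← hcub v]
      congr 1
      ext g
      obtain ⟨p, q, hpq⟩ := bg_repr ends g
      have hne : p ≠ q := by
        rintro rfl
        apply hloop g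
        rw [hpq]
        exact Sym2.mk_isDiag_iff.2 rfl
      have h4 : g ∉ Bd ends S := by rw [hB]; exact Set.notMem_empty _
      rw [nb_bd hpq] at h4 ⊢
      rw [Set.mem_ofPred_eq, hpq, Sym2.mem_iff, Set.mem_sdiff, Set.mem_sdiff,
        Set.mem_singleton_iff, Set.mem_singleton_iff]
      by_cases h5 : v = p
      · subst h5
        have h6 : q ≠ v := hne.symm
        tauto
      · by_cases h7 : v = q
        · subst h7
          tauto
        · have h8 : ¬ p = v := fun h => h5 h.symm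
          have h9 : ¬ q = v := fun h => h7 h.symm
          tauto
    have hX' : {g | ∀ w ∈ ends g, w ∈ (S \ {v}) ∩ A}.ncard ≤ 1 := by
      refine le_trans (Set.ncard_le_ncard ?_ (Set.toFinite _)) hX
      intro g hg w hw
      exact ⟨(hg w hw).1.1, (hg w hw).2⟩
    have hY' : {g | ∀ w ∈ ends g, w ∈ (S \ {v}) \ A}.ncard ≤ 1 := by
      refine le_trans (Set.ncard_le_ncard ?_ (Set.toFinite _)) hY
      intro g hg w hw
      exact ⟨(hg w hw).1.1, (hg w hw).2⟩
    obtain ⟨e, he, hr⟩ := loc_three hloop hcub ⟨c₀, hc₀⟩ h3 (by omega) hX' hY'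
    exact ⟨e, fun w hw => (he w hw).1, hr⟩

end fin

end Pool.Agent.H.MP_bcbcf8_co
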