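import Pool.Agent.H.MP_bcbcf8_co.BG.Fou

/-!
# Bipartite parts behind an edge cut with at most four edges
-/

set_option autoImplicit false

namespace Pool.Agent.H.MP_bcbcf8_co

open Finset

section fom

variable {V E : Type} {ends : E → Sym2 V} {S A : Set V} {f : Fin 4 → E} {x : Fin 4 → V}

/-- the two inner edges at a boundary vertex -/
theorem fou_two [Finite E] (hcub : ∀ v, {g | v ∈ ends g}.ncard = 3) (hF : Four ends S f x)
    (hg : ∀ g, (∀ w ∈ ends g, w ∈ S) → ∃ u ∈ A, ∃ v ∉ A, ends g = s(u, v)) (l : Fin 4)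
    (hl : x l ∈ A) : ∃ e e' w w', e ≠ e' ∧ (∀ v ∈ ends e, v ∈ S) ∧ (∀ v ∈ ends e', v ∈ S) ∧
      w ∈ S ∧ w' ∈ S ∧ w ∉ A ∧ w' ∉ A ∧ ends e = s(x l, w) ∧ ends e' = s(x l, w') := by
  classical
  have := Fintype.ofFinite E
  have hc : #(({g | x l ∈ ends g} : Finset E).erase (f l)) = 2 := by
    rw [card_erase_of_mem (by simpa using hF.xf l), bg_card hcub]
  obtain ⟨e, e', hee, he⟩ := card_eq_two.1 hc
  have inner : ∀ g ∈ ({g | x l ∈ ends g} : Finset E).erase (f l),
      (∀ w ∈ ends g, w ∈ S) ∧ ∃ w ∈ S, w ∉ A ∧ ends g = s(x l, w) := by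
    intro g hg'
    rw [mem_erase, mem_filter] at hg'
    obtain ⟨k1, -, k2⟩ := hg'
    rcases edge_split hF (hF.xS l) k2 with k3 | ⟨m, rfl⟩
    · obtain ⟨u, hu, v, hv, h⟩ := hg g k3
      refine ⟨k3, v, k3 v (by rw [h]; exact Sym2.mem_mk_right _ _), hv, ?_⟩
      rw [h, Sym2.mem_iff] at k2
      rcases k2 with k2 | k2
      · rw [h, k2]
      · exact absurd (k2 ▸ hl) hv
    · have k4 := hF.xinj (four_end hF (hF.xS l) k2)
      exact absurd (by rw [← k4]) k1
  obtain ⟨i1, w, hw, hwA, hew⟩ := inner e (by rw [he]; simp)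
  obtain ⟨i2, w', hw', hwA', hew'⟩ := inner e' (by rw [he]; simp)
  exact ⟨e, e', w, w', hee, i1, i2, hw, hw', hwA, hwA', hew, hew'⟩

/-- two boundary edges at one vertex -/
theorem fou_share [Finite V] [Finite E] (hcub : ∀ v, {g | v ∈ ends g}.ncard = 3) {M : Set V}
    (h4 : (Bd ends M).ncard = 4) {w : V} (hw : w ∈ M) {g h : E} (hgh : g ≠ h)
    (hg : g ∈ Bd ends M) (hh : h ∈ Bd ends M) (hwg : w ∈ ends g) (hwh : w ∈ ends h) :
    (Bd ends (M \ {w})).ncard ≤ 3 := by
  have key : ∀ k, k ∈ Bd ends M → w ∈ ends k → k ∉ Bd ends (M \ {w}) := by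
    rintro k ⟨p, hp, q, hq, h1⟩ hwk ⟨p', hp', q', hq', h2⟩
    rw [h1, Sym2.mem_iff] at hwk
    have h3 : w = p := by
      rcases hwk with h3 | h3
      · exact h3
      · exact absurd (h3 ▸ hw) hq
    rw [h1, Sym2.eq_iff] at h2
    rcases h2 with ⟨h5, h6⟩ | ⟨h5, h6⟩
    · exact hp'.2 (by rw [← h5, ← h3]; rfl)
    · exact hq (h6 ▸ hp'.1)
  have hsub : Bd ends (M \ {w}) ⊆ (Bd ends M \ {g, h}) ∪ ({k | w ∈ ends k} \ {g, h}) := by
    intro k hk
    have hkg : k ≠ g := by
      rintro rfl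
      exact key k hg hwg hk
    have hkh : k ≠ h := by
      rintro rfl
      exact key k hh hwh hk
    have hk' : k ∉ ({g, h} : Set E) := by
      rintro (h1 | h1)
      · exact hkg h1
      · exact hkh h1
    by_cases hwk : w ∈ ends k
    · exact .inr ⟨hwk, hk'⟩
    · left
      obtain ⟨p, hp, q, hq, h1⟩ := hk
      refine ⟨⟨p, hp.1, q, fun h2 => hq ⟨h2, ?_⟩, h1⟩, hk'⟩
      intro h3
      apply hwk
      rw [h1, Sym2.mem_iff]
      right
      exact (Set.mem_singleton_iff.1 h3).symm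
  have c1 : (Bd ends M \ {g, h}).ncard = 2 := by
    rw [Set.ncard_sdiff (by
      rintro k (rfl | h1)
      · exact hg
      · rw [Set.mem_singleton_iff.1 h1]; exact hh) (Set.toFinite _), h4, Set.ncard_pair hgh]
  have c2 : ({k | w ∈ ends k} \ {g, h}).ncard = 1 := by
    rw [Set.ncard_sdiff (by
      rintro k (rfl | h1)
      · exact hwg
      · rw [Set.mem_singleton_iff.1 h1]; exact hwh) (Set.toFinite _), hcub, Set.ncard_pair hgh]
  have c3 := Set.ncard_le_ncard hsub (Set.toFinite _)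
  have c4 := Set.ncard_union_le (Bd ends M \ {g, h}) ({k | w ∈ ends k} \ {g, h})
  omega

theorem fou_main [Finite V] [Finite E] (hloop : ∀ g, ¬ (ends g).IsDiag)
    (hcub : ∀ v, {g | v ∈ ends g}.ncard = 3) (hcol : ∃ c : E → Fin 3, IsCol ends c)
    (hBd : (Bd ends S).ncard ≤ 4) (hS : 2 < S.ncard)
    (hg : ∀ g, (∀ w ∈ ends g, w ∈ S) → ∃ u ∈ A, ∃ v ∉ A, ends g = s(u, v)) :
    ∃ e, (∀ w ∈ ends e, w ∈ S) ∧ Removable ends e := by
  classical
  have := Fintype.ofFinite V
  have := Fintype.ofFinite E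
  obtain ⟨c₀, hc₀⟩ := hcol
  by_contra hno
  obtain ⟨M, ⟨hMS, hM3, hM4⟩, hm⟩ := exists_minimalFor_of_wellFoundedLT
    (fun R : Set V => R ⊆ S ∧ 2 < R.ncard ∧ (Bd ends R).ncard ≤ 4)
    (fun R : Set V => R.ncard) ⟨S, subset_rfl, hS, hBd⟩
  have noM : ∀ e, (∀ w ∈ ends e, w ∈ M) → ¬ Removable ends e :=
    fun e he hr => hno ⟨e, fun w hw => hMS (he w hw), hr⟩
  have hgM : ∀ g, (∀ w ∈ ends g, w ∈ M) → ∃ u ∈ A, ∃ v ∉ A, ends g = s(u, v) :=
    fun g h => hg g fun w hw => hMS (h w hw)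
  have hL : ∀ R ⊆ M, 2 < R.ncard → 4 ≤ (Bd ends R).ncard := by
    intro R hR hR2
    by_contra hlt
    have hX : {g | ∀ w ∈ ends g, w ∈ R ∩ A}.ncard ≤ 1 := by
      have h1 : {g | ∀ w ∈ ends g, w ∈ R ∩ A} = ∅ := by
        rw [Set.eq_empty_iff_forall_notMem]
        intro g h1
        obtain ⟨u, hu, v, hv, h⟩ := hgM g fun w hw => hR (h1 w hw).1
        exact hv (h1 v (by rw [h]; exact Sym2.mem_mk_right _ _)).2
      rw [h1, Set.ncard_empty]
      omega
    have hY : {g | ∀ w ∈ ends g, w ∈ R \ A}.ncard ≤ 1 := by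
      have h1 : {g | ∀ w ∈ ends g, w ∈ R \ A} = ∅ := by
        rw [Set.eq_empty_iff_forall_notMem]
        intro g h1
        obtain ⟨u, hu, v, hv, h⟩ := hgM g fun w hw => hR (h1 w hw).1
        exact (h1 u (by rw [h]; exact Sym2.mem_mk_left _ _)).2 hu
      rw [h1, Set.ncard_empty]
      omega
    obtain ⟨e, he, hr⟩ := loc_main hloop hcub ⟨c₀, hc₀⟩ (by omega) hR2 hX hY
    exact noM e (fun w hw => hR (he w hw)) hr
  have hB4 : (Bd ends M).ncard = 4 := le_antisymm hM4 (hL M subset_rfl hM3)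
  have m3 : ∀ R ⊆ M, 3 ≤ R.ncard → R ≠ M → 5 ≤ (Bd ends R).ncard := by
    intro R hR hR3 hRM
    by_contra hlt
    have h1 := hm ⟨hR.trans hMS, by omega, by omega⟩ (Set.ncard_le_ncard hR (Set.toFinite _))
    exact hRM (Set.eq_of_subset_of_ncard_le hR h1 (Set.toFinite _))
  have dig : ∀ {g h : E} {u v : V}, u ∈ M → v ∈ M → g ≠ h → ends g = s(u, v) →
      ends h = s(u, v) → False := by
    intro g h u v hu hv hgh h1 h2
    have hin : ∀ {k : E}, ends k = s(u, v) → ∀ w ∈ ends k, w ∈ M := by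
      intro k hk w hw
      rw [hk, Sym2.mem_iff] at hw
      rcases hw with rfl | rfl
      · exact hu
      · exact hv
    rcases fou_dig hloop hc₀ hgh h1 h2 with hr | hr
    · exact noM g (hin h1) hr
    · exact noM h (hin h2) hr
  have cB : ∀ T : Set V, (Bd ends T).ncard = #{g | g ∈ Bd ends T} := by
    intro T
    rw [← Set.ncard_coe_finset]
    congr 1
    ext g
    simp
  have cS : ∀ T : Set V, T.ncard = #{w | w ∈ T} := by
    intro T
    rw [← Set.ncard_coe_finset]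
    congr 1
    ext g
    simp
  have cI : ∀ T : Set V, {g | ∀ w ∈ ends g, w ∈ T}.ncard = #{g | ∀ w ∈ ends g, w ∈ T} := by
    intro T
    rw [← Set.ncard_coe_finset]
    congr 1
    ext g
    simp
  have count : ∀ T : Set V,
      3 * T.ncard = 2 * {g | ∀ w ∈ ends g, w ∈ T}.ncard + (Bd ends T).ncard := by
    intro T
    have k1 := bg_count hloop (fun _ => True) T
    simp only [true_and] at k1
    rw [sum_congr rfl fun w _ => bg_card hcub w, sum_const, smul_eq_mul, ← cS, ← cB, ← cI] at k1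
    omega
  have m2 : ∀ R ⊆ M, 2 ≤ R.ncard → 4 ≤ (Bd ends R).ncard := by
    intro R hR hR2
    rcases Nat.lt_or_ge 2 R.ncard with h | h
    · exact hL R hR h
    · by_contra hlt
      have h1 := count R
      have h2 : R.ncard = 2 := le_antisymm h hR2
      have h3 : 1 < {g | ∀ w ∈ ends g, w ∈ R}.ncard := by omega
      obtain ⟨g, hg1, h', hh1, hgh⟩ := (Set.one_lt_ncard (Set.toFinite _)).1 h3
      obtain ⟨u, v, huv, rfl⟩ := Set.ncard_eq_two.1 h2
      have hk : ∀ k, (∀ w ∈ ends k, w ∈ ({u, v} : Set V)) → ends k = s(u, v) := by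
        intro k hk
        obtain ⟨p, q, hpq⟩ := bg_repr ends k
        have hne : p ≠ q := by
          rintro rfl
          apply hloop k
          rw [hpq]
          exact Sym2.mk_isDiag_iff.2 rfl
        have hp := hk p (by rw [hpq]; exact Sym2.mem_mk_left _ _)
        have hq := hk q (by rw [hpq]; exact Sym2.mem_mk_right _ _)
        rw [Set.mem_insert_iff, Set.mem_singleton_iff] at hp hq
        rw [hpq]
        rcases hp with rfl | rfl <;> rcases hq with rfl | rfl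
        · exact absurd rfl hne
        · rfl
        · exact Sym2.eq_swap
        · exact absurd rfl hne
      exact dig (hR (by simp)) (hR (by simp)) hgh (hk g hg1) (hk h' hh1)
  -- the boundary edges with an end in `M ∩ A` and with an end in `M \ A`
  obtain ⟨P, hP⟩ : ∃ P : Set E, P = {g | g ∈ Bd ends M ∧ ∃ w ∈ ends g, w ∈ M ∧ w ∈ A} := ⟨_, rfl⟩
  obtain ⟨Q, hQ⟩ : ∃ Q : Set E, Q = {g | g ∈ Bd ends M ∧ ∃ w ∈ ends g, w ∈ M ∧ w ∉ A} := ⟨_, rfl⟩
  have uniq : ∀ g ∈ Bd ends M, ∀ w ∈ ends g, ∀ w' ∈ ends g, w ∈ M → w' ∈ M → w = w' := by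
    rintro g ⟨p, hp, q, hq, h⟩ w hw w' hw' hwM hwM'
    rw [h, Sym2.mem_iff] at hw hw'
    have e1 : w = p := by
      rcases hw with h1 | h1
      · exact h1
      · exact absurd (h1 ▸ hwM) hq
    have e2 : w' = p := by
      rcases hw' with h1 | h1
      · exact h1
      · exact absurd (h1 ▸ hwM') hq
    rw [e1, e2]
  have hPQ : P ∪ Q = Bd ends M := by
    ext g
    rw [hP, hQ]
    constructor
    · rintro (h | h)
      · exact h.1
      · exact h.1
    · intro h
      obtain ⟨p, hp, q, hq, h'⟩ := id h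
      have hpg : p ∈ ends g := by rw [h']; exact Sym2.mem_mk_left _ _
      by_cases hpA : p ∈ A
      · exact .inl ⟨h, p, hpg, hp, hpA⟩
      · exact .inr ⟨h, p, hpg, hp, hpA⟩
  have hdis : Disjoint P Q := by
    rw [Set.disjoint_left, hP, hQ]
    rintro g ⟨h, w, hw, hwM, hwA⟩ ⟨-, w', hw', hwM', hwA'⟩
    exact hwA' (uniq g h w hw w' hw' hwM hwM' ▸ hwA)
  have hPQc : P.ncard + Q.ncard = 4 := by
    rw [← Set.ncard_union_eq hdis, hPQ, hB4]
  obtain ⟨I, hI⟩ : ∃ I : Set E, I = {g | ∀ w ∈ ends g, w ∈ M} := ⟨_, rfl⟩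
  have hIP : Disjoint I P := by
    rw [Set.disjoint_left, hI, hP]
    rintro g h ⟨⟨p, hp, q, hq, h'⟩, -⟩
    exact hq (h q (by rw [h']; exact Sym2.mem_mk_right _ _))
  have hIQ : Disjoint I Q := by
    rw [Set.disjoint_left, hI, hQ]
    rintro g h ⟨⟨p, hp, q, hq, h'⟩, -⟩
    exact hq (h q (by rw [h']; exact Sym2.mem_mk_right _ _))
  have split : ∀ g w, w ∈ M → w ∈ ends g → (∀ v ∈ ends g, v ∈ M) ∨ g ∈ Bd ends M := by
    intro g w hw hwg
    by_cases h : ∀ v ∈ ends g, v ∈ M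
    · exact .inl h
    · right
      push Not at h
      obtain ⟨v, hv, hvS⟩ := h
      obtain ⟨p, q, hpq⟩ := bg_repr ends g
      rw [nb_bd hpq]
      rw [hpq, Sym2.mem_iff] at hv hwg
      rcases hv with rfl | rfl <;> rcases hwg with rfl | rfl <;> tauto
  have hBA : Bd ends (M ∩ A) = I ∪ P := by
    ext g
    rw [hI, hP]
    constructor
    · rintro ⟨p, hp, q, hq, h⟩
      have hpg : p ∈ ends g := by rw [h]; exact Sym2.mem_mk_left _ _
      rcases split g p hp.1 hpg with h1 | h1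
      · exact .inl h1
      · exact .inr ⟨h1, p, hpg, hp.1, hp.2⟩
    · rintro (h | ⟨h, w, hw, hwM, hwA⟩)
      · obtain ⟨u, hu, v, hv, h'⟩ := hgM g h
        exact ⟨u, ⟨h u (by rw [h']; exact Sym2.mem_mk_left _ _), hu⟩, v, fun h2 => hv h2.2, h'⟩
      · obtain ⟨p, hp, q, hq, h'⟩ := id h
        have h1 := uniq g h p (by rw [h']; exact Sym2.mem_mk_left _ _) w hw hp hwM
        exact ⟨p, ⟨hp, h1 ▸ hwA⟩, q, fun h2 => hq h2.1, h'⟩
  have hBA' : Bd ends (M \ A) = I ∪ Q := by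
    ext g
    rw [hI, hQ]
    constructor
    · rintro ⟨p, hp, q, hq, h⟩
      have hpg : p ∈ ends g := by rw [h]; exact Sym2.mem_mk_left _ _
      rcases split g p hp.1 hpg with h1 | h1
      · exact .inl h1
      · exact .inr ⟨h1, p, hpg, hp.1, hp.2⟩
    · rintro (h | ⟨h, w, hw, hwM, hwA⟩)
      · obtain ⟨u, hu, v, hv, h'⟩ := hgM g h
        exact ⟨v, ⟨h v (by rw [h']; exact Sym2.mem_mk_right _ _), hv⟩, u, fun h2 => h2.2 hu,
          h'.trans Sym2.eq_swap⟩
      · obtain ⟨p, hp, q, hq, h'⟩ := id h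
        have h1 := uniq g h p (by rw [h']; exact Sym2.mem_mk_left _ _) w hw hp hwM
        exact ⟨p, ⟨hp, fun h2 => hwA (h1 ▸ h2)⟩, q, fun h2 => hq h2.1, h'⟩
  have z1 : {g | ∀ w ∈ ends g, w ∈ M ∩ A}.ncard = 0 := by
    rw [Set.ncard_eq_zero (Set.toFinite _), Set.eq_empty_iff_forall_notMem]
    intro g h
    obtain ⟨u, hu, v, hv, h'⟩ := hgM g fun w hw => (h w hw).1
    exact hv (h v (by rw [h']; exact Sym2.mem_mk_right _ _)).2
  have z2 : {g | ∀ w ∈ ends g, w ∈ M \ A}.ncard = 0 := by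
    rw [Set.ncard_eq_zero (Set.toFinite _), Set.eq_empty_iff_forall_notMem]
    intro g h
    obtain ⟨u, hu, v, hv, h'⟩ := hgM g fun w hw => (h w hw).1
    exact (h u (by rw [h']; exact Sym2.mem_mk_left _ _)).2 hu
  have n1 := count (M ∩ A)
  have n2 := count (M \ A)
  rw [z1, hBA, Set.ncard_union_eq hIP] at n1
  rw [z2, hBA', Set.ncard_union_eq hIQ] at n2
  have hP2 : P.ncard = 2 := by omega
  have hQ2 : Q.ncard = 2 := by omega
  obtain ⟨p0, p1, hp01, hPe⟩ := Set.ncard_eq_two.1 hP2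
  obtain ⟨q0, q1, hq01, hQe⟩ := Set.ncard_eq_two.1 hQ2
  have mP : ∀ g ∈ P, g ∈ Bd ends M ∧ ∃ w ∈ ends g, w ∈ M ∧ w ∈ A := by
    intro g h
    rw [hP] at h
    exact h
  have mQ : ∀ g ∈ Q, g ∈ Bd ends M ∧ ∃ w ∈ ends g, w ∈ M ∧ w ∉ A := by
    intro g h
    rw [hQ] at h
    exact h
  have hp0 : p0 ∈ P := by rw [hPe]; exact .inl rfl
  have hp1 : p1 ∈ P := by rw [hPe]; exact .inr rfl
  have hq0 : q0 ∈ Q := by rw [hQe]; exact .inl rfl
  have hq1 : q1 ∈ Q := by rw [hQe]; exact .inr rfl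
  obtain ⟨b0, x0, x0e, x0M, x0A⟩ := mP p0 hp0
  obtain ⟨b1, x1, x1e, x1M, x1A⟩ := mP p1 hp1
  obtain ⟨b2, x2, x2e, x2M, x2A⟩ := mQ q0 hq0
  obtain ⟨b3, x3, x3e, x3M, x3A⟩ := mQ q1 hq1
  have d02 : p0 ≠ q0 := fun h => Set.disjoint_left.1 hdis hp0 (h ▸ hq0)
  have d03 : p0 ≠ q1 := fun h => Set.disjoint_left.1 hdis hp0 (h ▸ hq1)
  have d12 : p1 ≠ q0 := fun h => Set.disjoint_left.1 hdis hp1 (h ▸ hq0)
  have d13 : p1 ≠ q1 := fun h => Set.disjoint_left.1 hdis hp1 (h ▸ hq1)
  have share : ∀ {g h : E} {w : V}, g ≠ h → g ∈ Bd ends M → h ∈ Bd ends M → w ∈ M →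
      w ∈ ends g → w ∈ ends h → False := by
    intro g h w hgh hg' hh' hw hwg hwh
    have k1 := fou_share hcub hB4 hw hgh hg' hh' hwg hwh
    have k2 := m2 (M \ {w}) Set.sdiff_subset
      (by rw [Set.ncard_sdiff_singleton_of_mem hw]; omega)
    omega
  have nAB : ∀ {u v : V}, u ∈ A → v ∉ A → u ≠ v := fun hu hv h => hv (h ▸ hu)
  have y01 : x0 ≠ x1 := fun h => share hp01 b0 b1 x0M x0e (h ▸ x1e)
  have y23 : x2 ≠ x3 := fun h => share hq01 b2 b3 x2M x2e (h ▸ x3e)
  have y02 := nAB x0A x2A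
  have y03 := nAB x0A x3A
  have y12 := nAB x1A x2A
  have y13 := nAB x1A x3A
  have hF : Four ends M ![p0, p1, q0, q1] ![x0, x1, x2, x3] := by
    refine ⟨?_, ?_, ?_, ?_, ?_⟩
    · intro i j hij
      fin_cases i <;> fin_cases j
      · rfl
      · exact absurd hij hp01
      · exact absurd hij d02
      · exact absurd hij d03
      · exact absurd hij hp01.symm
      · rfl
      · exact absurd hij d12
      · exact absurd hij d13
      · exact absurd hij d02.symm
      · exact absurd hij d12.symm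
      · rfl
      · exact absurd hij hq01
      · exact absurd hij d03.symm
      · exact absurd hij d13.symm
      · exact absurd hij hq01.symm
      · rfl
    · intro g
      rw [← hPQ, hPe, hQe]
      constructor
      · rintro ((h | h) | (h | h))
        · exact ⟨0, h.symm⟩
        · exact ⟨1, (Set.mem_singleton_iff.1 h).symm⟩
        · exact ⟨2, h.symm⟩
        · exact ⟨3, (Set.mem_singleton_iff.1 h).symm⟩
      · rintro ⟨l, rfl⟩
        fin_cases l
        · exact .inl (.inl rfl)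
        · exact .inl (.inr rfl)
        · exact .inr (.inl rfl)
        · exact .inr (.inr rfl)
    · intro l
      fin_cases l
      · exact x0M
      · exact x1M
      · exact x2M
      · exact x3M
    · intro l
      fin_cases l
      · exact x0e
      · exact x1e
      · exact x2e
      · exact x3e
    · intro i j hij
      fin_cases i <;> fin_cases j
      · rfl
      · exact absurd hij y01
      · exact absurd hij y02
      · exact absurd hij y03
      · exact absurd hij y01.symm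
      · rfl
      · exact absurd hij y12
      · exact absurd hij y13
      · exact absurd hij y02.symm
      · exact absurd hij y12.symm
      · rfl
      · exact absurd hij y23
      · exact absurd hij y03.symm
      · exact absurd hij y13.symm
      · exact absurd hij y23.symm
      · rfl
  have m6 : 6 ≤ M.ncard := by
    have n3 := count M
    by_contra hlt
    have hM4' : M.ncard = 4 := by omega
    -- a quadrilateral
    have hMe : M = Set.range ![x0, x1, x2, x3] := by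
      symm
      apply Set.eq_of_subset_of_ncard_le _ _ (Set.toFinite _)
      · rintro v ⟨l, rfl⟩
        exact hF.xS l
      · rw [hM4', ← Set.image_univ, Set.ncard_image_of_injective _ hF.xinj, Set.ncard_univ,
          Nat.card_eq_fintype_card, Fintype.card_fin]
    have hMm : ∀ w ∈ M, w ∉ A → w = x2 ∨ w = x3 := by
      intro w hw hwA
      rw [hMe] at hw
      obtain ⟨l, hl⟩ := hw
      fin_cases l
      · exact absurd (hl ▸ x0A) hwA
      · exact absurd (hl ▸ x1A) hwA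
      · exact .inl hl.symm
      · exact .inr hl.symm
    have two : ∀ l : Fin 4, ![x0, x1, x2, x3] l ∈ A → ∃ e e', e ≠ e' ∧
        (∀ v ∈ ends e, v ∈ M) ∧ (∀ v ∈ ends e', v ∈ M) ∧
        ends e = s(![x0, x1, x2, x3] l, x2) ∧ ends e' = s(![x0, x1, x2, x3] l, x3) := by
      intro l hl
      obtain ⟨e, e', w, w', hee, i1, i2, hw, hw', hwA, hwA', he, he'⟩ :=
        fou_two hcub hF hgM l hl
      rcases hMm w hw hwA with rfl | rfl <;> rcases hMm w' hw' hwA' with rfl | rfl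
      · exact (dig (hF.xS l) hw hee he he').elim
      · exact ⟨e, e', hee, i1, i2, he, he'⟩
      · exact ⟨e', e, hee.symm, i2, i1, he', he⟩
      · exact (dig (hF.xS l) hw hee he he').elim
    obtain ⟨e2, e3, hee, i2, i3, he2, he3⟩ := two 0 x0A
    obtain ⟨h2, h3, hhh, j2, j3, hh2, hh3⟩ := two 1 x1A
    have he2' : ends e2 = s(x0, x2) := he2
    have he3' : ends e3 = s(x0, x3) := he3
    have hh2' : ends h2 = s(x1, x2) := hh2
    have hh3' : ends h3 = s(x1, x3) := hh3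
    have ne : ∀ {g h : E} {u v : V}, ends g = s(x0, u) → ends h = s(x1, v) → v ∉ A → g ≠ h := by
      rintro g h u v k1 k2 hv rfl
      rw [k1, Sym2.eq_iff] at k2
      rcases k2 with ⟨k2, -⟩ | ⟨k2, -⟩
      · exact y01 k2
      · exact hv (k2 ▸ x0A)
    rcases fou_quad hloop hc₀ (g := e2) (h := h2) (p := h3) (q := e3) (ne he2' hh2' x2A)
      (ne he2' hh3' x3A) hee hhh (ne he3' hh2' x2A).symm (ne he3' hh3' x3A).symm he2'
      (hh2'.trans Sym2.eq_swap) hh3' (he3'.trans Sym2.eq_swap) with hr | hr | hr | hr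
    · exact noM e2 i2 hr
    · exact noM h2 j2 hr
    · exact noM h3 j3 hr
    · exact noM e3 i3 hr
  obtain ⟨e, he, hr⟩ := fou_six hloop hcub hc₀ hF ⟨m2, m3, m6⟩ hgM x0A x1A x2A x3A
  exact noM e he hr

end fom

end Pool.Agent.H.MP_bcbcf8_co
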