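import Pool.Agent.H.MP_bcbcf8_co.BG.Six
import Pool.Agent.H.MP_bcbcf8_co.Final

/-!
# Bipartite parts behind an edge cut with four edges
-/

set_option autoImplicit false

namespace Pool.Agent.H.MP_bcbcf8_co

open Finset

section fou

variable {V E : Type} {ends : E → Sym2 V} {S A : Set V} {f : Fin 4 → E} {x : Fin 4 → V}

/-- the colours of the boundary edges have a type -/
theorem fou_type [Finite V] [Finite E] (hloop : ∀ g, ¬ (ends g).IsDiag)
    (hcub : ∀ v, {g | v ∈ ends g}.ncard = 3) {c : E → Fin 3} (hc : IsCol ends c)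
    (hF : Four ends S f x) : ∃ t, Ty t (c (f 0)) (c (f 1)) (c (f 2)) (c (f 3)) := by
  classical
  have := Fintype.ofFinite E
  have key := bg_col_parity hloop hcub hc S
  have cnt : ∀ j, #{g | (True ∧ c g = j) ∧ g ∈ Bd ends S} =
      (if c (f 0) = j then 1 else 0) + (if c (f 1) = j then 1 else 0) +
      (if c (f 2) = j then 1 else 0) + (if c (f 3) = j then 1 else 0) := by
    intro j
    have h1 : ({g | (True ∧ c g = j) ∧ g ∈ Bd ends S} : Finset E) =
        ({l | c (f l) = j} : Finset (Fin 4)).map ⟨f, hF.finj⟩ := by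
      ext g
      simp only [mem_filter, mem_univ, true_and, mem_map, Function.Embedding.coeFn_mk, hF.hB]
      constructor
      · rintro ⟨h2, l, rfl⟩
        exact ⟨l, h2, rfl⟩
      · rintro ⟨l, h2, rfl⟩
        exact ⟨h2, l, rfl⟩
    rw [h1, card_map, card_filter, Fin.sum_univ_four]
  have fin1 : ∀ p q r s : Fin 3,
      (∀ j j' : Fin 3, ((if p = j then 1 else 0) + (if q = j then 1 else 0) +
        (if r = j then 1 else 0) + (if s = j then 1 else 0)) % 2 =
        ((if p = j' then 1 else 0) + (if q = j' then 1 else 0) +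
        (if r = j' then 1 else 0) + (if s = j' then 1 else 0)) % 2) →
      ∃ t, Ty t p q r s := by decide +kernel
  apply fin1
  intro j j'
  have h := key j j'
  rw [cnt j, cnt j'] at h
  exact h

theorem fou_six [Finite V] [Finite E] (hloop : ∀ g, ¬ (ends g).IsDiag)
    (hcub : ∀ v, {g | v ∈ ends g}.ncard = 3) {c₀ : E → Fin 3} (hc₀ : IsCol ends c₀)
    (hF : Four ends S f x) (hM : Mini ends S)
    (hg : ∀ g, (∀ w ∈ ends g, w ∈ S) → ∃ u ∈ A, ∃ v ∉ A, ends g = s(u, v))
    (h0 : x 0 ∈ A) (h1 : x 1 ∈ A) (h2 : x 2 ∉ A) (h3 : x 3 ∉ A) :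
    ∃ e, (∀ w ∈ ends e, w ∈ S) ∧ Removable ends e := by
  classical
  have := Fintype.ofFinite E
  have hc : #(({g | x 0 ∈ ends g} : Finset E).erase (f 0)) = 2 := by
    rw [card_erase_of_mem (by simpa using hF.xf 0), bg_card hcub]
  obtain ⟨e, e', hee, he⟩ := card_eq_two.1 hc
  have inner : ∀ g ∈ ({g | x 0 ∈ ends g} : Finset E).erase (f 0),
      (∀ w ∈ ends g, w ∈ S) ∧ ∃ w ∈ S, w ∉ A ∧ ends g = s(x 0, w) := by
    intro g hg'
    rw [mem_erase, mem_filter] at hg'
    obtain ⟨k1, -, k2⟩ := hg'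
    rcases edge_split hF (hF.xS 0) k2 with k3 | ⟨l, rfl⟩
    · obtain ⟨u, hu, v, hv, h⟩ := hg g k3
      refine ⟨k3, v, k3 v (by rw [h]; exact Sym2.mem_mk_right _ _), hv, ?_⟩
      rw [h, Sym2.mem_iff] at k2
      rcases k2 with k2 | k2
      · rw [h, k2]
      · exact absurd (k2 ▸ h0) hv
    · have k4 := hF.xinj (four_end hF (hF.xS 0) k2)
      exact absurd (by rw [← k4]) k1
  obtain ⟨i1, w, hw, hwA, hew⟩ := inner e (by rw [he]; simp)
  obtain ⟨i2, w', hw', hwA', hew'⟩ := inner e' (by rw [he]; simp)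
  obtain ⟨t, ht⟩ := fou_type hloop hcub hc₀ hF
  have hpr : PrAt ends Sᶜ c₀ := fun v _ g h hg hh hne => hc₀ v g h hg hh hne
  obtain ⟨c', t', htt, hc', ht'⟩ := typ_kempe hloop hcub hF hpr ht
  obtain ⟨c, hcR, hcT⟩ := six_pair hloop hcub hF hM hg h0 h1 h2 h3 ⟨e, i1⟩ ⟨e', i2⟩ hw hw' hwA
    hwA' (fun h => hee (congrArg Subtype.val h)) hew hew' t t' htt.symm
  rcases hcT with hcT | hcT
  · exact ⟨e, i1, typ_glue hF i1 hcR hpr hcT ht⟩
  · exact ⟨e, i1, typ_glue hF i1 hcR hc' hcT ht'⟩

/-- parallel edges -/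
theorem fou_dig [Finite V] [Finite E] (hloop : ∀ g, ¬ (ends g).IsDiag) {c₀ : E → Fin 3}
    (hc₀ : IsCol ends c₀) {g h : E} {u v : V} (hgh : g ≠ h) (hg : ends g = s(u, v))
    (hh : ends h = s(u, v)) : Removable ends g ∨ Removable ends h := by
  have := final hloop c₀ hc₀ 2 (by norm_num) (by norm_num) ![u, v] ![g, h] (by
      intro i j hij
      fin_cases i <;> fin_cases j
      · rfl
      · exact absurd hij hgh
      · exact absurd hij hgh.symm
      · rfl) (by
      intro i
      fin_cases i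
      · exact hg
      · exact hh.trans Sym2.eq_swap)
  obtain ⟨i, hi⟩ := this
  fin_cases i
  · exact .inl hi
  · exact .inr hi

/-- quadrilaterals -/
theorem fou_quad [Finite V] [Finite E] (hloop : ∀ g, ¬ (ends g).IsDiag) {c₀ : E → Fin 3}
    (hc₀ : IsCol ends c₀) {g h p q : E} {a b c d : V} (h1 : g ≠ h) (h2 : g ≠ p) (h3 : g ≠ q)
    (h4 : h ≠ p) (h5 : h ≠ q) (h6 : p ≠ q) (hg : ends g = s(a, b)) (hh : ends h = s(b, c))
    (hp : ends p = s(c, d)) (hq : ends q = s(d, a)) :
    Removable ends g ∨ Removable ends h ∨ Removable ends p ∨ Removable ends q := by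
  have := final hloop c₀ hc₀ 4 (by norm_num) (by norm_num) ![a, b, c, d] ![g, h, p, q] (by
      intro i j hij
      fin_cases i <;> fin_cases j
      · rfl
      · exact absurd hij h1
      · exact absurd hij h2
      · exact absurd hij h3
      · exact absurd hij h1.symm
      · rfl
      · exact absurd hij h4
      · exact absurd hij h5
      · exact absurd hij h2.symm
      · exact absurd hij h4.symm
      · rfl
      · exact absurd hij h6
      · exact absurd hij h3.symm
      · exact absurd hij h5.symm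
      · exact absurd hij h6.symm
      · rfl) (by
      intro i
      fin_cases i
      · exact hg
      · exact hh
      · exact hp
      · exact hq)
  obtain ⟨i, hi⟩ := this
  fin_cases i
  · exact .inl hi
  · exact .inr (.inl hi)
  · exact .inr (.inr (.inl hi))
  · exact .inr (.inr (.inr hi))

end fou

end Pool.Agent.H.MP_bcbcf8_co
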