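import Pool.Agent.H.MP_bcbcf8_co.BG.Fin
import Pool.Agent.H.MP_bcbcf8_co.BG.Dih

/-!
# A Kempe switch behind an edge cut with four edges
-/

set_option autoImplicit false

namespace Pool.Agent.H.MP_bcbcf8_co

open Finset

section kem

variable {V E : Type} {ends : E → Sym2 V}

/-- the colouring `c` is proper at the vertices in `W` -/
def PrAt (ends : E → Sym2 V) (W : Set V) (c : E → Fin 3) : Prop :=
  ∀ v ∈ W, ∀ f g, v ∈ ends f → v ∈ ends g → f ≠ g → c f ≠ c g

/-- exchange of the colours `i` and `j` -/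
def xch (i j x : Fin 3) : Fin 3 := if x = i then j else if x = j then i else x

theorem xch_xch : ∀ i j x : Fin 3, xch i j (xch i j x) = x := by decide

theorem xch_or : ∀ i j x : Fin 3, (x = i ∨ x = j) → (xch i j x = i ∨ xch i j x = j) := by decide

theorem xch_ne : ∀ i j x : Fin 3, i ≠ j → (x = i ∨ x = j) → xch i j x ≠ x := by decide

theorem xch_other : ∀ i j x y : Fin 3, (x = i ∨ x = j) → (y = i ∨ y = j) → x ≠ y →
    xch i j x = y := by decide

/-- a Kempe switch starting at the boundary edge `f 0` changes exactly one more boundary edge -/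
theorem kem_switch [Finite V] [Finite E] (hloop : ∀ g, ¬ (ends g).IsDiag)
    (hcub : ∀ v, {g | v ∈ ends g}.ncard = 3) {W : Set V} {c : E → Fin 3} (hc : PrAt ends W c)
    (f : Fin 4 → E) (hf : Function.Injective f) (hB : ∀ g, g ∈ Bd ends W ↔ ∃ l, f l = g)
    {i j : Fin 3} (hij : i ≠ j) (hcf : ∀ l, c (f l) = i ∨ c (f l) = j) :
    ∃ c', PrAt ends W c' ∧ ∃ m : Fin 4, m ≠ 0 ∧
      ∀ l, c' (f l) = if l = 0 ∨ l = m then xch i j (c (f l)) else c (f l) := by
  classical
  have := Fintype.ofFinite V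
  have := Fintype.ofFinite E
  choose a b hab using bg_repr ends
  have hmem : ∀ g w, w ∈ ends g ↔ w = a g ∨ w = b g := fun g w => by rw [hab g, Sym2.mem_iff]
  have hne : ∀ g, a g ≠ b g := by
    intro g h
    apply hloop g
    rw [hab g, h]
    exact Sym2.mk_isDiag_iff.2 rfl
  -- the edge of colour `t` at `w`
  have hone : ∀ w ∈ W, ∀ t, ∃ g, w ∈ ends g ∧ c g = t := by
    intro w hw t
    have h1 := bg_one hcub (w := w) (c := c) (hc w hw) (K := fun _ => True)
      (fun _ _ => trivial) t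
    obtain ⟨g, hg⟩ := card_eq_one.1 h1
    have h2 : g ∈ ({g | (True ∧ c g = t) ∧ w ∈ ends g} : Finset E) := by rw [hg]; simp
    rw [mem_filter] at h2
    exact ⟨g, h2.2.2, h2.2.1.2⟩
  have : Nonempty E := ⟨f 0⟩
  choose! ed hed1 hed2 using hone
  have huniq : ∀ w ∈ W, ∀ g h, w ∈ ends g → w ∈ ends h → c g = c h → g = h := by
    intro w hw g h hg hh heq
    by_contra hgh
    exact hc w hw g h hg hh hgh heq
  let D := {p : V × E // p.1 ∈ W ∧ p.1 ∈ ends p.2 ∧ (c p.2 = i ∨ c p.2 = j)}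
  let σ : D → D := fun p => ⟨(p.1.1, ed p.1.1 (xch i j (c p.1.2))), p.2.1, hed1 _ p.2.1 _, by
    rw [hed2 _ p.2.1]
    exact xch_or i j _ p.2.2.2⟩
  -- the other end
  let oth : V → E → V := fun w g => if w = a g then b g else a g
  have oth_mem : ∀ w g, w ∈ ends g → oth w g ∈ ends g := by
    intro w g hw
    rw [hmem]
    by_cases h : w = a g
    · right; simp [oth, h]
    · left; simp [oth, h]
  have oth_oth : ∀ w g, w ∈ ends g → oth (oth w g) g = w := by
    intro w g hw
    rw [hmem] at hw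
    by_cases h : w = a g
    · simp [oth, h, (hne g).symm]
    · have h2 : w = b g := by tauto
      simp [oth, h, h2]
  have mem_oth : ∀ w v g, w ∈ ends g → v ∈ ends g → v = w ∨ v = oth w g := by
    intro w v g hw hv
    rw [hmem] at hw hv
    by_cases h : w = a g
    · have : oth w g = b g := by simp [oth, h]
      rw [this]
      rcases hv with h1 | h1
      · left; rw [h1, h]
      · right; exact h1
    · have h2 : w = b g := by tauto
      have : oth w g = a g := by simp [oth, h]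
      rw [this]
      rcases hv with h1 | h1
      · right; exact h1
      · left; rw [h1, h2]
  have oth_ne : ∀ w g, w ∈ ends g → oth w g ≠ w := by
    intro w g hw h
    rw [hmem] at hw
    by_cases h1 : w = a g
    · simp only [oth, h1, if_true] at h
      exact hne g h.symm
    · have h2 : w = b g := by tauto
      simp only [oth, if_neg h1] at h
      exact h1 h.symm
  let τ : D → D := fun p => if h : oth p.1.1 p.1.2 ∈ W then
    ⟨(oth p.1.1 p.1.2, p.1.2), h, oth_mem _ _ p.2.2.1, p.2.2.2⟩ else p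
  have τ1 : ∀ p : D, ∀ h : oth p.1.1 p.1.2 ∈ W, τ p =
      ⟨(oth p.1.1 p.1.2, p.1.2), h, oth_mem _ _ p.2.2.1, p.2.2.2⟩ := fun p h => dif_pos h
  have τ2 : ∀ p : D, oth p.1.1 p.1.2 ∉ W → τ p = p := fun p h => dif_neg h
  have hσσ : ∀ d, σ (σ d) = d := by
    rintro ⟨⟨w, g⟩, hw, hg, hcg⟩
    apply Subtype.ext
    apply Prod.ext
    · rfl
    · change ed w (xch i j (c (ed w (xch i j (c g))))) = g
      rw [hed2 w hw, xch_xch]
      exact huniq w hw _ _ (hed1 w hw _) hg (hed2 w hw _)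
  have hσf : ∀ d, σ d ≠ d := by
    rintro ⟨⟨w, g⟩, hw, hg, hcg⟩ h
    have h1 : ed w (xch i j (c g)) = g := congrArg (fun d : D => d.1.2) h
    have h2 := hed2 w hw (xch i j (c g))
    rw [h1] at h2
    exact xch_ne i j _ hij hcg h2.symm
  have hττ : ∀ d, τ (τ d) = d := by
    rintro ⟨⟨w, g⟩, hw, hg, hcg⟩
    by_cases h : oth w g ∈ W
    · rw [τ1 ⟨(w, g), hw, hg, hcg⟩ h]
      have h2 : oth (oth w g) g ∈ W := by rw [oth_oth w g hg]; exact hw
      rw [τ1 ⟨(oth w g, g), h, oth_mem w g hg, hcg⟩ h2]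
      apply Subtype.ext
      apply Prod.ext
      · exact oth_oth w g hg
      · rfl
    · rw [τ2 ⟨(w, g), hw, hg, hcg⟩ h, τ2 ⟨(w, g), hw, hg, hcg⟩ h]
  -- the ends in `W` of the boundary edges
  have hwl : ∀ l, ∃ w ∈ W, w ∈ ends (f l) ∧ oth w (f l) ∉ W := by
    intro l
    obtain ⟨x, hx, y, hy, h⟩ := (hB (f l)).2 ⟨l, rfl⟩
    have hxm : x ∈ ends (f l) := by rw [h]; exact Sym2.mem_mk_left _ _
    have hym : y ∈ ends (f l) := by rw [h]; exact Sym2.mem_mk_right _ _
    refine ⟨x, hx, hxm, ?_⟩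
    rcases mem_oth x y (f l) hxm hym with h1 | h1
    · exact absurd hx (h1 ▸ hy)
    · rw [← h1]; exact hy
  choose wl hwl1 hwl2 hwl3 using hwl
  let dl : Fin 4 → D := fun l => ⟨(wl l, f l), hwl1 l, hwl2 l, hcf l⟩
  have hdl : ∀ l, τ (dl l) = dl l := fun l => τ2 _ (hwl3 l)
  obtain ⟨K, hK0, hKσ, hKτ, d₁, hd₁K, hd₁0, hd₁τ, hKf⟩ := dih σ τ hσσ hττ hσf (dl 0) (hdl 0)
  -- the fixed points of `τ` are the boundary darts
  have hfix : ∀ d, τ d = d → ∃ l, d = dl l := by
    rintro ⟨⟨w, g⟩, hw, hg, hcg⟩ h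
    have h1 : oth w g ∉ W := by
      intro h1
      rw [τ1 ⟨(w, g), hw, hg, hcg⟩ h1] at h
      exact oth_ne w g hg (congrArg (fun d : D => d.1.1) h)
    have h2 : g ∈ Bd ends W := by
      refine ⟨w, hw, oth w g, h1, ?_⟩
      rw [hab g]
      rw [hmem] at hg
      by_cases h3 : w = a g
      · have : oth w g = b g := by simp [oth, h3]
        rw [this, h3]
      · have h4 : w = b g := by tauto
        have : oth w g = a g := by simp [oth, h3]
        rw [this, h4]
        exact Sym2.eq_swap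
    obtain ⟨l, hl⟩ := (hB g).1 h2
    subst hl
    refine ⟨l, ?_⟩
    apply Subtype.ext
    apply Prod.ext
    · rcases mem_oth w (wl l) (f l) hg (hwl2 l) with h3 | h3
      · exact h3.symm
      · exact absurd (hwl1 l) (h3 ▸ h1)
    · rfl
  obtain ⟨m, hm⟩ := hfix d₁ hd₁τ
  have hm0 : m ≠ 0 := by
    rintro rfl
    exact hd₁0 hm
  -- the switch
  have hKs : ∀ w g (hw : w ∈ W) (hg : w ∈ ends g) (hcg : c g = i ∨ c g = j),
      (∃ d ∈ K, d.1.2 = g) → (⟨(w, g), hw, hg, hcg⟩ : D) ∈ K := by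
    rintro w g hw hg hcg ⟨⟨⟨v, g'⟩, hv, hg', hcg'⟩, hdK, rfl⟩
    rcases mem_oth v w g' hg' hg with h1 | h1
    · subst h1
      exact hdK
    · have h2 : oth v g' ∈ W := h1 ▸ hw
      have h3 := hKτ _ hdK
      rw [τ1 ⟨(v, g'), hv, hg', hcg'⟩ h2] at h3
      subst h1
      exact h3
  refine ⟨fun g => if ∃ d ∈ K, d.1.2 = g then xch i j (c g) else c g, ?_, m, hm0, ?_⟩
  · intro w hw g h hg hh hgh
    have hne' := hc w hw g h hg hh hgh
    have key : ∀ p q, w ∈ ends p → w ∈ ends q → c p ≠ c q → (c p = i ∨ c p = j) →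
        (c q = i ∨ c q = j) → (∃ d ∈ K, d.1.2 = p) → ∃ d ∈ K, d.1.2 = q := by
      intro p q hp hq hpq hcp hcq hKp
      have h1 := hKσ _ (hKs w p hw hp hcp hKp)
      refine ⟨_, h1, ?_⟩
      change ed w (xch i j (c p)) = q
      apply huniq w hw _ _ (hed1 w hw _) hq
      rw [hed2 w hw]
      exact xch_other i j _ _ hcp hcq hpq
    have hKc : ∀ p, (∃ d ∈ K, d.1.2 = p) → (c p = i ∨ c p = j) := by
      rintro p ⟨d, -, rfl⟩
      exact d.2.2.2
    have fin1 : ∀ i j x y : Fin 3, x ≠ y → xch i j x ≠ xch i j y := by decide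
    have fin2 : ∀ i j x y : Fin 3, i ≠ j → x ≠ y → (x = i ∨ x = j) → ¬ (y = i ∨ y = j) →
        xch i j x ≠ y := by decide
    by_cases hg' : ∃ d ∈ K, d.1.2 = g
    · by_cases hh' : ∃ d ∈ K, d.1.2 = h
      · simp only [if_pos hg', if_pos hh']
        exact fin1 i j _ _ hne'
      · simp only [if_pos hg', if_neg hh']
        apply fin2 i j _ _ hij hne' (hKc g hg')
        intro h1
        exact hh' (key g h hg hh hne' (hKc g hg') h1 hg')
    · by_cases hh' : ∃ d ∈ K, d.1.2 = h
      · simp only [if_neg hg', if_pos hh']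
        apply Ne.symm
        apply fin2 i j _ _ hij hne'.symm (hKc h hh')
        intro h1
        exact hg' (key h g hh hg hne'.symm (hKc h hh') h1 hh')
      · simp only [if_neg hg', if_neg hh']
        exact hne'
  · intro l
    have h1 : (∃ d ∈ K, d.1.2 = f l) ↔ l = 0 ∨ l = m := by
      constructor
      · intro h
        have h2 := hKs (wl l) (f l) (hwl1 l) (hwl2 l) (hcf l) h
        rcases hKf _ h2 (hdl l) with h3 | h3
        · left
          exact hf (congrArg (fun d : D => d.1.2) h3)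
        · right
          rw [hm] at h3
          exact hf (congrArg (fun d : D => d.1.2) h3)
      · rintro (rfl | rfl)
        · exact ⟨_, hK0, rfl⟩
        · exact ⟨_, hd₁K, by rw [hm]⟩
    simp only [h1]

end kem

end Pool.Agent.H.MP_bcbcf8_co
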