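import Pool.Agent.H.MP_bcbcf8_co.BG.Par
import Pool.Agent.H.MP_bcbcf8_co.BG.Exi

/-!
# Almost bipartite cubic graphs: a minimal set with a boundary of two edges and no bad edge inside

`g₁ = a a'` inside `A` and `g₂ = b b'` outside `A` are the only edges which do not join `A` to its complement; `a'` and `b`
are not in `S`. Rewire `g₁ ↦ a b`, `g₂ ↦ a' b'`: this is a bipartite cubic graph, and the subsets of `S` have the same
boundaries. An edge inside `S` is removable there; outside `S` use the given colouring.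
-/

set_option autoImplicit false

namespace Pool.Agent.H.MP_bcbcf8_co

open Finset

section leaf

variable {V E : Type} {ends : E → Sym2 V}

theorem bg_bip_one [Finite V] [Finite E] {A : Set V} (hb : Bip ends A)
    (hcub : ∀ v, {g | v ∈ ends g}.ncard = 3) (S : Set V) : (Bd ends S).ncard ≠ 1 := by
  classical
  have hloop : ∀ g, ¬ (ends g).IsDiag := by
    intro g hg
    obtain ⟨u, hu, v, hv, h⟩ := hb g
    rw [h, Sym2.mk_isDiag_iff] at hg
    exact hv (hg ▸ hu)
  have := Fintype.ofFinite V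
  have := Fintype.ofFinite E
  choose a haA b hbA hab using hb
  have hB : ∀ (S : Set V) g, g ∈ Bd ends S ↔ ¬ (a g ∈ S ↔ b g ∈ S) := fun S g => nb_bd (hab g) S
  have hBc : ∀ S : Set V, (Bd ends S).ncard = #{g | ¬ (a g ∈ S ↔ b g ∈ S)} := by
    intro S
    rw [← Set.ncard_coe_finset]
    congr 1
    ext g
    simp [hB]
  -- `S ∩ A` and `S \ A`
  have h1 := bg_count hloop (fun _ => True) (S ∩ A)
  have h2 := bg_count hloop (fun _ => True) (S \ A)
  simp only [true_and] at h1 h2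
  rw [sum_congr rfl fun w _ => bg_card hcub w, sum_const, smul_eq_mul] at h1 h2
  have i1 : #{g | ∀ w ∈ ends g, w ∈ S ∩ A} = 0 := by
    rw [card_eq_zero, filter_eq_empty_iff]
    intro g _ h
    exact hbA g (h (b g) (by rw [hab g]; exact Sym2.mem_mk_right _ _)).2
  have i2 : #{g | ∀ w ∈ ends g, w ∈ S \ A} = 0 := by
    rw [card_eq_zero, filter_eq_empty_iff]
    intro g _ h
    exact (h (a g) (by rw [hab g]; exact Sym2.mem_mk_left _ _)).2 (haA g)
  have j1 : #{g | g ∈ Bd ends (S ∩ A)} = #{g | a g ∈ S ∧ b g ∈ S} + #{g | a g ∈ S ∧ b g ∉ S} := by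
    rw [← card_union_of_disjoint]
    · congr 1
      ext g
      simp only [mem_filter, mem_union, mem_univ, true_and, hB, Set.mem_inter_iff]
      have := haA g
      have := hbA g
      tauto
    · rw [disjoint_filter]
      tauto
  have j2 : #{g | g ∈ Bd ends (S \ A)} = #{g | a g ∈ S ∧ b g ∈ S} + #{g | a g ∉ S ∧ b g ∈ S} := by
    rw [← card_union_of_disjoint]
    · congr 1
      ext g
      simp only [mem_filter, mem_union, mem_univ, true_and, hB, Set.mem_sdiff]
      have := haA g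
      have := hbA g
      tauto
    · rw [disjoint_filter]
      tauto
  have j3 : (Bd ends S).ncard = #{g | a g ∈ S ∧ b g ∉ S} + #{g | a g ∉ S ∧ b g ∈ S} := by
    rw [hBc, ← card_union_of_disjoint]
    · congr 1
      ext g
      simp only [mem_filter, mem_union, mem_univ, true_and]
      tauto
    · rw [disjoint_filter]
      tauto
  omega

/-- an edge inside a minimal 2-edge-cut set without bad edges is removable -/
theorem leaf_removable [Finite V] [Finite E] {A : Set V} (hloop : ∀ g, ¬ (ends g).IsDiag)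
    (hcub : ∀ v, {g | v ∈ ends g}.ncard = 3) {c₀ : E → Fin 3} (hc₀ : IsCol ends c₀) {g₁ g₂ : E}
    {a a' b b' : V} (ha : a ∈ A) (ha' : a' ∈ A) (hb : b ∉ A) (hb' : b' ∉ A)
    (h1 : ends g₁ = s(a, a')) (h2 : ends g₂ = s(b, b')) (haa : a ≠ a') (hbb : b ≠ b')
    (hgood : ∀ g, g ≠ g₁ → g ≠ g₂ → ∃ u ∈ A, ∃ v ∉ A, ends g = s(u, v)) {S : Set V}
    (hS : (Bd ends S).ncard = 2) (haS : a' ∉ S) (hbS : b ∉ S)
    (hmin : ∀ R, R ⊆ S → (Bd ends R).ncard = 2 → R = S) :
    ∃ e, (∀ w ∈ ends e, w ∈ S) ∧ Removable ends e := by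
  classical
  have := Fintype.ofFinite V
  have := Fintype.ofFinite E
  have nAB : ∀ {x y : V}, x ∈ A → y ∉ A → x ≠ y := fun hx hy h => hy (h ▸ hx)
  have h12 : g₁ ≠ g₂ := by
    rintro rfl
    have h3 : a ∈ ends g₁ := by rw [h1]; exact Sym2.mem_mk_left _ _
    rw [h2, Sym2.mem_iff] at h3
    rcases h3 with h3 | h3
    · exact nAB ha hb h3
    · exact nAB ha hb' h3
  let ends' : E → Sym2 V := fun g =>
    if g = g₁ then s(a, b) else if g = g₂ then s(a', b') else ends g
  have e1 : ends' g₁ = s(a, b) := by simp [ends']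
  have e2 : ends' g₂ = s(a', b') := by simp [ends', h12.symm]
  have eo : ∀ g, g ≠ g₁ → g ≠ g₂ → ends' g = ends g := by
    intro g h3 h4
    simp [ends', h3, h4]
  have hbip' : Bip ends' A := by
    intro g
    by_cases h3 : g = g₁
    · subst h3; exact ⟨a, ha, b, hb, e1⟩
    by_cases h4 : g = g₂
    · subst h4; exact ⟨a', ha', b', hb', e2⟩
    rw [eo g h3 h4]
    exact hgood g h3 h4
  have hcub' : ∀ v, {g | v ∈ ends' g}.ncard = 3 := by
    intro v
    rw [← hcub v, nb_ncard, nb_ncard]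
    have h3 := nb_sum {g₁, g₂} (fun g => if g ∈ {g | v ∈ ends' g} then 1 else 0)
      (fun g => if g ∈ {g | v ∈ ends g} then 1 else 0) (by
        intro g hg
        simp only [mem_insert, mem_singleton, not_or] at hg
        simp only [Set.mem_ofPred_eq, eo g hg.1 hg.2])
    rw [sum_pair h12, sum_pair h12] at h3
    simp only [Set.mem_ofPred_eq, e1, e2, h1, h2] at h3
    rw [nb_mem v a a' haa, nb_mem v b b' hbb, nb_mem v a b (nAB ha hb),
      nb_mem v a' b' (nAB ha' hb')] at h3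
    simp only [Set.mem_ofPred_eq]
    omega
  have hloop' : ∀ g, ¬ (ends' g).IsDiag := by
    intro g hg
    obtain ⟨u, hu, v, hv, h⟩ := hbip' g
    rw [h, Sym2.mk_isDiag_iff] at hg
    exact hv (hg ▸ hu)
  -- the same incidences and boundaries in `S`
  have inc : ∀ v ∈ S, ∀ g, v ∈ ends' g ↔ v ∈ ends g := by
    intro v hv g
    have hva : v ≠ a' := fun h => haS (h ▸ hv)
    have hvb : v ≠ b := fun h => hbS (h ▸ hv)
    by_cases h3 : g = g₁
    · subst h3
      rw [e1, h1, Sym2.mem_iff, Sym2.mem_iff]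
      tauto
    by_cases h4 : g = g₂
    · subst h4
      rw [e2, h2, Sym2.mem_iff, Sym2.mem_iff]
      tauto
    rw [eo g h3 h4]
  have bd : ∀ R, R ⊆ S → Bd ends' R = Bd ends R := by
    intro R hR
    ext g
    have haR : a' ∉ R := fun h => haS (hR h)
    have hbR : b ∉ R := fun h => hbS (hR h)
    by_cases h3 : g = g₁
    · subst h3
      rw [nb_bd e1, nb_bd h1]
      tauto
    by_cases h4 : g = g₂
    · subst h4
      rw [nb_bd e2, nb_bd h2]
      tauto
    obtain ⟨x, y, h⟩ := bg_repr ends g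
    rw [nb_bd h, nb_bd ((eo g h3 h4).trans h)]
  have hS' : (Bd ends' S).ncard = 2 := by rw [bd S subset_rfl, hS]
  obtain ⟨e, heS⟩ := bg_inner hloop' hcub' hS'
  have hcut := bg_uncross (bg_bip_one hbip' hcub') hS'
    (fun R hR h => hmin R hR (by rw [← bd R hR, h])) heS
  obtain ⟨c, hc1, hc2⟩ := removable_of_not_inCut hbip' hcub' hcut
  have he1 : e ≠ g₁ := by
    rintro rfl
    exact hbS (heS b (by rw [e1]; exact Sym2.mem_mk_right _ _))
  have he2 : e ≠ g₂ := by
    rintro rfl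
    exact haS (heS a' (by rw [e2]; exact Sym2.mem_mk_left _ _))
  have hee : ends' e = ends e := eo e he1 he2
  obtain ⟨f, f', hff, hB'⟩ := Set.ncard_eq_two.1 hS'
  have hB : Bd ends S = {f, f'} := by rw [← bd S subset_rfl, hB']
  have hcf := bg_rem_pair hloop' hcub' hc1 hc2 heS hff hB'
  have hcf₀ := bg_col_pair hloop hcub hc₀ hff hB
  rw [hee] at hc1 hc2 heS
  obtain ⟨π, hπ⟩ : ∃ π : Equiv.Perm (Fin 3), π (c₀ f) = c f := ⟨Equiv.swap (c₀ f) (c f), by simp⟩
  obtain ⟨d, hd1, hd2⟩ : ∃ d : E → Fin 3, (∀ g, (∃ w ∈ S, w ∈ ends g) → d g = c g) ∧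
      ∀ g, ¬ (∃ w ∈ S, w ∈ ends g) → d g = π (c₀ g) := by
    refine ⟨fun g => if ∃ w ∈ S, w ∈ ends g then c g else π (c₀ g), ?_, ?_⟩
    · intro g hg
      simp only [if_pos hg]
    · intro g hg
      simp only [if_neg hg]
  have hd : ∀ v ∉ S, ∀ g, v ∈ ends g → d g = π (c₀ g) := by
    intro v hv g hg
    by_cases h3 : ∃ w ∈ S, w ∈ ends g
    · rw [hd1 g h3]
      obtain ⟨w, hw, hwg⟩ := h3
      have h4 : g ∈ Bd ends S := by
        obtain ⟨x, y, h⟩ := bg_repr ends g
        rw [nb_bd h]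
        rw [h, Sym2.mem_iff] at hg hwg
        rcases hg with rfl | rfl <;> rcases hwg with rfl | rfl <;> tauto
      rw [hB] at h4
      rcases h4 with h4 | h4
      · rw [h4, hπ]
      · rw [Set.mem_singleton_iff] at h4
        rw [h4, ← hcf, ← hcf₀, hπ]
    · exact hd2 g h3
  refine ⟨e, heS, d, ?_, ?_⟩
  · intro v p q hve hvp hvq hpq
    by_cases hvS : v ∈ S
    · rw [hd1 p ⟨v, hvS, hvp⟩, hd1 q ⟨v, hvS, hvq⟩]
      exact hc1 v p q hve ((inc v hvS p).2 hvp) ((inc v hvS q).2 hvq) hpq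
    · rw [hd v hvS p hvp, hd v hvS q hvq]
      exact fun h => hc₀ v p q hvp hvq hpq (π.injective h)
  · intro v p q hve hvp hvq hpe hqe
    have hvS : v ∈ S := heS v hve
    rw [hd1 p ⟨v, hvS, hvp⟩, hd1 q ⟨v, hvS, hvq⟩]
    exact hc2 v p q hve ((inc v hvS p).2 hvp) ((inc v hvS q).2 hvq) hpe hqe

end leaf

end Pool.Agent.H.MP_bcbcf8_co
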