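import Pool.Agent.H.MP_bcbcf8_co.BG.Alm

/-!
# Almost bipartite parts behind an edge cut with at most three edges

For a set `S` of vertices with a boundary of three edges, contract the complement of `S` to one vertex `none`. A removable
edge of the contracted graph which is not at `none` is removable in the given graph.
-/

set_option autoImplicit false

namespace Pool.Agent.H.MP_bcbcf8_co

open Finset

section loc

variable {V E : Type}

open Classical in
/-- the contraction of the complement of `S` to `none` -/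
noncomputable def conV (S : Set V) (v : V) : Option {v // v ∈ S} :=
  if h : v ∈ S then some ⟨v, h⟩ else none

/-- the contracted graph: the edges with an end in `S` -/
noncomputable def conEnds (ends : E → Sym2 V) (S : Set V) (g : {g : E // ∃ w ∈ S, w ∈ ends g}) :
    Sym2 (Option {v // v ∈ S}) := (ends g.1).map (conV S)

variable {ends : E → Sym2 V} {S : Set V}

theorem con_some {g : {g : E // ∃ w ∈ S, w ∈ ends g}} {v : {v // v ∈ S}} :
    some v ∈ conEnds ends S g ↔ v.1 ∈ ends g.1 := by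
  rw [conEnds, Sym2.mem_map]
  constructor
  · rintro ⟨a, ha, h⟩
    rw [conV] at h
    split_ifs at h with h1
    rw [Option.some_inj] at h
    rw [← h]
    exact ha
  · intro h
    refine ⟨v.1, h, ?_⟩
    rw [conV, dif_pos v.2]

theorem con_none {g : {g : E // ∃ w ∈ S, w ∈ ends g}} :
    none ∈ conEnds ends S g ↔ g.1 ∈ Bd ends S := by
  rw [conEnds, Sym2.mem_map]
  constructor
  · rintro ⟨a, ha, h⟩
    have haS : a ∉ S := by
      intro h1
      rw [conV, dif_pos h1] at h
      simp at h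
    obtain ⟨w, hw, hwg⟩ := g.2
    obtain ⟨x, y, hxy⟩ := bg_repr ends g.1
    rw [nb_bd hxy]
    rw [hxy, Sym2.mem_iff] at ha hwg
    rcases ha with rfl | rfl <;> rcases hwg with rfl | rfl <;> tauto
  · rintro ⟨x, -, y, hy, h⟩
    refine ⟨y, by rw [h]; exact Sym2.mem_mk_right _ _, ?_⟩
    rw [conV, dif_neg hy]

/-- three boundary edges of a 3-edge-coloured cubic graph have different colours -/
theorem con_inj [Finite V] [Finite E] (hloop : ∀ g, ¬ (ends g).IsDiag)
    (hcub : ∀ v, {g | v ∈ ends g}.ncard = 3) {c : E → Fin 3} (hc : IsCol ends c)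
    (h3 : (Bd ends S).ncard = 3) {f g : E} (hf : f ∈ Bd ends S) (hg : g ∈ Bd ends S)
    (hfg : f ≠ g) : c f ≠ c g := by
  classical
  have := Fintype.ofFinite E
  intro hcfg
  have key := fun j => bg_col_parity hloop hcub hc S j (c f)
  have htot : ∑ j : Fin 3, #{g | (True ∧ c g = j) ∧ g ∈ Bd ends S} = 3 := by
    refine Eq.trans ?_ h3
    rw [nb_ncard, ← card_filter,
      card_eq_sum_card_fiberwise (f := c) (s := {g | g ∈ Bd ends S}) (t := univ)
        (fun _ _ => by simp)]
    refine sum_congr rfl fun j _ => ?_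
    congr 1
    ext g
    simp only [mem_filter, mem_univ, true_and]
    tauto
  have h2 : 2 ≤ #{g | (True ∧ c g = c f) ∧ g ∈ Bd ends S} := by
    rw [← card_pair hfg]
    apply card_le_card
    intro h hh
    rw [mem_insert, mem_singleton] at hh
    rw [mem_filter]
    rcases hh with rfl | rfl
    · exact ⟨mem_univ _, ⟨trivial, rfl⟩, hf⟩
    · exact ⟨mem_univ _, ⟨trivial, hcfg.symm⟩, hg⟩
  rw [Fin.sum_univ_three] at htot
  have k0 := key 0
  have k1 := key 1
  have k2 := key 2
  obtain hj | hj | hj : c f = 0 ∨ c f = 1 ∨ c f = 2 := by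
    generalize c f = x
    revert x
    decide
  all_goals
    rw [hj] at h2 k0 k1 k2
    omega

theorem loc_three [Finite V] [Finite E] {A : Set V} (hloop : ∀ g, ¬ (ends g).IsDiag)
    (hcub : ∀ v, {g | v ∈ ends g}.ncard = 3) (hcol : ∃ c : E → Fin 3, IsCol ends c)
    (h3 : (Bd ends S).ncard = 3) (hS : 1 < S.ncard)
    (hX : {g | ∀ w ∈ ends g, w ∈ S ∩ A}.ncard ≤ 1)
    (hY : {g | ∀ w ∈ ends g, w ∈ S \ A}.ncard ≤ 1) :
    ∃ e, (∀ w ∈ ends e, w ∈ S) ∧ Removable ends e := by
  classical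
  have := Fintype.ofFinite V
  have := Fintype.ofFinite E
  obtain ⟨c₀, hc₀⟩ := hcol
  have hinj₀ : ∀ f g, f ∈ Bd ends S → g ∈ Bd ends S → f ≠ g → c₀ f ≠ c₀ g :=
    fun f g hf hg => con_inj hloop hcub hc₀ h3 hf hg
  have hbe : ∀ g ∈ Bd ends S, ∃ w ∈ S, w ∈ ends g := by
    rintro g ⟨x, hx, y, -, h⟩
    exact ⟨x, hx, by rw [h]; exact Sym2.mem_mk_left _ _⟩
  -- the contracted graph
  have hloop' : ∀ g, ¬ (conEnds ends S g).IsDiag := by
    intro g hg
    obtain ⟨w, hw, hwg⟩ := g.2
    obtain ⟨y, hxy⟩ := Sym2.mem_iff_exists.1 hwg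
    rw [conEnds, hxy, Sym2.map_mk, Sym2.mk_isDiag_iff, conV, dif_pos hw] at hg
    rw [conV] at hg
    split_ifs at hg with h1
    rw [Option.some_inj, Subtype.mk.injEq] at hg
    apply hloop g.1
    rw [hxy, ← hg]
    exact Sym2.mk_isDiag_iff.2 rfl
  have hcub' : ∀ v, {g | v ∈ conEnds ends S g}.ncard = 3 := by
    rintro (- | v)
    · rw [← h3, ← Set.ncard_image_of_injective _ Subtype.val_injective]
      congr 1
      ext g
      simp only [Set.mem_image, Set.mem_ofPred_eq, con_none]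
      constructor
      · rintro ⟨g', hg', rfl⟩
        exact hg'
      · intro hg
        exact ⟨⟨g, hbe g hg⟩, hg, rfl⟩
    · rw [← hcub v.1, ← Set.ncard_image_of_injective _ Subtype.val_injective]
      congr 1
      ext g
      simp only [Set.mem_image, Set.mem_ofPred_eq, con_some]
      constructor
      · rintro ⟨g', hg', rfl⟩
        exact hg'
      · intro hg
        exact ⟨⟨g, v.1, v.2, hg⟩, hg, rfl⟩
  have hcol' : IsCol (conEnds ends S) fun g => c₀ g.1 := by
    rintro (- | v) f g hf hg hfg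
    · exact hinj₀ f.1 g.1 (con_none.1 hf) (con_none.1 hg) fun h => hfg (Subtype.ext h)
    · exact hc₀ v.1 f.1 g.1 (con_some.1 hf) (con_some.1 hg) fun h => hfg (Subtype.ext h)
  have hcard : 2 < Nat.card (Option {v // v ∈ S}) := by
    rw [Nat.card_eq_fintype_card, Fintype.card_option, ← Nat.card_eq_fintype_card,
      Nat.card_coe_set_eq]
    omega
  -- the classes
  have main : ∃ B : Set (Option {v // v ∈ S}),
      {g | ∀ w ∈ conEnds ends S g, w ∈ B}.ncard ≤ 1 ∧
      {g | ∀ w ∈ conEnds ends S g, w ∈ Bᶜ}.ncard ≤ 1 := by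
    -- inner edges of the contracted graph
    have hin : ∀ (B : Set (Option {v // v ∈ S})) (A' : Set V), none ∉ B →
        (∀ v : {v // v ∈ S}, some v ∈ B ↔ v.1 ∈ A') →
        {g | ∀ w ∈ conEnds ends S g, w ∈ B}.ncard = {g | ∀ w ∈ ends g, w ∈ S ∩ A'}.ncard := by
      intro B A' hB hB'
      rw [← Set.ncard_image_of_injective _ Subtype.val_injective]
      congr 1
      ext g
      simp only [Set.mem_image, Set.mem_ofPred_eq]
      constructor
      · rintro ⟨g', hg', rfl⟩ w hw
        have h1 : w ∈ S := by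
          by_contra hwS
          apply hB
          apply hg'
          rw [con_none]
          obtain ⟨x, hx, hxg⟩ := g'.2
          obtain ⟨p, q, hpq⟩ := bg_repr ends g'.1
          rw [nb_bd hpq]
          rw [hpq, Sym2.mem_iff] at hw hxg
          rcases hw with rfl | rfl <;> rcases hxg with rfl | rfl <;> tauto
        exact ⟨h1, (hB' ⟨w, h1⟩).1 (hg' _ (con_some.2 hw))⟩
      · intro hg
        obtain ⟨x, y, hxy⟩ := bg_repr ends g
        have hx : x ∈ ends g := by rw [hxy]; exact Sym2.mem_mk_left _ _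
        refine ⟨⟨g, x, (hg x hx).1, hx⟩, ?_, rfl⟩
        rintro (- | w) hw
        · rw [con_none] at hw
          obtain ⟨p, -, q, hq, h⟩ := hw
          exact absurd (hg q (by rw [h]; exact Sym2.mem_mk_right _ _)).1 hq
        · exact (hB' w).2 (hg w.1 (con_some.1 hw)).2
    have k1 : ∀ B : Set (Option {v // v ∈ S}), ∃ m n : ℕ,
        2 * {g | ∀ w ∈ conEnds ends S g, w ∈ B}.ncard + (Bd (conEnds ends S) B).ncard = 3 * m ∧
        2 * {g | ∀ w ∈ conEnds ends S g, w ∈ Bᶜ}.ncard + (Bd (conEnds ends S) B).ncard =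
          3 * n := by
      intro B
      have c1 := bg_count hloop' (fun _ => True) B
      have c2 := bg_count hloop' (fun _ => True) Bᶜ
      simp only [true_and, nb_bd_compl] at c1 c2
      rw [sum_congr rfl fun w _ => bg_card hcub' w, sum_const, smul_eq_mul] at c1 c2
      have n1 : {g | ∀ w ∈ conEnds ends S g, w ∈ B}.ncard =
          #{g | ∀ w ∈ conEnds ends S g, w ∈ B} := by
        rw [← Set.ncard_coe_finset]
        congr 1
        ext g
        simp
      have n2 : {g | ∀ w ∈ conEnds ends S g, w ∈ Bᶜ}.ncard =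
          #{g | ∀ w ∈ conEnds ends S g, w ∈ Bᶜ} := by
        rw [← Set.ncard_coe_finset]
        congr 1
        ext g
        simp
      have n3 : (Bd (conEnds ends S) B).ncard = #{g | g ∈ Bd (conEnds ends S) B} := by
        rw [← Set.ncard_coe_finset]
        congr 1
        ext g
        simp
      refine ⟨#{w | w ∈ B}, #{w | w ∈ Bᶜ}, ?_, ?_⟩
      · rw [n1, n3, ← c1, mul_comm]
      · rw [n2, n3, ← c2, mul_comm]
    -- `none` is put in the second class or in the first class
    obtain ⟨B₁, hB₁⟩ : ∃ B₁ : Set (Option {v // v ∈ S}), B₁ = {w | ∃ v, w = some v ∧ v.1 ∈ A} :=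
      ⟨_, rfl⟩
    obtain ⟨B₂, hB₂⟩ : ∃ B₂ : Set (Option {v // v ∈ S}), B₂ = {w | ∃ v, w = some v ∧ v.1 ∉ A} :=
      ⟨_, rfl⟩
    have x1 := hin B₁ A (by rw [hB₁]; rintro ⟨v, hv, -⟩; simp at hv) (by
      intro v
      rw [hB₁, Set.mem_ofPred_eq]
      constructor
      · rintro ⟨v', h, h'⟩
        rw [Option.some_inj] at h
        rw [h]
        exact h'
      · exact fun h => ⟨v, rfl, h⟩)
    have x2 := hin B₂ Aᶜ (by rw [hB₂]; rintro ⟨v, hv, -⟩; simp at hv) (by
      intro v
      rw [hB₂, Set.mem_ofPred_eq, Set.mem_compl_iff]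
      constructor
      · rintro ⟨v', h, h'⟩
        rw [Option.some_inj] at h
        rw [h]
        exact h'
      · exact fun h => ⟨v, rfl, h⟩)
    rw [← Set.sdiff_eq] at x2
    obtain ⟨m₁, n₁, e₁, e₂⟩ := k1 B₁
    obtain ⟨m₂, n₂, e₃, e₄⟩ := k1 B₂
    -- the edges inside the complements: those inside the other part, and the boundary edges
    have u1 : {g | ∀ w ∈ conEnds ends S g, w ∈ B₁ᶜ}.ncard +
        {g | ∀ w ∈ conEnds ends S g, w ∈ B₂ᶜ}.ncard ≤
        {g | ∀ w ∈ conEnds ends S g, w ∈ B₂}.ncard + {g | ∀ w ∈ conEnds ends S g, w ∈ B₁}.ncard +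
          3 := by
      have t1 : {g | ∀ w ∈ conEnds ends S g, w ∈ B₁ᶜ} ⊆
          {g | ∀ w ∈ conEnds ends S g, w ∈ B₂} ∪
            ({g | none ∈ conEnds ends S g} ∩ {g | ∀ w ∈ conEnds ends S g, w ∈ B₁ᶜ}) := by
        intro g hg
        by_cases h : none ∈ conEnds ends S g
        · exact .inr ⟨h, hg⟩
        · left
          rintro (- | w) hw
          · exact absurd hw h
          · rw [hB₂]
            refine ⟨w, rfl, fun h' => hg _ hw ?_⟩
            rw [hB₁]
            exact ⟨w, rfl, h'⟩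
      have t2 : {g | ∀ w ∈ conEnds ends S g, w ∈ B₂ᶜ} ⊆
          {g | ∀ w ∈ conEnds ends S g, w ∈ B₁} ∪
            ({g | none ∈ conEnds ends S g} ∩ {g | ∀ w ∈ conEnds ends S g, w ∈ B₂ᶜ}) := by
        intro g hg
        by_cases h : none ∈ conEnds ends S g
        · exact .inr ⟨h, hg⟩
        · left
          rintro (- | w) hw
          · exact absurd hw h
          · rw [hB₁]
            refine ⟨w, rfl, ?_⟩
            by_contra h'
            apply hg _ hw
            rw [hB₂]
            exact ⟨w, rfl, h'⟩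
      have t3 : ({g | none ∈ conEnds ends S g} ∩ {g | ∀ w ∈ conEnds ends S g, w ∈ B₁ᶜ}).ncard +
          ({g | none ∈ conEnds ends S g} ∩ {g | ∀ w ∈ conEnds ends S g, w ∈ B₂ᶜ}).ncard ≤ 3 := by
        rw [← Set.ncard_union_eq]
        · rw [← hcub' none]
          apply Set.ncard_le_ncard _ (Set.toFinite _)
          rintro g (hg | hg)
          · exact hg.1
          · exact hg.1
        · rw [Set.disjoint_left]
          rintro g ⟨hg1, hg2⟩ ⟨-, hg3⟩
          obtain ⟨w, hw, hwg⟩ := g.2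
          have h1 : some ⟨w, hw⟩ ∈ conEnds ends S g := con_some.2 hwg
          by_cases hwA : w ∈ A
          · exact hg2 _ h1 (by rw [hB₁]; exact ⟨_, rfl, hwA⟩)
          · exact hg3 _ h1 (by rw [hB₂]; exact ⟨_, rfl, hwA⟩)
      have t4 := Set.ncard_le_ncard t1 (Set.toFinite _)
      have t5 := Set.ncard_le_ncard t2 (Set.toFinite _)
      have t6 := Set.ncard_union_le {g | ∀ w ∈ conEnds ends S g, w ∈ B₂}
        ({g | none ∈ conEnds ends S g} ∩ {g | ∀ w ∈ conEnds ends S g, w ∈ B₁ᶜ})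
      have t7 := Set.ncard_union_le {g | ∀ w ∈ conEnds ends S g, w ∈ B₁}
        ({g | none ∈ conEnds ends S g} ∩ {g | ∀ w ∈ conEnds ends S g, w ∈ B₂ᶜ})
      omega
    rw [x1] at e₁ u1
    rw [x2] at e₃ u1
    by_cases hc : {g | ∀ w ∈ conEnds ends S g, w ∈ B₁ᶜ}.ncard ≤ 1
    · exact ⟨B₁, by rw [x1]; exact hX, hc⟩
    · refine ⟨B₂, by rw [x2]; exact hY, ?_⟩
      omega
  obtain ⟨B, hB1, hB2⟩ := main
  obtain ⟨e, hze, c, hc1, hc2⟩ := alm_main hloop' hcub' ⟨_, hcol'⟩ hB1 hB2 hcard none
  have heS : ∀ w ∈ ends e.1, w ∈ S := by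
    intro w hw
    by_contra hwS
    apply hze
    rw [con_none]
    obtain ⟨x, hx, hxg⟩ := e.2
    obtain ⟨p, q, hpq⟩ := bg_repr ends e.1
    rw [nb_bd hpq]
    rw [hpq, Sym2.mem_iff] at hw hxg
    rcases hw with rfl | rfl <;> rcases hxg with rfl | rfl <;> tauto
  -- the permutation of the colours
  obtain ⟨π, hπ⟩ : ∃ π : Equiv.Perm (Fin 3), ∀ g (h : g ∈ Bd ends S), π (c₀ g) = c ⟨g, hbe g h⟩ := by
    have b0 : Function.Bijective fun g : {g // g ∈ Bd ends S} => c₀ g.1 := by
      rw [Fintype.bijective_iff_injective_and_card]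
      constructor
      · intro f g h
        by_contra hfg
        exact hinj₀ f.1 g.1 f.2 g.2 (fun h' => hfg (Subtype.ext h')) h
      · rw [← Nat.card_eq_fintype_card, Nat.card_coe_set_eq, h3, Fintype.card_fin]
    have b1 : Function.Bijective fun g : {g // g ∈ Bd ends S} => c ⟨g.1, hbe g.1 g.2⟩ := by
      rw [Fintype.bijective_iff_injective_and_card]
      constructor
      · intro f g h
        by_contra hfg
        refine hc1 none _ _ hze (con_none.2 f.2) (con_none.2 g.2) ?_ h
        intro h'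
        exact hfg (Subtype.ext (Subtype.mk.inj h'))
      · rw [← Nat.card_eq_fintype_card, Nat.card_coe_set_eq, h3, Fintype.card_fin]
    refine ⟨(Equiv.ofBijective _ b0).symm.trans (Equiv.ofBijective _ b1), ?_⟩
    intro g h
    have h4 : (Equiv.ofBijective _ b0).symm (c₀ g) = ⟨g, h⟩ := by
      rw [Equiv.symm_apply_eq]
      rfl
    rw [Equiv.trans_apply, h4]
    rfl
  obtain ⟨d, hd1, hd2⟩ : ∃ d : E → Fin 3, (∀ g (h : ∃ w ∈ S, w ∈ ends g), d g = c ⟨g, h⟩) ∧
      ∀ g, ¬ (∃ w ∈ S, w ∈ ends g) → d g = π (c₀ g) := by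
    refine ⟨fun g => if h : ∃ w ∈ S, w ∈ ends g then c ⟨g, h⟩ else π (c₀ g), ?_, ?_⟩
    · intro g hg
      simp only [dif_pos hg]
    · intro g hg
      simp only [dif_neg hg]
  have hd : ∀ v ∉ S, ∀ g, v ∈ ends g → d g = π (c₀ g) := by
    intro v hv g hg
    by_cases h4 : ∃ w ∈ S, w ∈ ends g
    · rw [hd1 g h4]
      have h5 : g ∈ Bd ends S := by
        obtain ⟨w, hw, hwg⟩ := h4
        obtain ⟨x, y, h⟩ := bg_repr ends g
        rw [nb_bd h]
        rw [h, Sym2.mem_iff] at hg hwg
        rcases hg with rfl | rfl <;> rcases hwg with rfl | rfl <;> tauto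
      rw [hπ g h5]
    · exact hd2 g h4
  refine ⟨e.1, heS, d, ?_, ?_⟩
  · intro v p q hve hvp hvq hpq
    by_cases hvS : v ∈ S
    · rw [hd1 p ⟨v, hvS, hvp⟩, hd1 q ⟨v, hvS, hvq⟩]
      refine hc1 (some ⟨v, hvS⟩) _ _ (fun h => hve (con_some.1 h)) (con_some.2 hvp)
        (con_some.2 hvq) fun h => hpq (congrArg Subtype.val h)
    · rw [hd v hvS p hvp, hd v hvS q hvq]
      exact fun h => hc₀ v p q hvp hvq hpq (π.injective h)
  · intro v p q hve hvp hvq hpe hqe
    have hvS : v ∈ S := heS v hve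
    rw [hd1 p ⟨v, hvS, hvp⟩, hd1 q ⟨v, hvS, hvq⟩]
    exact hc2 (some ⟨v, hvS⟩) _ _ (con_some.2 hve) (con_some.2 hvp) (con_some.2 hvq)
      (fun h => hpe (congrArg Subtype.val h)) (fun h => hqe (congrArg Subtype.val h))

end loc

end Pool.Agent.H.MP_bcbcf8_co
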