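import Pool.Agent.H.MP_bcbcf8_co.BG.Ker

/-!
# Almost bipartite cubic graphs: the edges next to a bad edge

`g₁ = a a'` inside `A` and `g₂ = b b'` outside `A` are the only edges which do not join `A` to its complement, `e = a c` and
`k = a c'` are the other edges at `a`. Rewire `g₁ ↦ a' c'`, `k ↦ a b'`, `g₂ ↦ a b`: this is a bipartite cubic graph.
-/

set_option autoImplicit false

namespace Pool.Agent.H.MP_bcbcf8_co

open Finset

section rewire

variable {V E : Type} {ends : E → Sym2 V}

theorem nb_ncard [Fintype E] (s : Set E) [DecidablePred (· ∈ s)] :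
    s.ncard = ∑ g, if g ∈ s then 1 else 0 := by
  rw [← card_filter, ← Set.ncard_coe_finset]
  congr 1
  ext g
  simp

theorem nb_sum [Fintype E] [DecidableEq E] (D : Finset E) (f f' : E → ℕ)
    (h : ∀ g, g ∉ D → f g = f' g) :
    ∑ g, f g + ∑ g ∈ D, f' g = ∑ g, f' g + ∑ g ∈ D, f g := by
  rw [← sum_sdiff (subset_univ D) (f := f), ← sum_sdiff (subset_univ D) (f := f'),
    sum_congr rfl fun g hg => h g (mem_sdiff.1 hg).2]
  ring

theorem nb_mem (v x y : V) [DecidableEq V] (h : x ≠ y) : (if v ∈ s(x, y) then 1 else 0) =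
    (if v = x then 1 else 0) + (if v = y then 1 else 0) := by
  by_cases h1 : v = x
  · subst h1
    simp [h]
  · by_cases h2 : v = y
    · subst h2
      simp [h1]
    · simp [h1, h2]

theorem nb_bd {g : E} {x y : V} (h : ends g = s(x, y)) (S : Set V) :
    g ∈ Bd ends S ↔ ¬ (x ∈ S ↔ y ∈ S) := by
  constructor
  · rintro ⟨p, hp, q, hq, h'⟩
    rw [h, Sym2.eq_iff] at h'
    rcases h' with ⟨h1, h3⟩ | ⟨h1, h3⟩ <;> rw [h1, h3] <;> tauto
  · intro h'
    by_cases h1 : x ∈ S
    · exact ⟨x, h1, y, by tauto, h⟩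
    · exact ⟨y, by tauto, x, h1, by rw [h, Sym2.eq_swap]⟩

theorem nb_bd_compl (S : Set V) : Bd ends Sᶜ = Bd ends S := by
  ext g
  obtain ⟨x, y, h⟩ : ∃ x y, ends g = s(x, y) :=
    Sym2.ind (f := fun z => ∃ u v, z = s(u, v)) (fun x y => ⟨x, y, rfl⟩) (ends g)
  rw [nb_bd h, nb_bd h, Set.mem_compl_iff, Set.mem_compl_iff]
  tauto

/-- an edge next to the bad edge `g₁` which is in no 2-edge cut is removable -/
theorem nb_removable [Finite V] [Finite E] {A : Set V} (hcub : ∀ v, {g | v ∈ ends g}.ncard = 3)
    {g₁ g₂ k e : E} {a a' b b' c c' : V} (ha : a ∈ A) (ha' : a' ∈ A) (hb : b ∉ A) (hb' : b' ∉ A)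
    (hc : c ∉ A) (hc' : c' ∉ A) (h1 : ends g₁ = s(a, a')) (h2 : ends g₂ = s(b, b'))
    (he : ends e = s(a, c)) (hk : ends k = s(a, c')) (hek : e ≠ k) (haa : a ≠ a') (hbb : b ≠ b')
    (hgood : ∀ g, g ≠ g₁ → g ≠ g₂ → ∃ u ∈ A, ∃ v ∉ A, ends g = s(u, v))
    (hone : ∀ S, (Bd ends S).ncard ≠ 1) (hcut : ¬ InCut ends e) : Removable ends e := by
  classical
  have := Fintype.ofFinite V
  have := Fintype.ofFinite E
  have nAB : ∀ {x y : V}, x ∈ A → y ∉ A → x ≠ y := fun hx hy h => hy (h ▸ hx)
  have h12 : g₁ ≠ g₂ := by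
    rintro rfl
    have h3 : a ∈ ends g₁ := by rw [h1]; exact Sym2.mem_mk_left _ _
    rw [h2, Sym2.mem_iff] at h3
    rcases h3 with h3 | h3
    · exact nAB ha hb h3
    · exact nAB ha hb' h3
  have h1k : g₁ ≠ k := by
    rintro rfl
    have h3 : c' ∈ ends g₁ := by rw [hk]; exact Sym2.mem_mk_right _ _
    rw [h1, Sym2.mem_iff] at h3
    rcases h3 with h3 | h3
    · exact nAB ha hc' h3.symm
    · exact nAB ha' hc' h3.symm
  have h1e : g₁ ≠ e := by
    rintro rfl
    have h3 : c ∈ ends g₁ := by rw [he]; exact Sym2.mem_mk_right _ _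
    rw [h1, Sym2.mem_iff] at h3
    rcases h3 with h3 | h3
    · exact nAB ha hc h3.symm
    · exact nAB ha' hc h3.symm
  have h2k : g₂ ≠ k := by
    rintro rfl
    have h3 : a ∈ ends g₂ := by rw [hk]; exact Sym2.mem_mk_left _ _
    rw [h2, Sym2.mem_iff] at h3
    rcases h3 with h3 | h3
    · exact nAB ha hb h3
    · exact nAB ha hb' h3
  have h2e : g₂ ≠ e := by
    rintro rfl
    have h3 : a ∈ ends g₂ := by rw [he]; exact Sym2.mem_mk_left _ _
    rw [h2, Sym2.mem_iff] at h3
    rcases h3 with h3 | h3
    · exact nAB ha hb h3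
    · exact nAB ha hb' h3
  have hae : ∀ g, a ∈ ends g → g = g₁ ∨ g = e ∨ g = k := by
    have h3 : ({g₁, e, k} : Finset E) = ({g | a ∈ ends g} : Finset E) := by
      apply eq_of_subset_of_card_le
      · intro g hg
        rw [mem_insert, mem_insert, mem_singleton] at hg
        rw [mem_filter]
        refine ⟨mem_univ _, ?_⟩
        rcases hg with rfl | rfl | rfl
        · rw [h1]; exact Sym2.mem_mk_left _ _
        · rw [he]; exact Sym2.mem_mk_left _ _
        · rw [hk]; exact Sym2.mem_mk_left _ _
      · have h4 : #{g | a ∈ ends g} = 3 := by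
          rw [← hcub a, ← Set.ncard_coe_finset]
          congr 1
          ext g
          simp
        rw [h4, card_insert_of_notMem (by simp [h1e, h1k]), card_pair hek]
    intro g hg
    have h4 : g ∈ ({g₁, e, k} : Finset E) := by rw [h3]; simpa using hg
    simpa using h4
  -- the rewired graph
  let ends' : E → Sym2 V := fun g =>
    if g = g₁ then s(a', c') else if g = k then s(a, b') else if g = g₂ then s(a, b) else ends g
  have e1 : ends' g₁ = s(a', c') := by simp [ends']
  have ek : ends' k = s(a, b') := by simp [ends', h1k.symm]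
  have e2 : ends' g₂ = s(a, b) := by simp [ends', h12.symm, h2k]
  have eo : ∀ g, g ≠ g₁ → g ≠ k → g ≠ g₂ → ends' g = ends g := by
    intro g h3 h4 h5
    simp [ends', h3, h4, h5]
  have ee : ends' e = s(a, c) := by rw [eo e h1e.symm hek h2e.symm, he]
  have hbip' : Bip ends' A := by
    intro g
    by_cases h3 : g = g₁
    · subst h3; exact ⟨a', ha', c', hc', e1⟩
    by_cases h4 : g = k
    · subst h4; exact ⟨a, ha, b', hb', ek⟩
    by_cases h5 : g = g₂
    · subst h5; exact ⟨a, ha, b, hb, e2⟩
    rw [eo g h3 h4 h5]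
    exact hgood g h3 h5
  have hcub' : ∀ v, {g | v ∈ ends' g}.ncard = 3 := by
    intro v
    rw [← hcub v, nb_ncard, nb_ncard]
    have h3 := nb_sum {g₁, k, g₂} (fun g => if g ∈ {g | v ∈ ends' g} then 1 else 0)
      (fun g => if g ∈ {g | v ∈ ends g} then 1 else 0) (by
        intro g hg
        simp only [mem_insert, mem_singleton, not_or] at hg
        simp only [Set.mem_ofPred_eq, eo g hg.1 hg.2.1 hg.2.2])
    rw [sum_insert (by simp [h1k, h12]), sum_pair h2k.symm, sum_insert (by simp [h1k, h12]),
      sum_pair h2k.symm] at h3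
    simp only [Set.mem_ofPred_eq, e1, ek, e2, h1, h2, hk] at h3
    rw [nb_mem v a a' haa, nb_mem v a c' (nAB ha hc'), nb_mem v b b' hbb,
      nb_mem v a' c' (nAB ha' hc'), nb_mem v a b' (nAB ha hb'), nb_mem v a b (nAB ha hb)] at h3
    simp only [Set.mem_ofPred_eq]
    omega
  -- no 2-edge cut with `e`
  have hcut' : ¬ InCut ends' e := by
    have main : ∀ S : Set V, a ∈ S → c ∉ S → (Bd ends' S).ncard ≠ 2 := by
      intro S haS hcS hS
      obtain ⟨T, hT⟩ : ∃ T : Set V, T = {v | (v ∈ S ∧ v ≠ a) ∨ (v = a ∧ c' ∈ S)} := ⟨_, rfl⟩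
      have hTo : ∀ v, v ≠ a → (v ∈ T ↔ v ∈ S) := by
        intro v hv
        rw [hT, Set.mem_ofPred_eq]
        tauto
      have hTa : a ∈ T ↔ c' ∈ S := by
        rw [hT, Set.mem_ofPred_eq]
        tauto
      have h3 := nb_sum {g₁, k, g₂, e} (fun g => if g ∈ Bd ends' S then 1 else 0)
        (fun g => if g ∈ Bd ends T then 1 else 0) (by
          intro g hg
          simp only [mem_insert, mem_singleton, not_or] at hg
          obtain ⟨x, y, h⟩ : ∃ x y, ends g = s(x, y) :=
            Sym2.ind (f := fun z => ∃ u v, z = s(u, v)) (fun x y => ⟨x, y, rfl⟩) (ends g)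
          have hxa : x ≠ a := by
            rintro rfl
            rcases hae g (by rw [h]; exact Sym2.mem_mk_left _ _) with h4 | h4 | h4
            · exact hg.1 h4
            · exact hg.2.2.2 h4
            · exact hg.2.1 h4
          have hya : y ≠ a := by
            rintro rfl
            rcases hae g (by rw [h]; exact Sym2.mem_mk_right _ _) with h4 | h4 | h4
            · exact hg.1 h4
            · exact hg.2.2.2 h4
            · exact hg.2.1 h4
          have h' : ends' g = s(x, y) := by rw [eo g hg.1 hg.2.1 hg.2.2.1, h]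
          simp only [nb_bd h', nb_bd h, hTo x hxa, hTo y hya])
      have n1 : g₁ ∉ ({k, g₂, e} : Finset E) := by simp [h1k, h12, h1e]
      have n2 : k ∉ ({g₂, e} : Finset E) := by simp [h2k.symm, hek.symm]
      have h10 := sum_le_sum_of_subset (f := fun g => if g ∈ Bd ends' S then 1 else 0)
        (subset_univ ({g₁, k, g₂, e} : Finset E))
      rw [sum_insert n1, sum_insert n2, sum_pair h2e, sum_insert n1, sum_insert n2,
        sum_pair h2e] at h3
      rw [sum_insert n1, sum_insert n2, sum_pair h2e] at h10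
      rw [← nb_ncard, ← nb_ncard, hS] at h3
      rw [← nb_ncard, hS] at h10
      simp only [nb_bd e1, nb_bd ek, nb_bd e2, nb_bd ee, nb_bd h1, nb_bd h2, nb_bd hk, nb_bd he,
        hTa, hTo a' haa.symm, hTo b (nAB ha hb).symm, hTo b' (nAB ha hb').symm,
        hTo c (nAB ha hc).symm, hTo c' (nAB ha hc').symm, haS, hcS] at h3 h10
      have h5 := hone T
      have h6 : c' ∈ S → (Bd ends T).ncard ≠ 2 := by
        intro h7 h8
        apply hcut
        refine ⟨T, ?_, h8⟩
        rw [nb_bd he, hTa, hTo c (nAB ha hc).symm]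
        tauto
      generalize (Bd ends T).ncard = n at h3 h5 h6
      by_cases q1 : c' ∈ S <;> by_cases q2 : a' ∈ S <;> by_cases q3 : b ∈ S <;>
        by_cases q4 : b' ∈ S <;> simp [q1, q2, q3, q4] at h3 h6 h10 <;> omega
    rintro ⟨S, heS, hS⟩
    rw [nb_bd ee] at heS
    by_cases h3 : a ∈ S
    · exact main S h3 (by tauto) hS
    · refine main Sᶜ h3 (by rw [Set.mem_compl_iff]; tauto) ?_
      rw [nb_bd_compl]
      exact hS
  obtain ⟨col, hcol1, hcol2⟩ := removable_of_not_inCut hbip' hcub' hcut'
  rw [ee] at hcol1 hcol2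
  have hcol : col g₂ = col k := by
    refine hcol2 a g₂ k (Sym2.mem_mk_left _ _) ?_ ?_ h2e hek.symm
    · rw [e2]; exact Sym2.mem_mk_left _ _
    · rw [ek]; exact Sym2.mem_mk_left _ _
  -- the transfer of the colouring
  let φ : V → E → E := fun v f => if f = k then g₁ else if f = g₂ then (if v = b' then k else g₂) else f
  have fk : ∀ v, φ v k = g₁ := fun v => by simp [φ]
  have f2 : φ b' g₂ = k := by simp [φ, h2k]
  have f2' : ∀ v, v ≠ b' → φ v g₂ = g₂ := fun v hv => by simp [φ, h2k, hv]
  have fo : ∀ v f, f ≠ k → f ≠ g₂ → φ v f = f := fun v f h3 h4 => by simp [φ, h3, h4]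
  have hφm : ∀ v f, v ≠ a → v ∈ ends f → v ∈ ends' (φ v f) := by
    intro v f hva hvf
    by_cases h3 : f = k
    · subst h3
      rw [fk, e1]
      rw [hk, Sym2.mem_iff] at hvf
      rw [Sym2.mem_iff]
      tauto
    by_cases h4 : f = g₂
    · subst h4
      by_cases h5 : v = b'
      · subst h5
        rw [f2, ek]
        exact Sym2.mem_mk_right _ _
      · rw [f2' v h5, e2]
        rw [h2, Sym2.mem_iff] at hvf
        rw [Sym2.mem_iff]
        tauto
    rw [fo v f h3 h4]
    by_cases h5 : f = g₁
    · subst h5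
      rw [e1]
      rw [h1, Sym2.mem_iff] at hvf
      rw [Sym2.mem_iff]
      tauto
    · rw [eo f h5 h3 h4]
      exact hvf
  have hφe : ∀ v f, f ≠ e → φ v f ≠ e := by
    intro v f hf
    by_cases h3 : f = k
    · subst h3
      rw [fk]
      exact h1e
    by_cases h4 : f = g₂
    · subst h4
      by_cases h5 : v = b'
      · subst h5
        rw [f2]
        exact hek.symm
      · rw [f2' v h5]
        exact h2e
    rw [fo v f h3 h4]
    exact hf
  have hφi : ∀ v f g, v ≠ a → v ∈ ends f → v ∈ ends g → φ v f = φ v g → f = g := by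
    intro v f g hva hvf hvg h
    have hk1 : ∀ {x}, v ∈ ends k → x = g₁ → v ∈ ends x → False := by
      rintro x h3 rfl h4
      rw [hk, Sym2.mem_iff] at h3
      rw [h1, Sym2.mem_iff] at h4
      have h5 : v = c' := by tauto
      have h6 : v = a' := by tauto
      exact hc' (h5 ▸ h6 ▸ ha')
    by_cases h3 : f = k
    · subst h3
      by_cases h4 : g = f
      · exact h4.symm
      by_cases h5 : g = g₂
      · subst h5
        rw [fk] at h
        by_cases h6 : v = b'
        · subst h6
          rw [f2] at h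
          exact absurd h h1k
        · rw [f2' v h6] at h
          exact absurd h h12
      · rw [fk, fo v g h4 h5] at h
        exact (hk1 hvf h.symm hvg).elim
    by_cases h4 : f = g₂
    · subst h4
      by_cases h5 : g = k
      · subst h5
        rw [fk] at h
        by_cases h6 : v = b'
        · subst h6
          rw [f2] at h
          exact absurd h.symm h1k
        · rw [f2' v h6] at h
          exact absurd h.symm h12
      by_cases h6 : g = f
      · exact h6.symm
      rw [fo v g h5 h6] at h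
      by_cases h7 : v = b'
      · subst h7
        rw [f2] at h
        exact absurd h.symm h5
      · rw [f2' v h7] at h
        exact absurd h.symm h6
    rw [fo v f h3 h4] at h
    by_cases h5 : g = k
    · subst h5
      rw [fk] at h
      exact (hk1 hvg h hvf).elim
    by_cases h6 : g = g₂
    · subst h6
      by_cases h7 : v = b'
      · subst h7
        rw [f2] at h
        exact absurd h h3
      · rw [f2' v h7] at h
        exact absurd h h4
    rw [fo v g h5 h6] at h
    exact h
  have hφc : ∀ v f, Function.update col k (col g₁) f = col (φ v f) := by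
    intro v f
    by_cases h3 : f = k
    · subst h3
      rw [fk, Function.update_self]
    rw [Function.update_of_ne h3]
    by_cases h4 : f = g₂
    · subst h4
      by_cases h5 : v = b'
      · subst h5
        rw [f2, hcol]
      · rw [f2' v h5]
    · rw [fo v f h3 h4]
  refine ⟨Function.update col k (col g₁), ?_, ?_⟩
  · intro v f g hve hvf hvg hfg
    have hva : v ≠ a := by
      rintro rfl
      rw [he] at hve
      exact hve (Sym2.mem_mk_left _ _)
    rw [hφc v f, hφc v g]
    rw [he] at hve
    exact hcol1 v _ _ hve (hφm v f hva hvf) (hφm v g hva hvg)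
      fun h => hfg (hφi v f g hva hvf hvg h)
  · intro v f g hve hvf hvg hfe hge
    by_cases hva : v = a
    · subst hva
      have h3 : ∀ f, v ∈ ends f → f ≠ e → Function.update col k (col g₁) f = col g₁ := by
        intro f hf hfe
        rcases hae f hf with rfl | rfl | rfl
        · rw [Function.update_of_ne h1k]
        · exact absurd rfl hfe
        · rw [Function.update_self]
      rw [h3 f hvf hfe, h3 g hvg hge]
    · rw [hφc v f, hφc v g]
      rw [he] at hve
      exact hcol2 v _ _ hve (hφm v f hva hvf) (hφm v g hva hvg) (hφe v f hfe) (hφe v g hge)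

end rewire

end Pool.Agent.H.MP_bcbcf8_co
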