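import Pool.Agent.H.MP_bcbcf8_co.BG.Nb

/-!
# Counting and parity for boundaries in a loopless cubic graph; uncrossing
-/

set_option autoImplicit false

namespace Pool.Agent.H.MP_bcbcf8_co

open Finset

section par

variable {V E : Type} {ends : E → Sym2 V}

theorem bg_repr (ends : E → Sym2 V) (g : E) : ∃ x y, ends g = s(x, y) :=
  Sym2.ind (f := fun z => ∃ u v, z = s(u, v)) (fun x y => ⟨x, y, rfl⟩) (ends g)

/-- counting the ends in `S` of the edges in `K` -/
theorem bg_count [Fintype V] [Fintype E] [DecidableEq V] (hloop : ∀ g, ¬ (ends g).IsDiag)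
    (K : E → Prop) [DecidablePred K] (S : Set V) [DecidablePred (· ∈ S)]
    [DecidablePred (· ∈ Bd ends S)] [DecidablePred fun g => ∀ w ∈ ends g, w ∈ S] :
    ∑ w with w ∈ S, #{g | K g ∧ w ∈ ends g} =
      2 * #{g | K g ∧ ∀ w ∈ ends g, w ∈ S} + #{g | K g ∧ g ∈ Bd ends S} := by
  have hends : ∀ g, #{w | w ∈ S ∧ w ∈ ends g} =
      2 * (if ∀ w ∈ ends g, w ∈ S then 1 else 0) + (if g ∈ Bd ends S then 1 else 0) := by
    intro g
    obtain ⟨x, y, h⟩ := bg_repr ends g
    have hne : x ≠ y := by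
      rintro rfl
      apply hloop g
      rw [h]
      exact Sym2.mk_isDiag_iff.2 rfl
    have h1 : ∀ w, w ∈ ends g ↔ w = x ∨ w = y := fun w => by rw [h, Sym2.mem_iff]
    have h2 : (∀ w ∈ ends g, w ∈ S) ↔ x ∈ S ∧ y ∈ S := by
      constructor
      · exact fun h3 => ⟨h3 x ((h1 x).2 (.inl rfl)), h3 y ((h1 y).2 (.inr rfl))⟩
      · rintro ⟨h3, h4⟩ w hw
        rcases (h1 w).1 hw with rfl | rfl
        · exact h3
        · exact h4
    have h3 : #{w | w ∈ S ∧ w ∈ ends g} =
        (if x ∈ S then 1 else 0) + (if y ∈ S then 1 else 0) := by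
      have h4 : ({w | w ∈ S ∧ w ∈ ends g} : Finset V) = ({x, y} : Finset V).filter (· ∈ S) := by
        ext w
        simp only [mem_filter, mem_univ, true_and, h1, mem_insert, mem_singleton]
        tauto
      rw [h4, card_filter, sum_pair hne]
    rw [h3]
    simp only [h2, nb_bd h]
    by_cases h4 : x ∈ S <;> by_cases h5 : y ∈ S <;> simp [h4, h5]
  have h1 : ∑ w with w ∈ S, #{g | K g ∧ w ∈ ends g} =
      ∑ g with K g, #{w | w ∈ S ∧ w ∈ ends g} := by
    have h3 := sum_card_bipartiteAbove_eq_sum_card_bipartiteBelow (s := {w | w ∈ S})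
      (t := {g | K g}) (fun w g => w ∈ ends g)
    simp only [bipartiteAbove, bipartiteBelow, filter_filter] at h3
    exact h3
  rw [h1, sum_congr rfl fun g _ => hends g, sum_add_distrib, ← mul_sum, ← card_filter,
    ← card_filter, filter_filter, filter_filter]

/-- parity of the colours in a boundary -/
theorem bg_parity [Finite V] [Fintype E] [DecidableEq V] (hloop : ∀ g, ¬ (ends g).IsDiag)
    (K : Fin 3 → E → Prop) [∀ j, DecidablePred (K j)] (S : Set V) [DecidablePred (· ∈ Bd ends S)]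
    (j j' : Fin 3)
    (h : ∀ w ∈ S, #{g | K j g ∧ w ∈ ends g} % 2 = #{g | K j' g ∧ w ∈ ends g} % 2) :
    #{g | K j g ∧ g ∈ Bd ends S} % 2 = #{g | K j' g ∧ g ∈ Bd ends S} % 2 := by
  classical
  have := Fintype.ofFinite V
  have h1 := bg_count hloop (K j) S
  have h2 := bg_count hloop (K j') S
  have h3 : (∑ w with w ∈ S, #{g | K j g ∧ w ∈ ends g}) % 2 =
      (∑ w with w ∈ S, #{g | K j' g ∧ w ∈ ends g}) % 2 := by
    rw [sum_nat_mod, sum_nat_mod (f := fun w => #{g | K j' g ∧ w ∈ ends g})]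
    congr 1
    exact sum_congr rfl fun w hw => h w (mem_filter.1 hw).2
  omega

theorem bg_card [Fintype E] [DecidableEq V] (hcub : ∀ v, {g | v ∈ ends g}.ncard = 3) (w : V) :
    #{g | w ∈ ends g} = 3 := by
  rw [← hcub w, ← Set.ncard_coe_finset]
  congr 1
  ext g
  simp

/-- one edge of each colour at a vertex -/
theorem bg_one [Fintype E] [DecidableEq V] (hcub : ∀ v, {g | v ∈ ends g}.ncard = 3) {w : V}
    {c : E → Fin 3} (h : ∀ f g, w ∈ ends f → w ∈ ends g → f ≠ g → c f ≠ c g) {K : E → Prop}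
    [DecidablePred K] (hK : ∀ g, w ∈ ends g → K g) (j : Fin 3) :
    #{g | (K g ∧ c g = j) ∧ w ∈ ends g} = 1 := by
  classical
  have hinj : Set.InjOn c (({g | w ∈ ends g} : Finset E) : Set E) := by
    intro g hg g' hg' h3
    by_contra h4
    exact h g g' (by simpa using hg) (by simpa using hg') h4 h3
  have h5 : ({g | w ∈ ends g} : Finset E).image c = univ := by
    rw [← card_eq_iff_eq_univ, card_image_of_injOn hinj, bg_card hcub w, Fintype.card_fin]
  obtain ⟨g, hg, hgj⟩ := mem_image.1 (h5 ▸ mem_univ j)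
  rw [card_eq_one]
  refine ⟨g, ?_⟩
  ext g'
  rw [mem_filter, mem_singleton]
  constructor
  · rintro ⟨-, ⟨-, h6⟩, h7⟩
    exact hinj (by simpa using h7) hg (h6.trans hgj.symm)
  · rintro rfl
    exact ⟨mem_univ _, ⟨hK _ (mem_filter.1 hg).2, hgj⟩, (mem_filter.1 hg).2⟩

/-- two edges of the same colour at an end of `e` -/
theorem bg_two [Fintype E] [DecidableEq V] [DecidableEq E]
    (hcub : ∀ v, {g | v ∈ ends g}.ncard = 3) {w : V} {e : E} (hwe : w ∈ ends e) {c : E → Fin 3}
    (h : ∀ f g, w ∈ ends f → w ∈ ends g → f ≠ e → g ≠ e → c f = c g) (j : Fin 3) :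
    #{g | (g ≠ e ∧ c g = j) ∧ w ∈ ends g} % 2 = 0 := by
  by_cases h1 : ∃ g, g ≠ e ∧ c g = j ∧ w ∈ ends g
  · obtain ⟨g, hge, hgj, hxg⟩ := h1
    have h3 : ({g | (g ≠ e ∧ c g = j) ∧ w ∈ ends g} : Finset E) =
        ({g | w ∈ ends g} : Finset E).erase e := by
      ext g'
      rw [mem_filter, mem_erase, mem_filter]
      constructor
      · rintro ⟨h4, ⟨h5, -⟩, h6⟩
        exact ⟨h5, h4, h6⟩
      · rintro ⟨h4, h5, h6⟩
        exact ⟨h5, ⟨h4, (h g' g h6 hxg h4 hge).trans hgj⟩, h6⟩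
    rw [h3, card_erase_of_mem (by simpa using hwe), bg_card hcub]
  · rw [card_eq_zero.2]
    rw [filter_eq_empty_iff]
    rintro g - ⟨⟨h3, h4⟩, h5⟩
    exact h1 ⟨g, h3, h4, h5⟩

/-- if the numbers of edges of each colour in `{f, f'}` have the same parity, then `f` and `f'` have the same colour -/
theorem bg_pair [Fintype E] {K : E → Prop} [DecidablePred K] {B : Set E}
    [DecidablePred (· ∈ B)] {f f' : E} (hff : f ≠ f') (hB : B = {f, f'}) (hf : K f) (hf' : K f')
    {c : E → Fin 3}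
    (h : ∀ j j', #{g | (K g ∧ c g = j) ∧ g ∈ B} % 2 = #{g | (K g ∧ c g = j') ∧ g ∈ B} % 2) :
    c f = c f' := by
  classical
  by_contra hne
  obtain ⟨j, h1, h2⟩ : ∃ j, j ≠ c f ∧ j ≠ c f' := by
    generalize c f = x
    generalize c f' = y
    revert x y
    decide
  have h3 := h j (c f)
  have h4 : #{g | (K g ∧ c g = j) ∧ g ∈ B} = 0 := by
    rw [card_eq_zero, filter_eq_empty_iff]
    rintro g - ⟨⟨h5, h6⟩, h7⟩
    rw [hB] at h7
    rcases h7 with h7 | h7
    · exact h1 (by rw [← h6, h7])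
    · rw [Set.mem_singleton_iff] at h7
      exact h2 (by rw [← h6, h7])
  have h5 : #{g | (K g ∧ c g = c f) ∧ g ∈ B} = 1 := by
    rw [card_eq_one]
    refine ⟨f, ?_⟩
    ext g
    rw [mem_filter, mem_singleton, hB]
    constructor
    · rintro ⟨-, ⟨h6, h7⟩, h8 | h8⟩
      · exact h8
      · rw [Set.mem_singleton_iff] at h8
        exact absurd (by rw [← h7, h8]) hne
    · rintro rfl
      exact ⟨mem_univ _, ⟨hf, rfl⟩, .inl rfl⟩
  omega

/-- in a proper 3-edge colouring all colours have the same parity in a boundary -/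
theorem bg_col_parity [Finite V] [Fintype E] [DecidableEq V] (hloop : ∀ g, ¬ (ends g).IsDiag)
    (hcub : ∀ v, {g | v ∈ ends g}.ncard = 3) {c : E → Fin 3} (hc : IsCol ends c) (S : Set V)
    [DecidablePred (· ∈ Bd ends S)] (j j' : Fin 3) :
    #{g | (True ∧ c g = j) ∧ g ∈ Bd ends S} % 2 =
      #{g | (True ∧ c g = j') ∧ g ∈ Bd ends S} % 2 := by
  refine bg_parity hloop (fun j g => True ∧ c g = j) S j j' fun w _ => ?_
  have h1 := fun j => bg_one hcub (w := w) (c := c) (fun f g => hc w f g) (K := fun _ => True)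
    (fun _ _ => trivial) j
  exact congrArg (· % 2) ((h1 j).trans (h1 j').symm)

theorem bg_col_pair [Finite V] [Finite E] (hloop : ∀ g, ¬ (ends g).IsDiag)
    (hcub : ∀ v, {g | v ∈ ends g}.ncard = 3) {c : E → Fin 3} (hc : IsCol ends c) {S : Set V}
    {f f' : E} (hff : f ≠ f') (hB : Bd ends S = {f, f'}) : c f = c f' := by
  classical
  have := Fintype.ofFinite E
  exact bg_pair (K := fun _ => True) hff hB trivial trivial
    fun j j' => bg_col_parity hloop hcub hc S j j'

/-- a 3-edge-coloured cubic graph has no bridge -/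
theorem bg_no_one [Finite V] [Finite E] (hloop : ∀ g, ¬ (ends g).IsDiag)
    (hcub : ∀ v, {g | v ∈ ends g}.ncard = 3) {c : E → Fin 3} (hc : IsCol ends c) (S : Set V) :
    (Bd ends S).ncard ≠ 1 := by
  classical
  have := Fintype.ofFinite E
  intro h
  obtain ⟨f, hf⟩ := Set.ncard_eq_one.1 h
  obtain ⟨j, hj⟩ : ∃ j, j ≠ c f := exists_ne _
  have h3 := bg_col_parity hloop hcub hc S j (c f)
  have h4 : #{g | (True ∧ c g = j) ∧ g ∈ Bd ends S} = 0 := by
    rw [card_eq_zero, filter_eq_empty_iff]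
    rintro g - ⟨⟨-, h6⟩, h7⟩
    rw [hf, Set.mem_singleton_iff] at h7
    exact hj (by rw [← h6, h7])
  have h5 : #{g | (True ∧ c g = c f) ∧ g ∈ Bd ends S} = 1 := by
    rw [card_eq_one]
    refine ⟨f, ?_⟩
    ext g
    rw [mem_filter, mem_singleton, hf, Set.mem_singleton_iff]
    constructor
    · rintro ⟨-, -, h8⟩
      exact h8
    · rintro rfl
      exact ⟨mem_univ _, ⟨trivial, rfl⟩, rfl⟩
  omega

/-- the two edges of a 2-edge cut which does not separate the ends of `e` have the same colour -/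
theorem bg_rem_pair [Finite V] [Finite E] (hloop : ∀ g, ¬ (ends g).IsDiag)
    (hcub : ∀ v, {g | v ∈ ends g}.ncard = 3) {e : E} {c : E → Fin 3}
    (hc1 : ∀ (v : V) (f g : E), v ∉ ends e → v ∈ ends f → v ∈ ends g → f ≠ g → c f ≠ c g)
    (hc2 : ∀ (v : V) (f g : E), v ∈ ends e → v ∈ ends f → v ∈ ends g → f ≠ e → g ≠ e → c f = c g)
    {S : Set V} (he : ∀ w ∈ ends e, w ∈ S) {f f' : E} (hff : f ≠ f')
    (hB : Bd ends S = {f, f'}) : c f = c f' := by
  classical
  have := Fintype.ofFinite E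
  have heB : e ∉ Bd ends S := by
    rintro ⟨x, -, y, hy, h⟩
    exact hy (he y (by rw [h]; exact Sym2.mem_mk_right _ _))
  have hfe : f ≠ e := by
    rintro rfl
    exact heB (by rw [hB]; exact .inl rfl)
  have hfe' : f' ≠ e := by
    rintro rfl
    exact heB (by rw [hB]; exact .inr rfl)
  have key : ∀ j j' : Fin 3, #{g | (g ≠ e ∧ c g = j) ∧ g ∈ Bd ends Sᶜ} % 2 =
      #{g | (g ≠ e ∧ c g = j') ∧ g ∈ Bd ends Sᶜ} % 2 := by
    intro j j'
    refine bg_parity hloop (fun j g => g ≠ e ∧ c g = j) Sᶜ j j' fun w hw => ?_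
    have hwe : w ∉ ends e := fun h => hw (he w h)
    have h1 := fun j => bg_one hcub (w := w) (c := c) (fun f g => hc1 w f g hwe)
      (K := fun g => g ≠ e) (fun g hg => by rintro rfl; exact hwe hg) j
    exact congrArg (· % 2) ((h1 j).trans (h1 j').symm)
  refine bg_pair (K := fun g => g ≠ e) (B := Bd ends Sᶜ) hff ?_ hfe hfe' key
  rw [nb_bd_compl, hB]

/-- there is an edge inside a set with a boundary of two edges -/
theorem bg_inner [Finite V] [Finite E] (hloop : ∀ g, ¬ (ends g).IsDiag)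
    (hcub : ∀ v, {g | v ∈ ends g}.ncard = 3) {S : Set V} (hS : (Bd ends S).ncard = 2) :
    ∃ g, ∀ w ∈ ends g, w ∈ S := by
  classical
  have := Fintype.ofFinite V
  have := Fintype.ofFinite E
  have h1 := bg_count hloop (fun _ => True) S
  simp only [true_and] at h1
  rw [sum_congr rfl fun w _ => bg_card hcub w, sum_const, smul_eq_mul] at h1
  have h2 : #{g | g ∈ Bd ends S} = 2 := by
    rw [← hS, ← Set.ncard_coe_finset]
    congr 1
    ext g
    simp
  have h3 : 0 < #{g | ∀ w ∈ ends g, w ∈ S} := by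
    by_contra h4
    omega
  obtain ⟨g, hg⟩ := card_pos.1 h3
  exact ⟨g, (mem_filter.1 hg).2⟩

/-- uncrossing: an edge inside a minimal set with a boundary of two edges is in no 2-edge cut -/
theorem bg_uncross [Finite V] [Finite E] (hone : ∀ S, (Bd ends S).ncard ≠ 1) {S : Set V}
    (hS : (Bd ends S).ncard = 2) (hmin : ∀ R, R ⊆ S → (Bd ends R).ncard = 2 → R = S) {g : E}
    (hg : ∀ w ∈ ends g, w ∈ S) : ¬ InCut ends g := by
  classical
  have := Fintype.ofFinite V
  have := Fintype.ofFinite E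
  choose a b hab using bg_repr ends
  have hB : ∀ (S : Set V) g, g ∈ Bd ends S ↔ ¬ (a g ∈ S ↔ b g ∈ S) := fun S g => nb_bd (hab g) S
  have hBc : ∀ S : Set V, (Bd ends S).ncard = #{g | ¬ (a g ∈ S ↔ b g ∈ S)} := by
    intro S
    rw [← Set.ncard_coe_finset]
    congr 1
    ext g
    simp [hB]
  have sub1 : ∀ S T : Set V, (Bd ends (S ∩ T)).ncard + (Bd ends (S ∪ T)).ncard ≤
      (Bd ends S).ncard + (Bd ends T).ncard := by
    intro S T
    simp only [hBc, card_filter]
    rw [← sum_add_distrib, ← sum_add_distrib]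
    refine sum_le_sum fun g _ => ?_
    by_cases h1 : a g ∈ S <;> by_cases h2 : b g ∈ S <;> by_cases h3 : a g ∈ T <;>
      by_cases h4 : b g ∈ T <;> simp [h1, h2, h3, h4]
  have sub2 : ∀ S T : Set V, (Bd ends (S \ T)).ncard + (Bd ends (T \ S)).ncard ≤
      (Bd ends S).ncard + (Bd ends T).ncard := by
    intro S T
    simp only [hBc, card_filter]
    rw [← sum_add_distrib, ← sum_add_distrib]
    refine sum_le_sum fun g _ => ?_
    by_cases h1 : a g ∈ S <;> by_cases h2 : b g ∈ S <;> by_cases h3 : a g ∈ T <;>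
      by_cases h4 : b g ∈ T <;> simp [h1, h2, h3, h4]
  have sub3 : ∀ S T : Set V, (Bd ends S).ncard ≤
      (Bd ends (S ∪ T)).ncard + (Bd ends (T \ S)).ncard := by
    intro S T
    simp only [hBc, card_filter]
    rw [← sum_add_distrib]
    refine sum_le_sum fun g _ => ?_
    by_cases h1 : a g ∈ S <;> by_cases h2 : b g ∈ S <;> by_cases h3 : a g ∈ T <;>
      by_cases h4 : b g ∈ T <;> simp [h1, h2, h3, h4]
  have hga : a g ∈ S := hg _ (by rw [hab g]; exact Sym2.mem_mk_left _ _)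
  have hgb : b g ∈ S := hg _ (by rw [hab g]; exact Sym2.mem_mk_right _ _)
  rintro ⟨T, hgT, hT⟩
  rw [hB] at hgT
  have lt : ∀ S', S' ⊆ S → (a g ∉ S' ∨ b g ∉ S') → (Bd ends S').ncard ≠ 2 := by
    intro S' hsub hor h5
    have h7 := hmin S' hsub h5
    rw [h7] at hor
    tauto
  have g1 : g ∈ Bd ends (S ∩ T) := by
    rw [hB]
    simp only [Set.mem_inter_iff]
    tauto
  have g2 : g ∈ Bd ends (S \ T) := by
    rw [hB]
    simp only [Set.mem_sdiff]
    tauto
  have c1 : 0 < (Bd ends (S ∩ T)).ncard := (Set.ncard_pos (Set.toFinite _)).2 ⟨g, g1⟩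
  have c2 : 0 < (Bd ends (S \ T)).ncard := (Set.ncard_pos (Set.toFinite _)).2 ⟨g, g2⟩
  have l1 := lt (S ∩ T) Set.inter_subset_left (by simp only [Set.mem_inter_iff]; tauto)
  have l2 := lt (S \ T) Set.sdiff_subset (by simp only [Set.mem_sdiff]; tauto)
  have o1 := hone (S ∩ T)
  have o2 := hone (S \ T)
  have o3 := hone (S ∪ T)
  have o4 := hone (T \ S)
  have s1 := sub1 S T
  have s2 := sub2 S T
  have s3 := sub3 S T
  omega

end par

end Pool.Agent.H.MP_bcbcf8_co
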