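import Pool.Agent.H.MP_bcbcf8_co.BG.Typ

/-!
# The six closings give three types; an edge at a boundary vertex is removable
-/

set_option autoImplicit false

namespace Pool.Agent.H.MP_bcbcf8_co

open Finset

section six

variable {V E : Type} {ends : E → Sym2 V} {S A : Set V} {f : Fin 4 → E} {x : Fin 4 → V}

/-- the classes of a closed graph -/
def cls (S A : Set V) (pu pv : Prop) : Set ({v // v ∈ S} ⊕ Bool) :=
  {w | Sum.elim (fun v => v.1 ∈ A) (fun b => (b = false ∧ pu) ∨ (b = true ∧ pv)) w}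

theorem cls_inl {pu pv : Prop} {v : {v // v ∈ S}} : Sum.inl v ∈ cls S A pu pv ↔ v.1 ∈ A := Iff.rfl

theorem cls_false {pu pv : Prop} : Sum.inr false ∈ cls S A pu pv ↔ pu := by
  simp [cls]

theorem cls_true {pu pv : Prop} : Sum.inr true ∈ cls S A pu pv ↔ pv := by
  simp [cls]

theorem cls_inner {pu pv : Prop} {k : Fin 5 → Sym2 ({v // v ∈ S} ⊕ Bool)}
    (hg : ∀ g, (∀ w ∈ ends g, w ∈ S) → ∃ u ∈ A, ∃ v ∉ A, ends g = s(u, v))
    (g : {g : E // ∀ w ∈ ends g, w ∈ S}) :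
    ∃ u ∈ cls S A pu pv, ∃ v ∉ cls S A pu pv, clo ends S k (.inl g) = s(u, v) := by
  obtain ⟨u, hu, v, hv, h⟩ := hg g.1 g.2
  have hu' : u ∈ S := g.2 u (by rw [h]; exact Sym2.mem_mk_left _ _)
  have hv' : v ∈ S := g.2 v (by rw [h]; exact Sym2.mem_mk_right _ _)
  exact ⟨.inl ⟨u, hu'⟩, hu, .inl ⟨v, hv'⟩, hv, clo_mk h⟩

theorem four_perm (hF : Four ends S f x) (π : Equiv.Perm (Fin 4)) :
    Four ends S (f ∘ π) (x ∘ π) where
  finj := hF.finj.comp π.injective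
  hB := by
    intro g
    rw [hF.hB]
    constructor
    · rintro ⟨l, rfl⟩
      exact ⟨π.symm l, by simp⟩
    · rintro ⟨l, rfl⟩
      exact ⟨π l, rfl⟩
  xS := fun l => hF.xS (π l)
  xf := fun l => hF.xf (π l)
  xinj := hF.xinj.comp π.injective

variable [Finite V] [Finite E]

/-- bipartite closing by pairs -/
theorem six_PB (hloop : ∀ g, ¬ (ends g).IsDiag) (hcub : ∀ v, {g | v ∈ ends g}.ncard = 3)
    (hF : Four ends S f x) (hM : Mini ends S)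
    (hg : ∀ g, (∀ w ∈ ends g, w ∈ S) → ∃ u ∈ A, ∃ v ∉ A, ends g = s(u, v))
    (h0 : x 0 ∈ A) (h1 : x 1 ∉ A) (h2 : x 2 ∈ A) (h3 : x 3 ∉ A)
    (e : {g : E // ∀ w ∈ ends g, w ∈ S}) : Removable (clo ends S (kP hF)) (.inl e) := by
  refine removable_of_not_inCut (A := cls S A True False) ?_
    (clo_cubic hcub hF κP (kP_inl hF) (kP_inr hF)) ?_
  · rintro (g | j)
    · exact cls_inner hg g
    · fin_cases j
      · exact ⟨.inl ⟨x 0, hF.xS 0⟩, h0, .inl ⟨x 1, hF.xS 1⟩, h1, rfl⟩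
      · exact ⟨.inl ⟨x 2, hF.xS 2⟩, h2, .inl ⟨x 3, hF.xS 3⟩, h3, rfl⟩
      all_goals
        exact ⟨.inr false, cls_false.2 trivial, .inr true, fun h => cls_true.1 h, rfl⟩
  · rintro ⟨T, -, hT⟩
    exact (kP_small hloop hcub hF hM T).2 hT

/-- bipartite closing with two new vertices -/
theorem six_HB (hloop : ∀ g, ¬ (ends g).IsDiag) (hcub : ∀ v, {g | v ∈ ends g}.ncard = 3)
    (hF : Four ends S f x) (hM : Mini ends S)
    (hg : ∀ g, (∀ w ∈ ends g, w ∈ S) → ∃ u ∈ A, ∃ v ∉ A, ends g = s(u, v))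
    (h0 : x 0 ∈ A) (h1 : x 1 ∈ A) (h2 : x 2 ∉ A) (h3 : x 3 ∉ A)
    (e : {g : E // ∀ w ∈ ends g, w ∈ S}) : Removable (clo ends S (kH hF)) (.inl e) := by
  refine removable_of_not_inCut (A := cls S A False True) ?_
    (clo_cubic hcub hF κH (kH_inl hF) (kH_inr hF)) ?_
  · rintro (g | j)
    · exact cls_inner hg g
    · fin_cases j
      · exact ⟨.inl ⟨x 0, hF.xS 0⟩, h0, .inr false, fun h => cls_false.1 h, rfl⟩
      · exact ⟨.inl ⟨x 1, hF.xS 1⟩, h1, .inr false, fun h => cls_false.1 h, rfl⟩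
      · exact ⟨.inr true, cls_true.2 trivial, .inl ⟨x 2, hF.xS 2⟩, h2, Sym2.eq_swap⟩
      · exact ⟨.inr true, cls_true.2 trivial, .inl ⟨x 3, hF.xS 3⟩, h3, Sym2.eq_swap⟩
      · exact ⟨.inr true, cls_true.2 trivial, .inr false, fun h => cls_false.1 h, Sym2.eq_swap⟩
  · rintro ⟨T, -, hT⟩
    exact (kH_small hloop hcub hF hM T).2 hT

/-- almost bipartite closing by pairs -/
theorem six_PN (hloop : ∀ g, ¬ (ends g).IsDiag) (hcub : ∀ v, {g | v ∈ ends g}.ncard = 3)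
    (hF : Four ends S f x) (hM : Mini ends S)
    (hg : ∀ g, (∀ w ∈ ends g, w ∈ S) → ∃ u ∈ A, ∃ v ∉ A, ends g = s(u, v))
    (h0 : x 0 ∈ A) (h1 : x 1 ∈ A) (h2 : x 2 ∉ A) (h3 : x 3 ∉ A)
    (e e' : {g : E // ∀ w ∈ ends g, w ∈ S}) {w w' : V} (hw : w ∈ S) (hw' : w' ∈ S)
    (hwA : w ∉ A) (hwA' : w' ∉ A) (hee : e ≠ e') (he : ends e.1 = s(x 0, w))
    (he' : ends e'.1 = s(x 0, w')) : Removable (clo ends S (kP hF)) (.inl e) := by
  refine nb_removable (A := cls S A True False)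
    (clo_cubic hcub hF κP (kP_inl hF) (kP_inr hF)) (g₁ := .inr 0) (g₂ := .inr 1) (k := .inl e')
    (a := .inl ⟨x 0, hF.xS 0⟩) (a' := .inl ⟨x 1, hF.xS 1⟩) (b := .inl ⟨x 2, hF.xS 2⟩)
    (b' := .inl ⟨x 3, hF.xS 3⟩) (c := .inl ⟨w, hw⟩) (c' := .inl ⟨w', hw'⟩)
    h0 h1 h2 h3 hwA hwA' rfl rfl (clo_mk he) (clo_mk he') ?_ ?_ ?_ ?_
    (fun T => (kP_small hloop hcub hF hM T).1) ?_
  · exact fun h => hee (Sum.inl_injective h)
  · intro h
    rw [Sum.inl.injEq, Subtype.mk.injEq] at h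
    exact absurd (hF.xinj h) (by decide)
  · intro h
    rw [Sum.inl.injEq, Subtype.mk.injEq] at h
    exact absurd (hF.xinj h) (by decide)
  · rintro (g | j) hj1 hj2
    · exact cls_inner hg g
    · fin_cases j
      · exact absurd rfl hj1
      · exact absurd rfl hj2
      all_goals
        exact ⟨.inr false, cls_false.2 trivial, .inr true, fun h => cls_true.1 h, rfl⟩
  · rintro ⟨T, -, hT⟩
    exact (kP_small hloop hcub hF hM T).2 hT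

/-- almost bipartite closing with two new vertices -/
theorem six_HN (hloop : ∀ g, ¬ (ends g).IsDiag) (hcub : ∀ v, {g | v ∈ ends g}.ncard = 3)
    (hF : Four ends S f x) (hM : Mini ends S)
    (hg : ∀ g, (∀ w ∈ ends g, w ∈ S) → ∃ u ∈ A, ∃ v ∉ A, ends g = s(u, v))
    (h0 : x 0 ∈ A) (h1 : x 1 ∉ A) (h2 : x 2 ∈ A) (h3 : x 3 ∉ A)
    (e e' : {g : E // ∀ w ∈ ends g, w ∈ S}) {w w' : V} (hw : w ∈ S) (hw' : w' ∈ S)
    (hwA : w ∉ A) (hwA' : w' ∉ A) (hee : e ≠ e') (he : ends e.1 = s(x 0, w))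
    (he' : ends e'.1 = s(x 0, w')) : Removable (clo ends S (kH hF)) (.inl e) := by
  refine nb_removable (A := cls S A True False)
    (clo_cubic hcub hF κH (kH_inl hF) (kH_inr hF)) (g₁ := .inr 0) (g₂ := .inr 3) (k := .inl e')
    (a := .inl ⟨x 0, hF.xS 0⟩) (a' := .inr false) (b := .inl ⟨x 3, hF.xS 3⟩)
    (b' := .inr true) (c := .inl ⟨w, hw⟩) (c' := .inl ⟨w', hw'⟩)
    h0 (cls_false.2 trivial) h3 (fun h => cls_true.1 h) hwA hwA' rfl rfl (clo_mk he) (clo_mk he')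
    ?_ ?_ ?_ ?_ (fun T => (kH_small hloop hcub hF hM T).1) ?_
  · exact fun h => hee (Sum.inl_injective h)
  · intro h
    simp at h
  · intro h
    simp at h
  · rintro (g | j) hj1 hj2
    · exact cls_inner hg g
    · fin_cases j
      · exact absurd rfl hj1
      · exact ⟨.inr false, cls_false.2 trivial, .inl ⟨x 1, hF.xS 1⟩, h1, Sym2.eq_swap⟩
      · exact ⟨.inl ⟨x 2, hF.xS 2⟩, h2, .inr true, fun h => cls_true.1 h, rfl⟩
      · exact absurd rfl hj2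
      · exact ⟨.inr false, cls_false.2 trivial, .inr true, fun h => cls_true.1 h, rfl⟩
  · rintro ⟨T, -, hT⟩
    exact (kH_small hloop hcub hF hM T).2 hT

omit [Finite V] [Finite E] in
/-- reading off the type: pairs -/
theorem read_P (hF : Four ends S f x) {e : {g : E // ∀ w ∈ ends g, w ∈ S}}
    (h : Removable (clo ends S (kP hF)) (.inl e)) :
    ∃ c, RSat ends S e.1 c ∧ c (f 0) = c (f 1) ∧ c (f 2) = c (f 3) := by
  obtain ⟨c, d, hc, hd, -⟩ := clo_col hF κP (kP_inl hF) h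
  refine ⟨c, hc, ?_, ?_⟩
  · rw [hd 0, hd 1]; rfl
  · rw [hd 2, hd 3]; rfl

omit [Finite V] [Finite E] in
/-- reading off the type: two new vertices -/
theorem read_H (hF : Four ends S f x) {e : {g : E // ∀ w ∈ ends g, w ∈ S}}
    (h : Removable (clo ends S (kH hF)) (.inl e)) :
    ∃ c, RSat ends S e.1 c ∧ c (f 0) ≠ c (f 1) ∧
      ((c (f 0) = c (f 2) ∧ c (f 1) = c (f 3)) ∨ (c (f 0) = c (f 3) ∧ c (f 1) = c (f 2))) := by
  obtain ⟨c, d, hc, hd, hdd⟩ := clo_col hF κH (kH_inl hF) h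
  have fin1 : ∀ p q r s t : Fin 3, p ≠ q → p ≠ t → q ≠ t → r ≠ s → r ≠ t → s ≠ t →
      ((p = r ∧ q = s) ∨ (p = s ∧ q = r)) := by decide
  have e0 : c (f 0) = d 0 := hd 0
  have e1 : c (f 1) = d 1 := hd 1
  have e2 : c (f 2) = d 2 := hd 2
  have e3 : c (f 3) = d 3 := hd 3
  have m0 : Sum.inr false ∈ kH hF 0 := Sym2.mem_mk_right _ _
  have m1 : Sum.inr false ∈ kH hF 1 := Sym2.mem_mk_right _ _
  have m2 : Sum.inr true ∈ kH hF 2 := Sym2.mem_mk_right _ _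
  have m3 : Sum.inr true ∈ kH hF 3 := Sym2.mem_mk_right _ _
  have m4 : Sum.inr false ∈ kH hF 4 := Sym2.mem_mk_left _ _
  have m5 : Sum.inr true ∈ kH hF 4 := Sym2.mem_mk_right _ _
  have d01 := hdd false 0 1 m0 m1 (by decide)
  have d04 := hdd false 0 4 m0 m4 (by decide)
  have d14 := hdd false 1 4 m1 m4 (by decide)
  have d23 := hdd true 2 3 m2 m3 (by decide)
  have d24 := hdd true 2 4 m2 m5 (by decide)
  have d34 := hdd true 3 4 m3 m5 (by decide)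
  refine ⟨c, hc, ?_, ?_⟩
  · rw [e0, e1]; exact d01
  · rw [e0, e1, e2, e3]
    exact fin1 _ _ _ _ _ d01 d04 d14 d23 d24 d34

/-- among any two types one is realised on the side `S` without `e` -/
theorem six_pair (hloop : ∀ g, ¬ (ends g).IsDiag) (hcub : ∀ v, {g | v ∈ ends g}.ncard = 3)
    (hF : Four ends S f x) (hM : Mini ends S)
    (hg : ∀ g, (∀ w ∈ ends g, w ∈ S) → ∃ u ∈ A, ∃ v ∉ A, ends g = s(u, v))
    (h0 : x 0 ∈ A) (h1 : x 1 ∈ A) (h2 : x 2 ∉ A) (h3 : x 3 ∉ A)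
    (e e' : {g : E // ∀ w ∈ ends g, w ∈ S}) {w w' : V} (hw : w ∈ S) (hw' : w' ∈ S)
    (hwA : w ∉ A) (hwA' : w' ∉ A) (hee : e ≠ e') (he : ends e.1 = s(x 0, w))
    (he' : ends e'.1 = s(x 0, w')) (s t : Fin 4) (hst : s ≠ t) :
    ∃ c, RSat ends S e.1 c ∧ (Ty s (c (f 0)) (c (f 1)) (c (f 2)) (c (f 3)) ∨
      Ty t (c (f 0)) (c (f 1)) (c (f 2)) (c (f 3))) := by
  have fP : ∀ p q r s : Fin 3, p = q → r = s → Ty 0 p q r s ∨ Ty 1 p q r s := by decide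
  have fP2 : ∀ p q r s : Fin 3, p = r → q = s → Ty 0 p q r s ∨ Ty 2 p q r s := by decide
  have fP3 : ∀ p q r s : Fin 3, p = s → q = r → Ty 0 p q r s ∨ Ty 3 p q r s := by decide
  have fH : ∀ p q r s : Fin 3, p ≠ q → ((p = r ∧ q = s) ∨ (p = s ∧ q = r)) →
      Ty 2 p q r s ∨ Ty 3 p q r s := by decide
  have fH2 : ∀ p q r s : Fin 3, p ≠ r → ((p = q ∧ r = s) ∨ (p = s ∧ r = q)) →
      Ty 1 p q r s ∨ Ty 3 p q r s := by decide
  have fH3 : ∀ p q r s : Fin 3, p ≠ s → ((p = q ∧ s = r) ∨ (p = r ∧ s = q)) →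
      Ty 1 p q r s ∨ Ty 2 p q r s := by decide
  let π2 : Equiv.Perm (Fin 4) := ⟨![0, 2, 1, 3], ![0, 2, 1, 3], by decide, by decide⟩
  let π3 : Equiv.Perm (Fin 4) := ⟨![0, 3, 1, 2], ![0, 2, 3, 1], by decide, by decide⟩
  have hF2 := four_perm hF π2
  have hF3 := four_perm hF π3
  have t01 : ∃ c, RSat ends S e.1 c ∧ (Ty 0 (c (f 0)) (c (f 1)) (c (f 2)) (c (f 3)) ∨
      Ty 1 (c (f 0)) (c (f 1)) (c (f 2)) (c (f 3))) := by
    obtain ⟨c, hc, k1, k2⟩ := read_P hF (six_PN hloop hcub hF hM hg h0 h1 h2 h3 e e' hw hw' hwA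
      hwA' hee he he')
    exact ⟨c, hc, fP _ _ _ _ k1 k2⟩
  have t02 : ∃ c, RSat ends S e.1 c ∧ (Ty 0 (c (f 0)) (c (f 1)) (c (f 2)) (c (f 3)) ∨
      Ty 2 (c (f 0)) (c (f 1)) (c (f 2)) (c (f 3))) := by
    obtain ⟨c, hc, k1, k2⟩ := read_P hF2 (six_PB hloop hcub hF2 hM hg h0 h2 h1 h3 e)
    exact ⟨c, hc, fP2 _ _ _ _ k1 k2⟩
  have t03 : ∃ c, RSat ends S e.1 c ∧ (Ty 0 (c (f 0)) (c (f 1)) (c (f 2)) (c (f 3)) ∨
      Ty 3 (c (f 0)) (c (f 1)) (c (f 2)) (c (f 3))) := by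
    obtain ⟨c, hc, k1, k2⟩ := read_P hF3 (six_PB hloop hcub hF3 hM hg h0 h3 h1 h2 e)
    exact ⟨c, hc, fP3 _ _ _ _ k1 k2⟩
  have t23 : ∃ c, RSat ends S e.1 c ∧ (Ty 2 (c (f 0)) (c (f 1)) (c (f 2)) (c (f 3)) ∨
      Ty 3 (c (f 0)) (c (f 1)) (c (f 2)) (c (f 3))) := by
    obtain ⟨c, hc, k1, k2⟩ := read_H hF (six_HB hloop hcub hF hM hg h0 h1 h2 h3 e)
    exact ⟨c, hc, fH _ _ _ _ k1 k2⟩
  have t13 : ∃ c, RSat ends S e.1 c ∧ (Ty 1 (c (f 0)) (c (f 1)) (c (f 2)) (c (f 3)) ∨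
      Ty 3 (c (f 0)) (c (f 1)) (c (f 2)) (c (f 3))) := by
    obtain ⟨c, hc, k1, k2⟩ := read_H hF2 (six_HN hloop hcub hF2 hM hg h0 h2 h1 h3 e e' hw hw' hwA
      hwA' hee he he')
    exact ⟨c, hc, fH2 _ _ _ _ k1 k2⟩
  have t12 : ∃ c, RSat ends S e.1 c ∧ (Ty 1 (c (f 0)) (c (f 1)) (c (f 2)) (c (f 3)) ∨
      Ty 2 (c (f 0)) (c (f 1)) (c (f 2)) (c (f 3))) := by
    obtain ⟨c, hc, k1, k2⟩ := read_H hF3 (six_HN hloop hcub hF3 hM hg h0 h3 h1 h2 e e' hw hw' hwA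
      hwA' hee he he')
    exact ⟨c, hc, fH3 _ _ _ _ k1 k2⟩
  have sw : ∀ s t : Fin 4, (∃ c, RSat ends S e.1 c ∧
      (Ty s (c (f 0)) (c (f 1)) (c (f 2)) (c (f 3)) ∨
      Ty t (c (f 0)) (c (f 1)) (c (f 2)) (c (f 3)))) → ∃ c, RSat ends S e.1 c ∧
      (Ty t (c (f 0)) (c (f 1)) (c (f 2)) (c (f 3)) ∨
      Ty s (c (f 0)) (c (f 1)) (c (f 2)) (c (f 3))) := by
    rintro s t ⟨c, hc, h⟩
    exact ⟨c, hc, h.symm⟩
  fin_cases s <;> fin_cases t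
  · exact absurd rfl hst
  · exact t01
  · exact t02
  · exact t03
  · exact sw _ _ t01
  · exact absurd rfl hst
  · exact t12
  · exact t13
  · exact sw _ _ t02
  · exact sw _ _ t12
  · exact absurd rfl hst
  · exact t23
  · exact sw _ _ t03
  · exact sw _ _ t13
  · exact sw _ _ t23
  · exact absurd rfl hst

end six

end Pool.Agent.H.MP_bcbcf8_co
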