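import Pool.Agent.H.MP_bcbcf8_co.BG.Clp

/-!
# Types of the colourings at a 4-edge cut, gluing, and the six closings
-/

set_option autoImplicit false

namespace Pool.Agent.H.MP_bcbcf8_co

open Finset

section typ

variable {V E : Type} {ends : E → Sym2 V} {S : Set V} {f : Fin 4 → E} {x : Fin 4 → V}

/-- the four types of the colours of the boundary edges -/
def Ty (t : Fin 4) (p q r s : Fin 3) : Prop :=
  (t = 0 ∧ p = q ∧ p = r ∧ p = s) ∨ (t = 1 ∧ p = q ∧ r = s ∧ p ≠ r) ∨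
    (t = 2 ∧ p = r ∧ q = s ∧ p ≠ q) ∨ (t = 3 ∧ p = s ∧ q = r ∧ p ≠ q)

instance (t : Fin 4) (p q r s : Fin 3) : Decidable (Ty t p q r s) := by
  unfold Ty
  infer_instance

/-- a colouring of the edges other than `e` at the vertices in `S` -/
def RSat (ends : E → Sym2 V) (S : Set V) (e : E) (c : E → Fin 3) : Prop :=
  (∀ v ∈ S, v ∉ ends e → ∀ g h, v ∈ ends g → v ∈ ends h → g ≠ h → c g ≠ c h) ∧
    ∀ v ∈ S, v ∈ ends e → ∀ g h, v ∈ ends g → v ∈ ends h → g ≠ e → h ≠ e → c g = c h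

theorem ext_two : ∀ p q p' q' : Fin 3, p ≠ q → p' ≠ q' →
    ∃ π : Equiv.Perm (Fin 3), π p' = p ∧ π q' = q := by decide

theorem ty_perm {t : Fin 4} {p q r s p' q' r' s' : Fin 3} (h : Ty t p q r s)
    (h' : Ty t p' q' r' s') :
    ∃ π : Equiv.Perm (Fin 3), π p' = p ∧ π q' = q ∧ π r' = r ∧ π s' = s := by
  rcases h with ⟨rfl, h1, h2, h3⟩ | ⟨rfl, h1, h2, h3⟩ | ⟨rfl, h1, h2, h3⟩ | ⟨rfl, h1, h2, h3⟩ <;>
    rcases h' with ⟨h0, k1, k2, k3⟩ | ⟨h0, k1, k2, k3⟩ | ⟨h0, k1, k2, k3⟩ | ⟨h0, k1, k2, k3⟩ <;>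
    try (exact absurd h0 (by decide))
  · subst h1 h2 h3 k1 k2 k3
    exact ⟨Equiv.swap p' p, by simp⟩
  · subst h1 h2 k1 k2
    obtain ⟨π, e1, e2⟩ := ext_two _ _ _ _ h3 k3
    exact ⟨π, e1, e1, e2, e2⟩
  · subst h1 h2 k1 k2
    obtain ⟨π, e1, e2⟩ := ext_two _ _ _ _ h3 k3
    exact ⟨π, e1, e2, e1, e2⟩
  · subst h1 h2 k1 k2
    obtain ⟨π, e1, e2⟩ := ext_two _ _ _ _ h3 k3
    exact ⟨π, e1, e2, e2, e1⟩

/-- colourings on both sides of the same type give a removable edge -/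
theorem typ_glue (hF : Four ends S f x) {e : E} (he : ∀ w ∈ ends e, w ∈ S) {c c' : E → Fin 3}
    (hc : RSat ends S e c) (hc' : PrAt ends Sᶜ c') {t : Fin 4}
    (ht : Ty t (c (f 0)) (c (f 1)) (c (f 2)) (c (f 3)))
    (ht' : Ty t (c' (f 0)) (c' (f 1)) (c' (f 2)) (c' (f 3))) : Removable ends e := by
  classical
  obtain ⟨π, e0, e1, e2, e3⟩ := ty_perm ht ht'
  have hπ : ∀ l, π (c' (f l)) = c (f l) := by
    intro l
    fin_cases l
    · exact e0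
    · exact e1
    · exact e2
    · exact e3
  obtain ⟨d, hd1, hd2⟩ : ∃ d : E → Fin 3, (∀ g, (∃ w ∈ S, w ∈ ends g) → d g = c g) ∧
      ∀ g, ¬ (∃ w ∈ S, w ∈ ends g) → d g = π (c' g) := by
    refine ⟨fun g => if ∃ w ∈ S, w ∈ ends g then c g else π (c' g), ?_, ?_⟩
    · intro g hg
      simp only [if_pos hg]
    · intro g hg
      simp only [if_neg hg]
  have hd : ∀ v ∉ S, ∀ g, v ∈ ends g → d g = π (c' g) := by
    intro v hv g hg
    by_cases h4 : ∃ w ∈ S, w ∈ ends g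
    · rw [hd1 g h4]
      obtain ⟨w, hw, hwg⟩ := h4
      rcases edge_split hF hw hwg with h5 | ⟨l, rfl⟩
      · exact absurd (h5 v hg) hv
      · rw [hπ]
    · exact hd2 g h4
  refine ⟨d, ?_, ?_⟩
  · intro v p q hve hvp hvq hpq
    by_cases hvS : v ∈ S
    · rw [hd1 p ⟨v, hvS, hvp⟩, hd1 q ⟨v, hvS, hvq⟩]
      exact hc.1 v hvS hve p q hvp hvq hpq
    · rw [hd v hvS p hvp, hd v hvS q hvq]
      exact fun h => hc' v hvS p q hvp hvq hpq (π.injective h)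
  · intro v p q hve hvp hvq hpe hqe
    have hvS : v ∈ S := he v hve
    rw [hd1 p ⟨v, hvS, hvp⟩, hd1 q ⟨v, hvS, hvq⟩]
    exact hc.2 v hvS hve p q hvp hvq hpe hqe

/-- a colouring of a closed graph gives a colouring on the side `S` -/
theorem clo_col {k : Fin 5 → Sym2 ({v // v ∈ S} ⊕ Bool)} (hF : Four ends S f x)
    (κ : Fin 4 → Fin 5)
    (hκ : ∀ (v : {v // v ∈ S}) (j : Fin 5), Sum.inl v ∈ k j ↔ ∃ l, x l = v.1 ∧ κ l = j)
    {e : {g : E // ∀ w ∈ ends g, w ∈ S}} (h : Removable (clo ends S k) (.inl e)) :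
    ∃ (c : E → Fin 3) (d : Fin 5 → Fin 3), RSat ends S e.1 c ∧ (∀ l, c (f l) = d (κ l)) ∧
      ∀ b j j', Sum.inr b ∈ k j → Sum.inr b ∈ k j' → j ≠ j' → d j ≠ d j' := by
  classical
  obtain ⟨col, h1, h2⟩ := h
  obtain ⟨ψ, p1, p2⟩ : ∃ ψ : E → {g : E // ∀ w ∈ ends g, w ∈ S} ⊕ Fin 5,
      (∀ g (h : ∀ w ∈ ends g, w ∈ S), ψ g = .inl ⟨g, h⟩) ∧ ∀ l, ψ (f l) = .inr (κ l) := by
    refine ⟨fun g => if h : ∀ w ∈ ends g, w ∈ S then .inl ⟨g, h⟩ else
      if h' : ∃ l, f l = g then .inr (κ h'.choose) else .inr 0, ?_, ?_⟩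
    · intro g hg
      simp only [dif_pos hg]
    · intro l
      have h3 := f_not_inner hF l
      have h4 : ∃ l', f l' = f l := ⟨l, rfl⟩
      simp only [dif_neg h3, dif_pos h4]
      rw [hF.finj h4.choose_spec]
  have m1 : ∀ v (hv : v ∈ S) g, v ∈ ends g → Sum.inl ⟨v, hv⟩ ∈ clo ends S k (ψ g) := by
    intro v hv g hg
    rcases edge_split hF hv hg with h3 | ⟨l, rfl⟩
    · rw [p1 g h3]
      exact clo_inl.2 hg
    · rw [p2, clo_k, hκ]
      exact ⟨l, (four_end hF hv hg).symm, rfl⟩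
  have m2 : ∀ v ∈ S, ∀ g g', v ∈ ends g → v ∈ ends g' → ψ g = ψ g' → g = g' := by
    intro v hv g g' hg hg' heq
    rcases edge_split hF hv hg with h3 | ⟨l, rfl⟩
    · rcases edge_split hF hv hg' with h4 | ⟨l', rfl⟩
      · rw [p1 g h3, p1 g' h4, Sum.inl.injEq, Subtype.mk.injEq] at heq
        exact heq
      · rw [p1 g h3, p2] at heq
        simp at heq
    · rcases edge_split hF hv hg' with h4 | ⟨l', rfl⟩
      · rw [p1 g' h4, p2] at heq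
        simp at heq
      · have h5 := (four_end hF hv hg).symm.trans (four_end hF hv hg')
        rw [hF.xinj h5]
  have m3 : ψ e.1 = .inl e := p1 e.1 e.2
  refine ⟨fun g => col (ψ g), fun j => col (.inr j), ⟨?_, ?_⟩, ?_, ?_⟩
  · intro v hv hve g g' hg hg' hne
    refine h1 (.inl ⟨v, hv⟩) _ _ (fun h3 => hve (clo_inl.1 h3)) (m1 v hv g hg) (m1 v hv g' hg')
      fun h3 => hne (m2 v hv g g' hg hg' h3)
  · intro v hv hve g g' hg hg' hge hge'
    refine h2 (.inl ⟨v, hv⟩) _ _ (clo_inl.2 hve) (m1 v hv g hg) (m1 v hv g' hg') ?_ ?_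
    · intro h3
      exact hge (m2 v hv g e.1 hg hve (h3.trans m3.symm))
    · intro h3
      exact hge' (m2 v hv g' e.1 hg' hve (h3.trans m3.symm))
  · intro l
    change col (ψ (f l)) = _
    rw [p2]
  · intro b j j' hj hj' hne
    refine h1 (.inr b) _ _ clo_inr hj hj' fun h3 => hne (Sum.inr_injective h3)

/-- the Kempe switch gives a second type outside -/
theorem typ_kempe [Finite V] [Finite E] (hloop : ∀ g, ¬ (ends g).IsDiag)
    (hcub : ∀ v, {g | v ∈ ends g}.ncard = 3) (hF : Four ends S f x) {c : E → Fin 3}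
    (hc : PrAt ends Sᶜ c) {t : Fin 4} (ht : Ty t (c (f 0)) (c (f 1)) (c (f 2)) (c (f 3))) :
    ∃ (c' : E → Fin 3) (t' : Fin 4), t' ≠ t ∧ PrAt ends Sᶜ c' ∧
      Ty t' (c' (f 0)) (c' (f 1)) (c' (f 2)) (c' (f 3)) := by
  have fin1 : ∀ (t : Fin 4) (p q r s : Fin 3), Ty t p q r s →
      ∃ i j : Fin 3, i ≠ j ∧ (p = i ∨ p = j) ∧ (q = i ∨ q = j) ∧ (r = i ∨ r = j) ∧
        (s = i ∨ s = j) := by decide
  have fin2 : ∀ (t : Fin 4) (p q r s i j : Fin 3), Ty t p q r s → i ≠ j →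
      (p = i ∨ p = j) → (q = i ∨ q = j) → (r = i ∨ r = j) → (s = i ∨ s = j) →
      (∃ t', t' ≠ t ∧ Ty t' (xch i j p) (xch i j q) r s) ∧
      (∃ t', t' ≠ t ∧ Ty t' (xch i j p) q (xch i j r) s) ∧
      ∃ t', t' ≠ t ∧ Ty t' (xch i j p) q r (xch i j s) := by decide +kernel
  obtain ⟨i, j, hij, h0, h1, h2, h3⟩ := fin1 _ _ _ _ _ ht
  have hcf : ∀ l, c (f l) = i ∨ c (f l) = j := by
    intro l
    fin_cases l
    · exact h0
    · exact h1
    · exact h2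
    · exact h3
  obtain ⟨c', hc', m, hm, hcm⟩ := kem_switch hloop hcub hc f hF.finj
    (fun g => by rw [nb_bd_compl]; exact hF.hB g) hij hcf
  obtain ⟨⟨t1, n1, k1⟩, ⟨t2, n2, k2⟩, ⟨t3, n3, k3⟩⟩ := fin2 t _ _ _ _ i j ht hij h0 h1 h2 h3
  have e0 := hcm 0
  have e1 := hcm 1
  have e2 := hcm 2
  have e3 := hcm 3
  fin_cases m
  · exact absurd rfl hm
  · refine ⟨c', t1, n1, hc', ?_⟩
    rw [e0, e1, e2, e3]
    exact k1
  · refine ⟨c', t2, n2, hc', ?_⟩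
    rw [e0, e1, e2, e3]
    exact k2
  · refine ⟨c', t3, n3, hc', ?_⟩
    rw [e0, e1, e2, e3]
    exact k3

end typ

end Pool.Agent.H.MP_bcbcf8_co
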